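import Pool.Agent.H.MP_20495c_lc.Co1
import Pool.Agent.H.MP_20495c_lc.TE.TSg

/-!
# Block Co, part 4: truth for projective statements about the reals of a Cohen extension
-/

set_option autoImplicit false
set_option linter.unusedSectionVars false

namespace Pool.Agent.H.MP_20495c_lc

open Pool.Agent.H.MP_07d118_lc Pool.Agent.H.MP_a163f2_lc

universe u v w x

section

variable {A : Set ZFSet.{0}} [Mdl A]

/-- The names `Fb, Fx, Fy` of the reals `b, x, y`; if `A[r]` satisfies the negation of the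
Sigma-1-n statement with the code `b` about `(x, y)` then this is forced by some initial segment
of `r`. -/
theorem truth_TS (n : ℕ) (Fb Fx Fy : ISet A (Fs × ℕ × ℕ)) {r b x y : ℕ → ℕ} (hr : Coh A r)
    (hb : Nam Fb r b) (hx : Nam Fx r x) (hy : Nam Fy r y)
    (h : ¬ TS (Reals (cex A r)) n b (jn x y)) :
    ∃ p : Fs, Pre r p ∧ ∀ r' : ℕ → ℕ, Coh A r' → Pre r' p → ∃ y', Nam Fy r' y' ∧
      ∀ b' x', Nam Fb r' b' → Nam Fx r' x' → ¬ TS (Reals (cex A r')) n b' (jn x' y') := by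
  have hP : Po A (Set.univ : Set Fs) (fun s t : Fs => t <+: s) := po_coh
  have hev : ∀ {F : ISet A (Fs × ℕ × ℕ)} {r z : ℕ → ℕ}, Nam F r z → evp F (CF r) = z := by
    intro F r z h
    exact evp_of_fun fun n k => h n k
  have h1 : Gd A Set.univ (fun s t : Fs => t <+: s) (fun (_ : ℕ) G => ∀ m, ∃ k,
      (∃ p ∈ G, (p, m, k) ∈ Fy) ∧ ∀ k', (∃ p ∈ G, (p, m, k') ∈ Fy) → k' = k) :=
    Gd.funName hP (R := fun _ : ℕ => Fy) (IF.const Fy)
  have h2 : Gd A Set.univ (fun s t : Fs => t <+: s) (fun (_ : ℕ) G =>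
      ¬ TS (Reals (ext A G)) n (evp Fb G) (jn (evp Fx G) (evp Fy G))) :=
    Gd.not hP (Gd.TS.{0, 0} hP n (GdR.evp hP (IF.const Fb)) (GdR.jn hP
      (GdR.evp hP (IF.const Fx)) (GdR.evp hP (IF.const Fy))))
  obtain ⟨p, hp, hF⟩ := (h1.and hP h2).truth (t := 0) (coh_iff.1 hr) ⟨fun m =>
    ⟨y m, (hy m _).1 rfl, fun k' h' => ((hy m k').2 h').symm⟩, by
      rw [hev hb, hev hx, hev hy]
      exact h⟩
  refine ⟨p, hp, fun r' hr' hp' => ?_⟩
  obtain ⟨h3, h4⟩ := hF (CF r') (coh_iff.1 hr') hp'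
  refine ⟨evp Fy (CF r'), fun n k => evp_iff_of_fun h3 n k, fun b' x' hb' hx' => ?_⟩
  rw [hev hb', hev hx'] at h4
  exact h4

end

end Pool.Agent.H.MP_20495c_lc
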