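import Pool.Agent.H.MP_20495c_lc.Co3
import Pool.Agent.H.MP_20495c_lc.Co4

/-!
# Elementarity of worlds
-/

set_option autoImplicit false
set_option linter.unusedSectionVars false

namespace Pool.Agent.H.MP_20495c_lc

open Pool.Agent.H.MP_07d118_lc Pool.Agent.H.MP_a163f2_lc

universe u v w x

/-! ### Closure of the reals of a model -/

section reals

variable {A : Set ZFSet.{0}} [Mdl A]

theorem El_even : In A (fun n : ℕ => n % 2 = 0) := by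
  have h : PrimrecPred (fun n : ℕ => n % 2 = 0) :=
    PrimrecRel.comp (R := fun a b : ℕ => a = b) Primrec.eq
      (Primrec.nat_mod.comp Primrec.id (Primrec.const 2)) (Primrec.const 0)
  exact In.prim h

theorem El_half : IF A (fun n : ℕ => n / 2) :=
  IF.prim (Primrec.nat_div.comp Primrec.id (Primrec.const 2))

theorem El_two_mul : IF A (fun n : ℕ => 2 * n) :=
  IF.prim (Primrec.nat_mul.comp (Primrec.const 2) Primrec.id)

theorem El_two_mul1 : IF A (fun n : ℕ => 2 * n + 1) :=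
  IF.prim (Primrec.succ.comp (Primrec.nat_mul.comp (Primrec.const 2) Primrec.id))

theorem jn_mem_reals {x y : ℕ → ℕ} (hx : x ∈ Reals A) (hy : y ∈ Reals A) : jn x y ∈ Reals A := by
  rw [mem_reals] at *
  exact IF.ite El_even (IF.comp hx El_half) (IF.comp hy El_half)

theorem lf_mem_reals {x : ℕ → ℕ} (hx : x ∈ Reals A) : lf x ∈ Reals A := by
  rw [mem_reals] at *
  exact IF.comp hx El_two_mul

theorem rg_mem_reals {x : ℕ → ℕ} (hx : x ∈ Reals A) : rg x ∈ Reals A := by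
  rw [mem_reals] at *
  exact IF.comp hx El_two_mul1

/-- names of the two halves -/
theorem nam_lf (F : ISet A (Fs × ℕ × ℕ)) : ∃ F' : ISet A (Fs × ℕ × ℕ),
    ∀ r z, Nam F r z → Nam F' r (lf z) := by
  have h : In A (fun y : Fs × ℕ × ℕ => (y.1, 2 * y.2.1, y.2.2) ∈ F) :=
    In.mem (IF.pair IF.fst (IF.pair (IF.comp El_two_mul (IF.comp IF.fst IF.snd))
      (IF.comp IF.snd IF.snd))) (IF.const F)
  exact ⟨ISet.mk h, fun r z hz n k => hz (2 * n) k⟩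

theorem nam_rg (F : ISet A (Fs × ℕ × ℕ)) : ∃ F' : ISet A (Fs × ℕ × ℕ),
    ∀ r z, Nam F r z → Nam F' r (rg z) := by
  have h : In A (fun y : Fs × ℕ × ℕ => (y.1, 2 * y.2.1 + 1, y.2.2) ∈ F) :=
    In.mem (IF.pair IF.fst (IF.pair (IF.comp El_two_mul1 (IF.comp IF.fst IF.snd))
      (IF.comp IF.snd IF.snd))) (IF.const F)
  exact ⟨ISet.mk h, fun r z hz n k => hz (2 * n + 1) k⟩

theorem nam_unique {F : ISet A (Fs × ℕ × ℕ)} {r x y : ℕ → ℕ} (hx : Nam F r x) (hy : Nam F r y) :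
    x = y := by
  funext n
  exact ((hy n (x n)).2 ((hx n (x n)).1 rfl)).symm

end reals

/-! ### Elementarity -/

theorem El.refl (n : ℕ) (R : Set (ℕ → ℕ)) : El n R R := ⟨subset_rfl, fun _ _ _ _ _ _ => Iff.rfl⟩

theorem El.trans {n : ℕ} {R R' R'' : Set (ℕ → ℕ)} (h : El n R R') (h' : El n R' R'') :
    El n R R'' :=
  ⟨h.1.trans h'.1, fun m hm b hb x hx =>
    (h.2 m hm b hb x hx).trans (h'.2 m hm b (h.1 hb) x (h.1 hx))⟩

theorem ts_up {n : ℕ} {R R' : Set (ℕ → ℕ)} (h : El n R R') (hj : ∀ x ∈ R, ∀ y ∈ R, jn x y ∈ R)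
    {b x : ℕ → ℕ} (hb : b ∈ R) (hx : x ∈ R) (hT : TS R (n + 1) b x) : TS R' (n + 1) b x := by
  obtain ⟨y, hy, hn⟩ := hT
  exact ⟨y, h.1 hy, fun h1 => hn ((h.2 n le_rfl b hb _ (hj x hx y hy)).2 h1)⟩

theorem not_ts_two {R : Set (ℕ → ℕ)} {b x : ℕ → ℕ} : ¬ TS R 2 b x ↔ U2 R x b := by
  simp only [TS, U2]
  push Not
  rfl

/-- absoluteness of Sigma-1-1 statements -/
theorem ts_one {M : Type u} [SetStr M] [ZF M] [Std M] {W : Type v} [LinearOrder W] [Cd M W]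
    [Om1 M W] {R R' : Set (ℕ → ℕ)} (hR : RU M W R) (h : R ⊆ R') {b x : ℕ → ℕ} (hb : b ∈ R)
    (hx : x ∈ R) : TS R 1 b x ↔ TS R' 1 b x := by
  constructor
  · rintro ⟨y, hy, h1⟩
    exact ⟨y, h hy, h1⟩
  · rintro ⟨y, hy, h1⟩
    have h2 : RP R (fun v => P5_T b x v) :=
      P5_T_RP hR.rc hb (z := fun _ => x) (RF.comp hR.rc (RF.ini hR.rc hx)
        (RF.of_primrec hR.rc Primrec.snd)) (RF.of_primrec hR.rc Primrec.id)
    obtain ⟨c, hc, hc'⟩ := P5_code hR.rc h2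
    have hy1 : ∀ m, P5_T b x (ini y m) := by
      refine P5_T_branch.2 fun k => ?_
      by_contra h3
      exact h1 ⟨k, h3⟩
    rcases hR.del c hc with ⟨y', hy', h3⟩ | ⟨α, ρ, -, h4⟩
    · refine ⟨y', hy', ?_⟩
      rintro ⟨k, hk⟩
      exact hk (P5_T_branch.1 (fun m => (hc' _).1 (h3 m)) k)
    · exfalso
      refine P5_no_desc M (W := W) (fun n => ρ (ini y n)) ?_
      intro n
      rw [P5_ini_succ]
      refine h4 _ _ fun v hv => ?_
      rw [← P5_ini_succ] at hv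
      rw [P5_ini_pfx hv]
      exact (hc' _).2 (hy1 _)

theorem el_two {M : Type u} [SetStr M] [ZF M] [Std M] {W : Type v} [LinearOrder W] [Cd M W]
    [Om1 M W] {R R' : Set (ℕ → ℕ)} (hR : RU M W R) (hR' : RU M W R') (h : R ⊆ R') : El 2 R R' := by
  refine ⟨h, fun m hm b hb x hx => ?_⟩
  match m, hm with
  | 0, _ => exact Iff.rfl
  | 1, _ => exact ts_one hR h hb hx
  | 2, _ =>
    rw [← not_iff_not, not_ts_two, not_ts_two]
    exact U2.abs hR hR' h hx hb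

/-- unions of elementary directed families -/
theorem el_dir {n : ℕ} {DD : Set (Set (ℕ → ℕ))} (hd : DirectedOn (· ⊆ ·) DD)
    (hel : ∀ R ∈ DD, ∀ R' ∈ DD, R ⊆ R' → El n R R')
    (hj : ∀ R ∈ DD, ∀ x ∈ R, ∀ y ∈ R, jn x y ∈ R) {R : Set (ℕ → ℕ)} (hR : R ∈ DD) :
    El n R (⋃₀ DD) := by
  suffices h : ∀ m ≤ n, ∀ R ∈ DD, ∀ b ∈ R, ∀ x ∈ R, (TS R m b x ↔ TS (⋃₀ DD) m b x) by
    exact ⟨Set.subset_sUnion_of_mem hR, fun m hm => h m hm R hR⟩
  intro m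
  induction m with
  | zero => exact fun _ _ _ _ _ _ _ => Iff.rfl
  | succ m ih =>
    intro hm R hR b hb x hx
    constructor
    · rintro ⟨y, hy, h1⟩
      exact ⟨y, Set.subset_sUnion_of_mem hR hy, fun h2 =>
        h1 ((ih (by omega) R hR b hb _ (hj R hR x hx y hy)).2 h2)⟩
    · rintro ⟨y, ⟨R', hR', hy⟩, h1⟩
      obtain ⟨R'', hR'', h2, h3⟩ := hd R hR R' hR'
      refine ((hel R hR R'' hR'' h2).2 (m + 1) hm b hb x hx).2 ⟨y, h3 hy, fun h4 => h1 ?_⟩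
      exact (ih (by omega) R'' hR'' b (h2 hb) _ (hj R'' hR'' x (h2 hx) y (h3 hy))).1 h4

/-- the property of the worlds with respect to the increasing models `A d` -/
def WdA {W : Type v} [LinearOrder W] (A : W → Set ZFSet.{0}) [∀ d, Mdl (A d)]
    (R : Set (ℕ → ℕ)) : Prop :=
  ∀ x ∈ R, ∃ d₀, ∀ d, d₀ ≤ d → ∃ r ∈ R, ∃ e ∈ R, Coh2 (A d) r e ∧ x ∈ Reals (cex (A d) r)

theorem el_step {n : ℕ} {W : Type v} [LinearOrder W] {A : W → Set ZFSet.{0}} [∀ d, Mdl (A d)]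
    [∀ d, Cd (A d) W] [∀ d, Om1 (A d) W] {R R' : Set (ℕ → ℕ)} (h : R ⊆ R') (hR : WdA A R)
    (hR' : WdA A R') (hj : ∀ x ∈ R, ∀ y ∈ R, jn x y ∈ R) (hj' : ∀ x ∈ R', ∀ y ∈ R', jn x y ∈ R')
    (h1 : ∀ d, ∀ r ∈ R, Coh (A d) r → El n (Reals (cex (A d) r)) R)
    (h1' : ∀ d, ∀ r ∈ R', Coh (A d) r → El n (Reals (cex (A d) r)) R')
    (h2 : ∀ d, ∀ r ∈ R, ∀ e ∈ R, Coh2 (A d) r e → ∀ [Mdl (cex (A d) r)],
      Reals (cex (cex (A d) r) e) ⊆ R)
    (hn : El n R R') : El (n + 1) R R' := by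
  refine ⟨h, fun m hm b hb x hx => ?_⟩
  rcases Nat.lt_or_ge n m with hm' | hm'
  swap
  · exact hn.2 m hm' b hb x hx
  obtain rfl : m = n + 1 := by omega
  refine ⟨ts_up hn hj hb hx, ?_⟩
  rintro ⟨y, hy, hT⟩
  obtain ⟨d₁, hd₁⟩ := hR _ (hj b hb x hx)
  obtain ⟨d₂, hd₂⟩ := hR' _ (hj' _ (h (hj b hb x hx)) y hy)
  obtain ⟨r₁, hr₁, e, he, hc, hz⟩ := hd₁ (max d₁ d₂) (le_max_left _ _)
  obtain ⟨r', hr', e', _, hc', hw⟩ := hd₂ (max d₁ d₂) (le_max_right _ _)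
  generalize max d₁ d₂ = d at *
  have hC₁ : Coh (A d) r₁ := (coh2_iff.1 hc).1
  have hC' : Coh (A d) r' := (coh2_iff.1 hc').1
  haveI := mdl_cex hC₁
  haveI := mdl_cex hC'
  have hCe : Coh (cex (A d) r₁) e := (coh2_iff.1 hc).2
  haveI := mdl_cex hCe
  -- names
  obtain ⟨F₁, hF₁⟩ := (reals_cex hC₁).1 hz
  have hz' : jn b x ∈ Reals (cex (A d) r') := by
    have := lf_mem_reals hw
    rwa [P3_lf_jn] at this
  have hy' : y ∈ Reals (cex (A d) r') := by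
    have := rg_mem_reals hw
    rwa [P3_rg_jn] at this
  have hb' : b ∈ Reals (cex (A d) r') := by
    have := lf_mem_reals hz'
    rwa [P3_lf_jn] at this
  have hx' : x ∈ Reals (cex (A d) r') := by
    have := rg_mem_reals hz'
    rwa [P3_rg_jn] at this
  obtain ⟨F, hF⟩ := (reals_cex hC').1 hz'
  obtain ⟨Fy, hFy⟩ := (reals_cex hC').1 hy'
  obtain ⟨Fb, hFb⟩ := nam_lf F
  obtain ⟨Fx, hFx⟩ := nam_rg F
  have hT' : ¬ TS (Reals (cex (A d) r')) n b (jn x y) := fun h3 =>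
    hT (((h1' d r' hr' hC').2 n le_rfl b hb' _ (jn_mem_reals hx' hy')).1 h3)
  have hb1 : Nam Fb r' b := by
    have := hFb _ _ hF
    rwa [P3_lf_jn] at this
  have hx1 : Nam Fx r' x := by
    have := hFx _ _ hF
    rwa [P3_rg_jn] at this
  obtain ⟨p, hp, hforce⟩ := truth_TS n Fb Fx Fy hC' hb1 hx1 hFy hT'
  obtain ⟨r'', h4, h5, h6, h7⟩ := copy W F₁ F hC₁ hC' hCe hF₁ hF hp
  obtain ⟨y'', h8, h9⟩ := hforce r'' h4 h6
  have hb2 : Nam Fb r'' b := by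
    have := hFb _ _ h7
    rwa [P3_lf_jn] at this
  have hx2 : Nam Fx r'' x := by
    have := hFx _ _ h7
    rwa [P3_rg_jn] at this
  have hr''R : r'' ∈ R := h2 d r₁ hr₁ e he hc h5
  have hE := h1 d r'' hr''R h4
  have hy2 : y'' ∈ Reals (cex (A d) r'') := (reals_cex h4).2 ⟨Fy, h8⟩
  have hb3 : b ∈ Reals (cex (A d) r'') := (reals_cex h4).2 ⟨Fb, hb2⟩
  have hx3 : x ∈ Reals (cex (A d) r'') := (reals_cex h4).2 ⟨Fx, hx2⟩
  haveI := mdl_cex h4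
  exact ⟨y'', hE.1 hy2, fun h10 => h9 b x hb2 hx2 ((hE.2 n le_rfl b hb3 _ (jn_mem_reals hx3 hy2)).2 h10)⟩

end Pool.Agent.H.MP_20495c_lc
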