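import Pool.Agent.H.MP_20495c_lc.Base
import Pool.Agent.H.MP_a163f2_lc.P.P6
import Pool.Agent.H.MP_a163f2_lc.E.E1

/-!
# Complexity of the coded reals, part 2
-/

set_option autoImplicit false
set_option linter.unusedSectionVars false
set_option linter.unusedVariables false

namespace Pool.Agent.H.MP_20495c_lc

open Pool.Agent.H.MP_07d118_lc Pool.Agent.H.MP_a163f2_lc

universe u v w x

section

variable {R : Set (ℕ → ℕ)} {W : Type v} {c : W × Hc → ℕ → ℕ}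

/-- The finiteness condition is also in the class Pi-1-1. -/
theorem Def2_fin_pi (hR : RC R) {F G : (ℕ → ℕ) → ℕ → ℕ} (hF : MP_a163f2_lc.CF R F)
    (hG : MP_a163f2_lc.CF R G) :
    PiP R 1 (fun t => E1_fin (F t) (G t)) := by
  -- the matrix: the variable is `z` with `z 0 = k`, `tl z 0 = N`, `tl (tl z) = t`
  have h1 : SigP R 0 (fun z => F (tl (tl z)) (cd (G (tl (tl z))) (z 0)) = 1 ∧
      ¬ z 0 < tl z 0) := by
    have ht := CF.tl hR (CF.id' hR)
    have htt := CF.tl hR ht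
    have e1 : MP_a163f2_lc.CF R (fun x (k : ℕ) => cd (G (tl (tl x))) k) :=
      CF.real hR (P3_cd hR) (CF.real hR hG htt)
    have e2 : MP_a163f2_lc.CF R (fun (x : ℕ → ℕ) (_ : Unit) => x 0) := P3c_head hR (CF.id' hR) 0
    have e3 := P3_val hR e1 e2
    have e4 := P3_val hR (CF.real hR hF htt) e3
    have e5 : MP_a163f2_lc.CF R (fun (x : ℕ → ℕ) (_ : Unit) => tl x 0) := P3c_head hR ht 0
    have hp : RF R (fun p : ℕ × ℕ => Nat.pair p.1 p.2) :=
      RF.of_primrec hR (Primrec₂.natPair.comp Primrec.fst Primrec.snd)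
    have e6 := CF.comp2 hR hp e4 (CF.comp2 hR hp e2 e5)
    have u1 : RF R (fun n : ℕ => n.unpair.1) :=
      RF.of_primrec hR (Primrec.fst.comp Primrec.unpair)
    have u2 : RF R (fun n : ℕ => n.unpair.2) :=
      RF.of_primrec hR (Primrec.snd.comp Primrec.unpair)
    have q1 : RP R (fun n : ℕ => n.unpair.1 = 1) := RP.eq hR u1 (RF.const hR 1)
    have q2 : RP R (fun n : ℕ => n.unpair.2.unpair.1 < n.unpair.2.unpair.2) :=
      RP.lt hR (RF.comp hR u1 u2) (RF.comp hR u2 u2)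
    have q3 := RP.and hR q1 (RP.not hR q2)
    have h2 := P3a_clopen hR q3 0 e6
    refine SigP.congr h2 fun x _ => ?_
    simp only [Nat.unpair_pair]
  have h2 : SigP R 0 (fun z => ∃ k, F (tl z) (cd (G (tl z)) k) = 1 ∧ ¬ k < z 0) :=
    SigP.exN hR (P := fun k z => F (tl z) (cd (G (tl z)) k) = 1 ∧ ¬ k < z 0) h1
  have h3 : SigP R 1 (fun t => ∀ N, ∃ k, F t (cd (G t) k) = 1 ∧ ¬ k < N) :=
    SigP.arith_allN hR (P := fun N t => ∃ k, F t (cd (G t) k) = 1 ∧ ¬ k < N) h2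
  refine SigP.congr h3 fun t _ => ?_
  unfold E1_fin
  push Not
  rfl

/-- `Cod` is Pi-1-n if the family is Sigma-1-n, and the members of the family are in `R` -/
theorem Def2_cod_pi (hR : RC R) {n : ℕ} (hn : 1 ≤ n) (hc : ∀ κ, c κ ∈ R)
    (hF : Sig R n {z | z ∈ R ∧ z ∈ Fam c}) : PiP R n (fun t => Cod c (lf t) (rg t)) := by
  have hid := CF.id' hR
  have hS : SigP R n (fun u => u ∈ Fam c) := hF
  have hP : PiP R n (fun u => ¬ u ∈ Fam c) := PiP.of_not hS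
  have p1 : PiP R n (fun z => ¬ rg z ∈ Fam c) := PiP.subst hR hP (CF.rg hR hid)
  have hll := CF.lf hR (CF.lf hR hid)
  have hrl := CF.rg hR (CF.lf hR hid)
  have htr := CF.tl hR (CF.rg hR hid)
  have p2 : SigP R 1 (fun z => E1_fin (lf (lf z)) (tl (rg z))) := E1_fin_sig hR hll htr
  have p2' : PiP R 1 (fun z => E1_fin (lf (lf z)) (tl (rg z))) := Def2_fin_pi hR hll htr
  have p3 : SigP R 0 (fun z => E1_cl (rg z 0) (rg (lf z))) := E1_cl_sig hR (CF.rg hR hid) hrl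
  have p2a : PiP R n (fun z => E1_fin (lf (lf z)) (tl (rg z))) := PiP.mono hR p2' hn
  have p2b : PiP R n (fun z => ¬ E1_fin (lf (lf z)) (tl (rg z))) :=
    PiP.mono hR (PiP.of_not p2) hn
  have p3a : PiP R n (fun z => E1_cl (rg z 0) (rg (lf z))) :=
    PiP.mono hR (PiP.of_sig hR p3) hn
  have p3b : PiP R n (fun z => ¬ E1_cl (rg z 0) (rg (lf z))) :=
    PiP.mono hR (PiP.of_not p3) (by omega)
  have p4 := PiP.or hR p1 (PiP.or hR (PiP.and hR p2a p3a) (PiP.and hR p2b p3b))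
  obtain ⟨m, rfl⟩ : ∃ m, n = m + 1 := ⟨n - 1, by omega⟩
  have p5 := PiP.allR hR (P := fun t u => (¬ u ∈ Fam c) ∨
      ((E1_fin (lf t) (tl u) ∧ E1_cl (u 0) (rg t)) ∨
        (¬ E1_fin (lf t) (tl u) ∧ ¬ E1_cl (u 0) (rg t)))) p4
  refine PiP.congr p5 fun t _ => ?_
  constructor
  · intro hcod u _
    by_cases hu : u ∈ Fam c
    · right
      obtain ⟨ξ, h, h1, h2⟩ := hu
      have h4 : tl u = c (ξ, h) := h2
      have h5 := hcod (ξ, h)
      rw [E1_fin_iff, ← h4, ← E1_cl_iff, ← h1] at h5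
      by_cases h6 : E1_fin (lf t) (tl u)
      · exact Or.inl ⟨h6, h5.1 h6⟩
      · exact Or.inr ⟨h6, fun h7 => h6 (h5.2 h7)⟩
    · exact Or.inl hu
  · intro hall κ
    obtain ⟨ξ, h⟩ := κ
    have hu : cn (Encodable.encode h) (c (ξ, h)) ∈ R := P3c_cn_mem hR _ (hc _)
    have h1 := hall _ hu
    have h2 : tl (cn (Encodable.encode h) (c (ξ, h))) = c (ξ, h) := rfl
    have h3' : cn (Encodable.encode h) (c (ξ, h)) 0 = Encodable.encode h := rfl
    rw [E1_fin_iff, ← E1_cl_iff]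
    rw [h2, h3'] at h1
    rcases h1 with h1 | h1 | h1
    · exact absurd ⟨ξ, h, rfl, rfl⟩ h1
    · exact ⟨fun _ => h1.2, fun _ => h1.1⟩
    · exact ⟨fun h6 => absurd h6 h1.1, fun h6 => absurd h6 h1.2⟩

/-- the coded reals are Sigma-1-(n+1) if the family is Sigma-1-n, and the members of the family
are in `R` -/
theorem sig_cod (hR : RC R) {n : ℕ} (hn : 1 ≤ n) (hc : ∀ κ, c κ ∈ R)
    (hF : Sig R n {z | z ∈ R ∧ z ∈ Fam c}) :
    Sig R (n + 1) {z | z ∈ R ∧ ∃ y ∈ R, Cod c y z} := by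
  have hid := CF.id' hR
  refine SigP.exR_pi hR (P := fun z y => Cod c y z) ?_
  have h1 := PiP.subst hR (Def2_cod_pi hR hn hc hF)
    (CF.jn hR (CF.rg hR hid) (CF.lf hR hid))
  refine PiP.congr h1 fun z _ => ?_
  have e1 : lf (jn (rg z) (lf z)) = rg z := P3c_lf_jn _ _
  have e2 : rg (jn (rg z) (lf z)) = lf z := P3c_rg_jn _ _
  show Cod c (rg z) (lf z) ↔ Cod c (lf (jn (rg z) (lf z))) (rg (jn (rg z) (lf z)))
  rw [e1, e2]

/-- the new family -/
theorem sig_fam (hR : RC R) {n : ℕ} (hn : 1 ≤ n) {c' : W × Hc → ℕ → ℕ} (hc' : ∀ κ, c' κ ∈ R)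
    (hK : Sig R n {z | z ∈ R ∧ ∃ y ∈ R, Cod c y z})
    (h1 : ∀ κ : W × Hc, ∃ y ∈ R, Cod c y (lab κ.2 (c' κ)))
    (h2 : ∀ y ∈ R, ∀ z ∈ R, Cod c y z → z 0 = 0 ∨ ∃ κ : W × Hc, z = lab κ.2 (c' κ)) :
    Sig R n {z | z ∈ R ∧ z ∈ Fam c'} := by
  have hK' : SigP R n (fun z => ∃ y ∈ R, Cod c y z) := hK
  have h3 := SigP.subst hR hK' (CF.cn hR (CF.num hR (RF.const hR (1 : ℕ))) (CF.id' hR))
  have h4 : SigP R n (fun z => ∃ y ∈ R, Cod c y (cn 1 z)) := h3
  refine SigP.congr h4 fun z hz => ?_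
  constructor
  · rintro ⟨ξ, h, e1, e2⟩
    obtain ⟨y, hy, hy'⟩ := h1 (ξ, h)
    refine ⟨y, hy, ?_⟩
    have e3 : lab h (c' (ξ, h)) = cn 1 z := by
      funext m
      rcases m with _ | _ | m
      · rfl
      · exact e1.symm
      · exact (congrFun e2 m).symm
    rw [← e3]
    exact hy'
  · rintro ⟨y, hy, hy'⟩
    rcases h2 y hy _ (P3c_cn_mem hR 1 hz) hy' with h5 | ⟨⟨ξ, h⟩, h5⟩
    · exact absurd h5 (by
        show ¬ (1 : ℕ) = 0
        omega)
    · refine ⟨ξ, h, congrFun h5 1, ?_⟩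
      funext m
      exact congrFun h5 (m + 2)

end

end Pool.Agent.H.MP_20495c_lc
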