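import Pool.Agent.H.MP_20495c_lc.Base
import Pool.Agent.H.MP_20495c_lc.Def2
import Pool.Agent.H.MP_a163f2_lc.P.P6

/-!
# Complexity of the coded reals
-/

set_option autoImplicit false
set_option linter.unusedSectionVars false

namespace Pool.Agent.H.MP_20495c_lc

open Pool.Agent.H.MP_07d118_lc Pool.Agent.H.MP_a163f2_lc

universe u v w x

section

variable {R : Set (ℕ → ℕ)} {W : Type v} {c : W × Hc → ℕ → ℕ}

/-- the universal form of the projective classes -/
theorem sig_iff_TS (hR : RC R) (n : ℕ) {A : Set (ℕ → ℕ)} :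
    Sig R n A ↔ ∃ b ∈ R, A = {x | x ∈ R ∧ TS R n b x} := by
  induction n generalizing A with
  | zero => exact Iff.rfl
  | succ n ih =>
    have key : ∀ b : ℕ → ℕ, {x | x ∈ R ∧ ∃ y ∈ R, jn x y ∉ {x | x ∈ R ∧ TS R n b x}} =
        {x | x ∈ R ∧ TS R (n + 1) b x} := by
      intro b
      ext x
      constructor
      · rintro ⟨hx, y, hy, h⟩
        exact ⟨hx, y, hy, fun h' => h ⟨P5_jn_mem hR hx hy, h'⟩⟩
      · rintro ⟨hx, y, hy, h⟩
        exact ⟨hx, y, hy, fun h' => h h'.2⟩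
    constructor
    · rintro ⟨B, hB, rfl⟩
      obtain ⟨b, hb, rfl⟩ := ih.1 hB
      exact ⟨b, hb, key b⟩
    · rintro ⟨b, hb, rfl⟩
      exact ⟨{x | x ∈ R ∧ TS R n b x}, ih.2 ⟨b, hb, rfl⟩, (key b).symm⟩

theorem lab_inj {h h' : Hc} {x x' : ℕ → ℕ} (e : lab h x = lab h' x') : h = h' ∧ x = x' := by
  refine ⟨Encodable.encode_injective (congrFun e 1), funext fun n => congrFun e (n + 2)⟩

end

end Pool.Agent.H.MP_20495c_lc
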