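import Pool.Agent.H.MP_20495c_lc.TE.GdF
import Pool.Agent.H.MP_20495c_lc.IT.Main
import Pool.Agent.H.MP_a163f2_lc.R.Re1

/-!
# Block TE: typed generic extensions

Typed form of block Z of MP_a163f2_lc.  The proofs are in the files TE/Up (codes in two models),
TE/Ext, TE/Typ (the extension), TE/Gd, TE/GdF (good statements for an arbitrary typed poset).
-/

set_option autoImplicit false
set_option linter.unusedSectionVars false

namespace Pool.Agent.H.MP_20495c_lc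

open Pool.Agent.H.MP_07d118_lc Pool.Agent.H.MP_a163f2_lc

universe u v w x

/-! ### Codes in two models -/

section codes

variable {S N : Set ZFSet.{0}} [Mdl S] [Mdl N]

instance instCxRefl {T : Type v} [Cd S T] : Cx S S T := ⟨fun _ => rfl⟩

theorem cx_trans {N' : Set ZFSet.{0}} [Mdl N'] {T : Type v} [Cd S T] [Cd N T] [Cd N' T]
    (h : Cx S N T) (h' : Cx N N' T) : Cx S N' T := ⟨fun t => (h.eq t).trans (h'.eq t)⟩

theorem cx_of {N' : Set ZFSet.{0}} [Mdl N'] {T : Type v} [Cd S T] [Cd N T] [Cd N' T]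
    (h : Cx S N T) (h' : Cx S N' T) : Cx N N' T := ⟨fun t => (h.eq t).symm.trans (h'.eq t)⟩

/-- internal relations of `S` are internal in `N` -/
theorem In.lift (h : S ⊆ N) {T : Type v} [Cd S T] [Cd N T] [Cx S N T] {A : T → Prop}
    (hA : In S A) : In N A := In_up h hA

theorem IF.lift (h : S ⊆ N) {T : Type v} {U : Type w} [Cd S T] [Cd N T] [Cx S N T] [Cd S U]
    [Cd N U] [Cx S N U] {f : T → U} (hf : IF S f) : IF N f := IF_up h hf

/-- the reals of the model are the internal functions -/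
theorem mem_reals {x : ℕ → ℕ} : x ∈ Reals S ↔ IF S x := mem_Reals_iff Mdl.tr

theorem reals_mono (h : S ⊆ N) : Reals S ⊆ Reals N := fun _ hx => h hx

theorem reals_mono_set {B C : Set ZFSet.{0}} (h : B ⊆ C) : Reals B ⊆ Reals C := fun _ hx => h hx

end codes

/-! ### Generic extensions -/

section ext

variable {S : Set ZFSet.{0}} [Mdl S] {P : Type v} [Cd S P] {V : Set P} {le : P → P → Prop}
  {G : Set P}

theorem mdl_ext (hP : Po S V le) (hG : Gt S V le G) : Mdl (ext S G) := ext_mdl hP hG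

/-- the internal subsets of the extension have names -/
theorem in_ext_iff (hP : Po S V le) (hG : Gt S V le G) [Mdl (ext S G)] {T : Type w} [Cd S T]
    [Cd (ext S G) T] [Cx S (ext S G) T] {A : T → Prop} :
    In (ext S G) A ↔ ∃ R : ISet S (T × P), ∀ t, A t ↔ ∃ p ∈ G, (t, p) ∈ R := by
  refine (In_ext_iff hP hG rfl).trans ?_
  constructor
  · rintro ⟨F, h1, h2⟩
    exact ⟨ISet.mk h1, h2⟩
  · rintro ⟨R, h⟩
    exact ⟨fun y => y ∈ R, R.in_mem, h⟩

theorem in_gen (hP : Po S V le) (hG : Gt S V le G) [Mdl (ext S G)] [Cd (ext S G) P]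
    [Cx S (ext S G) P] : In (ext S G) (fun p => p ∈ G) := In_gen hP hG rfl

/-- the extension is minimal -/
theorem ext_min (hP : Po S V le) (hG : Gt S V le G) {N : Set ZFSet.{0}} [Mdl N] (h : S ⊆ N)
    [Cd N P] [Cx S N P] (hN : In N (fun p => p ∈ G)) : ext S G ⊆ N := ext_sub h hN

theorem gext_ext (hP : Po S V le) (hG : Gt S V le G) : GExt S (ext S G) := by
  have hV : ∀ z : ZFSet.{0}, z ∈ ((ISet.mk hP.inV).cod : S).1 ↔
      ∃ p ∈ V, ((Cd.code p : S) : ZFSet.{0}) = z := fun z => mem_cod_val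
  have hL : ∀ p q : P, ZFSet.pair ((Cd.code p : S) : ZFSet.{0}) ((Cd.code q : S) : ZFSet.{0}) ∈
      ((ISet.mk hP.inle).cod : S).1 ↔ p ∈ V ∧ q ∈ V ∧ le p q := by
    intro p q
    have h1 := ISet.mem_cod (M := S) (A := ISet.mk hP.inle) (t := (p, q))
    have h2 : ((Cd.code (p, q) : S) : ZFSet.{0}) =
        ZFSet.pair ((Cd.code p : S) : ZFSet.{0}) ((Cd.code q : S) : ZFSet.{0}) :=
      Z.abs_opair Mdl.tr _ _
    rw [← h2]
    exact h1
  refine ⟨_, (ISet.mk hP.inV).cod.2, _, (ISet.mk hP.inle).cod.2, ?_, ?_, cds S G,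
    ⟨?_, ?_, ?_, ?_, ?_⟩, rfl⟩
  · intro z hz
    obtain ⟨p, hp, rfl⟩ := (hV z).1 hz
    exact (hL p p).2 ⟨hp, hp, hP.refl p hp⟩
  · intro z1 h1 z2 h2 z3 h3 h12 h23
    obtain ⟨p, hp, rfl⟩ := (hV z1).1 h1
    obtain ⟨q, hq, rfl⟩ := (hV z2).1 h2
    obtain ⟨r, hr, rfl⟩ := (hV z3).1 h3
    exact (hL p r).2 ⟨hp, hr, hP.trans p hp q hq r hr ((hL p q).1 h12).2.2
      ((hL q r).1 h23).2.2⟩
  · rintro z ⟨p, hp, rfl⟩
    exact (hV _).2 ⟨p, hG.sub p hp, rfl⟩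
  · obtain ⟨p, hp⟩ := hG.ne
    exact ⟨_, p, hp, rfl⟩
  · rintro z ⟨p, hp, rfl⟩ z2 h2 h12
    obtain ⟨q, hq, rfl⟩ := (hV z2).1 h2
    exact ⟨q, hG.up p hp q hq ((hL p q).1 h12).2.2, rfl⟩
  · rintro z ⟨p, hp, rfl⟩ z2 ⟨q, hq, rfl⟩
    obtain ⟨r, hr, h1, h2⟩ := hG.dir p hp q hq
    exact ⟨_, ⟨r, hr, rfl⟩, (hL r p).2 ⟨hG.sub r hr, hG.sub p hp, h1⟩,
      (hL r q).2 ⟨hG.sub r hr, hG.sub q hq, h2⟩⟩
  · intro D hD hd
    obtain ⟨p, hp, h1⟩ := hG.meets (ISet.mk (P := fun p : P => Cd.code p ∈ (⟨D, hD⟩ : S))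
      ⟨⟨D, hD⟩, fun _ => Iff.rfl⟩) (by
        intro p hp
        obtain ⟨y, h1, h2, h3⟩ := hd _ ((hV _).2 ⟨p, hp, rfl⟩)
        obtain ⟨q, hq, rfl⟩ := (hV y).1 h1
        exact ⟨q, hq, ((hL q p).1 h2).2.2, h3⟩)
    exact ⟨_, ⟨p, hp, rfl⟩, h1⟩

theorem reals_ext_iff (hP : Po S V le) (hG : Gt S V le G) {y : ℕ → ℕ} :
    y ∈ Reals (ext S G) ↔ ∃ R : ISet S (P × ℕ × ℕ), ∀ n k, y n = k ↔ ∃ p ∈ G, (p, n, k) ∈ R := by
  refine (mem_Reals_ext_iff hP hG).trans ?_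
  constructor
  · rintro ⟨F, h1, h2⟩
    refine ⟨ISet.mk (P := fun y : P × ℕ × ℕ => F ((y.2.1, y.2.2), y.1)) ?_, fun n k => h2 n k⟩
    exact In.comp (f := fun y : P × ℕ × ℕ => ((y.2.1, y.2.2), y.1)) h1
      (((IF.comp IF.fst IF.snd).pair (IF.comp IF.snd IF.snd)).pair IF.fst)
  · rintro ⟨R, h⟩
    refine ⟨fun y => (y.2, y.1.1, y.1.2) ∈ R, ?_, fun n k => h n k⟩
    exact In.mem (IF.snd.pair ((IF.comp IF.fst IF.fst).pair (IF.comp IF.snd IF.fst)))
      (IF.const R)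

end ext

/-! ### Plans as posets -/

section plans

variable {S : Set ZFSet.{0}} [Mdl S] {W : Type v} [LinearOrder W] [Cd S W] [Om1 S W]
  {c : W × Hc → ℕ → ℕ} [hL : Fact (Luz S W c)] {f : Pl S W} {G : Set (Cond W)}

theorem po_pp (f : Pl S W) : Po S (PP c f) (CLe c) where
  inV := In.pp (IF.const f) IF.id
  inle := In.and (In.pp (IF.const f) IF.fst) (In.and (In.pp (IF.const f) IF.snd)
    (In.cle IF.fst IF.snd))
  refl := fun p _ => CLe.refl p
  trans := fun _ _ _ _ _ _ h1 h2 => h1.trans h2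

theorem gt_iff_gen : Gt S (PP c f) (CLe c) G ↔ Gen c f G :=
  ⟨fun h => ⟨h.sub, h.ne, h.up, h.dir, h.meets⟩, fun h => ⟨h.sub, h.ne, h.up, h.dir, h.meets⟩⟩

/-- the reals of the extension by a plan -/
theorem reals_ext_plan (hf : Valid c f) (hG : Gen c f G) : Reals (ext S G) = RR c f G := by
  have hP := po_pp (S := S) (c := c) f
  have hGt : Gt S (PP c f) (CLe c) G := gt_iff_gen.2 hG
  have hN : Mdl (ext S G) := ext_mdl hP hGt
  ext x
  constructor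
  · intro hx
    obtain ⟨F, h1, h2⟩ := (mem_Reals_ext_iff hP hGt).1 hx
    refine mem_RR_of_good hf hG (Q := fun n k G => ∃ p : Cond W, p ∈ G ∧ F ((n, k), p)) ?_
      (fun n k => h2 n k)
    refine Good.ex (Q := fun (y : ℕ × ℕ) (p : Cond W) G => p ∈ G ∧ F ((y.1, y.2), p))
      (Good.and (Good.mem (IF.const f) IF.snd) (Good.of_in ?_))
    exact In.comp (f := fun y : (ℕ × ℕ) × Cond W => ((y.1.1, y.1.2), y.2)) h1
      (((IF.comp IF.fst IF.fst).pair (IF.comp IF.snd IF.fst)).pair IF.snd)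
  · rintro ⟨n, -, rfl⟩
    have hg : Good c (fun _ : ℕ × ℕ => f) (fun y G => ev n G y.1 = y.2) :=
      GoodF_ev_good (IF.const f) (x := fun _ : ℕ × ℕ => n) (IF.const n) IF.fst IF.snd
    obtain ⟨F, h1, h2, h3⟩ := hg
    rw [mem_Reals_iff (N := ext S G) Mdl.tr]
    exact (In_ext_iff hP hGt rfl (T := ℕ × ℕ) (A := fun y => ev n G y.1 = y.2)).2
      ⟨fun y => F y.1 y.2, h1, fun t => h3 t G hG⟩

end plans

end Pool.Agent.H.MP_20495c_lc
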