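import Pool.Agent.H.MP_a163f2_lc.Z.Main
import Pool.Agent.H.MP_a163f2_lc.Z.Exists
import Pool.Agent.H.MP_a163f2_lc.P.P3
import Pool.Agent.H.MP_a163f2_lc.R.Re
import Pool.Agent.H.MP_a163f2_lc.R.Nuc

/-!
# MP_20495c_lc: base file (definitions)

`Mdl S`: `S` is a countable transitive model of ZFC.
`Cx S N T`: the type `T` is coded in `S` and in `N` by the same sets.
`Po S V le`, `Gt S V le G`: typed posets of `S` and their generic filters; `ext S G` is the extension.
`Coh A r`: the real `r` is Cohen generic over `A`; `cex A r` is the extension.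
`TS R n b x`: the Sigma-1-n statement with the code `b` about `x` over the set `R` of reals.
`El n R R'`: `R` is a Sigma-1-n elementary subset of `R'`.
`AI n S c WW`: the interface between the hiding part (A) and the combinatorial part (B).
-/

set_option autoImplicit false
set_option linter.unusedSectionVars false

namespace Pool.Agent.H.MP_20495c_lc

open Pool.Agent.H.MP_07d118_lc Pool.Agent.H.MP_a163f2_lc

universe u v w x

/-- countable transitive models of ZFC -/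
class Mdl (S : Set ZFSet.{0}) : Prop where
  tr : Trans S
  cnt : S.Countable
  zfc : ZFC S

instance instZFCMdl {S : Set ZFSet.{0}} [h : Mdl S] : ZFC S := h.zfc

instance instCountableMdl {S : Set ZFSet.{0}} [h : Mdl S] : Countable S := h.cnt

/-- The elements of `T` have the same codes in `S` and in `N`. -/
class Cx (S N : Set ZFSet.{0}) (T : Type v) [Cd S T] [Cd N T] : Prop where
  eq : ∀ t : T, ((Cd.code t : S) : ZFSet.{0}) = ((Cd.code t : N) : ZFSet.{0})

/-- the codes of `S` as codes of a larger model -/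
@[instance_reducible] noncomputable def CdUp {S N : Set ZFSet.{0}} [Mdl S] (h : S ⊆ N) (T : Type v)
    [Cd S T] : Cd N T where
  code t := ⟨((Cd.code t : S) : ZFSet.{0}), h (Cd.code t : S).2⟩
  inj := fun a b e => Cd.inj (M := S) (Subtype.ext (congrArg (fun z : N => (z : ZFSet.{0})) e))
  car := ⟨((Cd.car T : S) : ZFSet.{0}), h (Cd.car T : S).2⟩
  mem_car := by
    intro x
    constructor
    · intro hx
      have h1 : (x : ZFSet.{0}) ∈ ((Cd.car T : S) : ZFSet.{0}) := hx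
      have h2 : (x : ZFSet.{0}) ∈ S := Mdl.tr _ (Cd.car T : S).2 _ h1
      obtain ⟨t, ht⟩ := (Cd.mem_car (M := S) (T := T) ⟨x, h2⟩).1 h1
      exact ⟨t, Subtype.ext (congrArg (fun z : S => (z : ZFSet.{0})) ht)⟩
    · rintro ⟨t, rfl⟩
      exact (Cd.mem_car (M := S) (T := T) _).2 ⟨t, rfl⟩

/-! ### Typed posets and generic extensions -/

/-- `V` with the relation `le` is an internal preorder of `S`. -/
structure Po (S : Set ZFSet.{0}) [Mdl S] {P : Type v} [Cd S P] (V : Set P) (le : P → P → Prop) :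
    Prop where
  inV : In S (fun p => p ∈ V)
  inle : In S (fun y : P × P => y.1 ∈ V ∧ y.2 ∈ V ∧ le y.1 y.2)
  refl : ∀ p ∈ V, le p p
  trans : ∀ p ∈ V, ∀ q ∈ V, ∀ r ∈ V, le p q → le q r → le p r

/-- `G` is a generic filter over `S`. -/
structure Gt (S : Set ZFSet.{0}) [Mdl S] {P : Type v} [Cd S P] (V : Set P) (le : P → P → Prop)
    (G : Set P) : Prop where
  sub : ∀ p ∈ G, p ∈ V
  ne : G.Nonempty
  up : ∀ p ∈ G, ∀ q ∈ V, le p q → q ∈ G
  dir : ∀ p ∈ G, ∀ q ∈ G, ∃ r ∈ G, le r p ∧ le r q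
  meets : ∀ D : ISet S P, (∀ p ∈ V, ∃ q ∈ V, le q p ∧ q ∈ D) → ∃ p ∈ G, p ∈ D

/-- The extension of `S` by a set `G` of codes. -/
noncomputable def gext (S : Set ZFSet.{0}) [Mdl S] (G : Set ZFSet.{0}) : Set ZFSet.{0} :=
  Z.Ex (Z.zval {x : S | (x : ZFSet.{0}) ∈ G})

/-- The set of the codes of the elements of `G`. -/
def cds (S : Set ZFSet.{0}) {P : Type v} [Cd S P] (G : Set P) : Set ZFSet.{0} :=
  {z | ∃ p ∈ G, ((Cd.code p : S) : ZFSet.{0}) = z}

/-- The extension of `S` by a typed generic filter. -/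
noncomputable def ext (S : Set ZFSet.{0}) [Mdl S] {P : Type v} [Cd S P] (G : Set P) :
    Set ZFSet.{0} := gext S (cds S G)

/-- `N` is a generic extension of `S` (by a forcing notion which is an element of `S`). -/
def GExt (S N : Set ZFSet.{0}) [Mdl S] : Prop :=
  ∃ P ∈ S, ∃ L ∈ S, (∀ p ∈ P, ZFSet.pair p p ∈ L) ∧
    (∀ p ∈ P, ∀ q ∈ P, ∀ r ∈ P, ZFSet.pair p q ∈ L → ZFSet.pair q r ∈ L → ZFSet.pair p r ∈ L) ∧
    ∃ G, Generic S P L G ∧ N = gext S G

/-! ### Cohen reals -/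

/-- the filter of the initial segments of `r` -/
def CF (r : ℕ → ℕ) : Set Fs := {s | Pre r s}

/-- `r` is Cohen generic over `A`. -/
def Coh (A : Set ZFSet.{0}) [Mdl A] (r : ℕ → ℕ) : Prop :=
  ∀ D : ISet A Fs, (∀ s : Fs, ∃ t : Fs, s <+: t ∧ t ∈ D) → ∃ t : Fs, t ∈ D ∧ Pre r t

/-- the pair `r, e` is generic over `A` for the product of two Cohen forcings -/
def Coh2 (A : Set ZFSet.{0}) [Mdl A] (r e : ℕ → ℕ) : Prop :=
  ∀ D : ISet A (Fs × Fs), (∀ s s' : Fs, ∃ t t' : Fs, s <+: t ∧ s' <+: t' ∧ (t, t') ∈ D) →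
    ∃ t t' : Fs, (t, t') ∈ D ∧ Pre r t ∧ Pre e t'

/-- the extension of `A` by the real `r` -/
noncomputable def cex (A : Set ZFSet.{0}) [Mdl A] (r : ℕ → ℕ) : Set ZFSet.{0} := ext A (CF r)

/-! ### Projective statements and elementarity -/

/-- The Sigma-1-n statement with the code `b` about `x`, over the set `R` of reals. -/
def TS (R : Set (ℕ → ℕ)) : ℕ → (ℕ → ℕ) → (ℕ → ℕ) → Prop
  | 0, b, x => ∃ k, b (cd x k) ≠ 0
  | n + 1, b, x => ∃ y ∈ R, ¬ TS R n b (jn x y)

/-- `R` is a Sigma-1-n elementary subset of `R'`. -/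
def El (n : ℕ) (R R' : Set (ℕ → ℕ)) : Prop :=
  R ⊆ R' ∧ ∀ m ≤ n, ∀ b ∈ R, ∀ x ∈ R, (TS R m b x ↔ TS R' m b x)

/-- the set of the reals coding a member of the family `c` together with its second index -/
def Fam {W : Type v} (c : W × Hc → ℕ → ℕ) : Set (ℕ → ℕ) :=
  {z | ∃ (ξ : W) (h : Hc), z 0 = Encodable.encode h ∧ (fun n => z (n + 1)) = c (ξ, h)}

/-- The interface: the model `S` with the family `c`, on the level `n`; `WW` is a class of sets of
reals (the worlds), `S₀` the ground model. -/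
structure AI (S₀ : Set ZFSet.{0}) [Mdl S₀] {W : Type v} [LinearOrder W] [Cd S₀ W] (n : ℕ)
    (S : Set ZFSet.{0}) [Mdl S] [Cd S W] (c : W × Hc → ℕ → ℕ) (WW : Set (Set (ℕ → ℕ))) : Prop where
  luz : Luz S W c
  dir : ∀ DD : Set (Set (ℕ → ℕ)), DD ⊆ WW → DD.Nonempty → DirectedOn (· ⊆ ·) DD → ⋃₀ DD ∈ WW
  ru : ∀ R ∈ WW, RU S₀ W R
  sub : ∀ R ∈ WW, Reals S ⊆ R
  el : ∀ R ∈ WW, ∀ R' ∈ WW, R ⊆ R' → El n R R'
  fam : ∀ R ∈ WW, Sig R n {z | z ∈ R ∧ z ∈ Fam c}
  pl0 : ∀ (f : Pl S W) (G : Set (Cond W)), Valid c f → Gen c f G → Reals (ext S G) ∈ WW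
  pl1 : ∀ (f : Pl S W) (G : Set (Cond W)), Valid c f → Gen c f G → ∀ [Mdl (ext S G)],
    ∀ r : ℕ → ℕ, Coh (ext S G) r → Reals (cex (ext S G) r) ∈ WW

/-! ### The step of the layers -/

/-- The label of a member of the family: the real `1, encode h, x 0, x 1, ...`. -/
def lab (h : Hc) (x : ℕ → ℕ) : ℕ → ℕ := fun n => Nat.casesOn n 1 (fun n => Nat.casesOn n
  (Encodable.encode h) x)

/-- The package of the step: the model `N` is the extension of `S` by the long plan, `A d` its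
initial parts, `f d` the plan of the nodes with first index below `d`, `c'` the new family, `sp`
the spare reals. -/
structure SPk (S : Set ZFSet.{0}) [Mdl S] {W : Type v} [LinearOrder W] [Cd S W] [Om1 S W]
    (c : W × Hc → ℕ → ℕ) (N : Set ZFSet.{0}) [Mdl N] [Cd N W] [Om1 N W]
    (A : W → Set ZFSet.{0}) [∀ d, Mdl (A d)] [∀ d, Cd (A d) W] [∀ d, Om1 (A d) W]
    (c' : W × Hc → ℕ → ℕ) (f : W → Pl S W) (G : W → Set (Cond W)) (sp : W → ℕ → ℕ → ℕ) :
    Prop where
  gx : GExt S N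
  cxN : Cx S N W
  cxA : ∀ d, Cx S (A d) W
  luz : Luz N W c'
  val : ∀ d, Valid c (f d)
  gen : ∀ d, Gen c (f d) (G d)
  extA : ∀ d, A d = ext S (G d)
  subN : ∀ d, A d ⊆ N
  mono : ∀ d d', d ≤ d' → A d ⊆ A d'
  /-- the node reals are labels or the default value -/
  cont : ∀ d, ∀ ν ∈ (f d).dom, ev ((f d).nm ν) (G d) = 0 ∨
    ∃ κ : W × Hc, ev ((f d).nm ν) (G d) = lab κ.2 (c' κ)
  /-- all labels are coded -/
  code : ∀ κ : W × Hc, ∃ y ∈ Reals N, Cod c y (lab κ.2 (c' κ))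
  /-- the family below `d` is in `A d` -/
  inA : ∀ d, In (A d) (fun y : (W × Hc) × ℕ × ℕ => y.1.1 < d ∧ c' y.1 y.2.1 = y.2.2)
  /-- every internal subset of `ℕ` is in some `A d` -/
  real : ∀ x ∈ Reals N, ∃ d, x ∈ Reals (A d)
  spN : ∀ d i, sp d i ∈ Reals N
  /-- the spare real `sp d i` is in all later models -/
  spA : ∀ d d' i, d < d' → sp d i ∈ Reals (A d')
  /-- the spare reals of index `d` and the members of the family with index at least `d` are
  mutually Cohen generic over `A d` -/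
  mg : ∀ (d : W) (L : List (W × Hc)), L.Nodup → (∀ κ ∈ L, d ≤ κ.1) →
    ∀ D : ISet (A d) (List Fs), DenseT (L.length + 2) D.1 →
      ∃ t ∈ D.1, List.Forall₂ (fun x u => Pre x u) (sp d 0 :: sp d 1 :: L.map c') t

end Pool.Agent.H.MP_20495c_lc
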