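import Pool.Agent.H.MP_20495c_lc.Co1

/-!
# Block Co: the generic branch of an internal set of finite sequences

`Q` is an internal set of finite sequences in the model `N`, `e` is Cohen over the larger model
`N'`.  There is a real `r` in `N[e]` all of whose initial segments extend to initial segments in
`Q`, and which is generic for the order `Q` over `N'`.
-/

set_option autoImplicit false
set_option linter.unusedSectionVars false

namespace Pool.Agent.H.MP_20495c_lc

open Pool.Agent.H.MP_07d118_lc Pool.Agent.H.MP_a163f2_lc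

universe u v w x

open Classical in
/-- The sequence of conditions in `Q` built from the digits of `u`. -/
noncomputable def stp (Q : Fs → Prop) (t₀ : Fs) (u : ℕ → ℕ) (j : ℕ) : Fs :=
  Nat.rec (motive := fun _ => Fs) t₀ (fun j t =>
    if Q (t ++ Denumerable.ofNat (List ℕ) (u j)) then t ++ Denumerable.ofNat (List ℕ) (u j)
    else t) j

section stp

variable {Q : Fs → Prop} {t₀ : Fs} {u u' : ℕ → ℕ}

theorem stp_succ_pos {j : ℕ} (h : Q (stp Q t₀ u j ++ Denumerable.ofNat (List ℕ) (u j))) :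
    stp Q t₀ u (j + 1) = stp Q t₀ u j ++ Denumerable.ofNat (List ℕ) (u j) :=
  if_pos h

theorem stp_succ_neg {j : ℕ} (h : ¬ Q (stp Q t₀ u j ++ Denumerable.ofNat (List ℕ) (u j))) :
    stp Q t₀ u (j + 1) = stp Q t₀ u j :=
  if_neg h

theorem stp_congr (j : ℕ) (h : ∀ i < j, u i = u' i) : stp Q t₀ u j = stp Q t₀ u' j := by
  induction j with
  | zero => rfl
  | succ j ih =>
    have h1 := ih fun i hi => h i (by omega)
    have h2 := h j (by omega)
    by_cases hQ : Q (stp Q t₀ u j ++ Denumerable.ofNat (List ℕ) (u j))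
    · rw [stp_succ_pos hQ]
      rw [h1, h2] at hQ ⊢
      rw [stp_succ_pos hQ]
    · rw [stp_succ_neg hQ]
      rw [h1, h2] at hQ
      rw [h1, stp_succ_neg hQ]

theorem stp_Q (h0 : Q t₀) (j : ℕ) : Q (stp Q t₀ u j) := by
  induction j with
  | zero => exact h0
  | succ j ih =>
    by_cases hQ : Q (stp Q t₀ u j ++ Denumerable.ofNat (List ℕ) (u j))
    · rw [stp_succ_pos hQ]
      exact hQ
    · rw [stp_succ_neg hQ]
      exact ih

theorem stp_mono {i j : ℕ} (h : i ≤ j) : stp Q t₀ u i <+: stp Q t₀ u j := by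
  induction j, h using Nat.le_induction with
  | base => exact List.prefix_rfl
  | succ j _ ih =>
    by_cases hQ : Q (stp Q t₀ u j ++ Denumerable.ofNat (List ℕ) (u j))
    · rw [stp_succ_pos hQ]
      exact ih.trans (List.prefix_append _ _)
    · rw [stp_succ_neg hQ]
      exact ih

theorem IF_stp {N : Set ZFSet.{0}} [Mdl N] (hQ : In N Q) {T : Type w} [Cd N T] {v : T → ℕ → ℕ}
    (hv : IF N (fun y : T × ℕ => v y.1 y.2)) {n : T → ℕ} (hn : IF N n) :
    IF N (fun y : T => stp Q t₀ (v y) (n y)) := by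
  classical
  have h1 : IF N (fun z : T × ℕ × Fs => z.2.2 ++ Denumerable.ofNat (List ℕ) (v z.1 z.2.1)) := by
    refine IF.append (IF.comp IF.snd IF.snd) ?_
    have h2 : IF N (fun z : T × ℕ × Fs => v z.1 z.2.1) :=
      IF.comp (g := fun y : T × ℕ => v y.1 y.2) hv (IF.fst.pair (IF.comp IF.fst IF.snd))
    exact IF.comp (g := fun k : ℕ => Denumerable.ofNat (List ℕ) k)
      (IF.prim (Primrec.ofNat (List ℕ))) h2
  have h3 : IF N (fun z : T × ℕ × Fs =>
      if Q (z.2.2 ++ Denumerable.ofNat (List ℕ) (v z.1 z.2.1)) then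
        z.2.2 ++ Denumerable.ofNat (List ℕ) (v z.1 z.2.1) else z.2.2) :=
    IF.ite (hQ.comp h1) h1 (IF.comp IF.snd IF.snd)
  have h4 := IF.natRec (M := N) (S := T) (T := Fs) (a := fun _ => t₀) (IF.const t₀) h3
  have h5 := IF.comp h4 ((IF.id (T := T)).pair hn)
  refine h5.congr fun y => ?_
  show stp Q t₀ (v y) (n y) = _
  unfold stp
  simp only

end stp

theorem branch {N N' : Set ZFSet.{0}} [Mdl N] [Mdl N'] (hN : N ⊆ N') {Q : Fs → Prop}
    (hQ : In N Q) {t₀ : Fs} (h0 : Q t₀)
    (hlen : ∀ t, Q t → ∃ t', t <+: t' ∧ Q t' ∧ t.length < t'.length) {e : ℕ → ℕ}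
    (he : Coh N' e) :
    ∃ r ∈ Reals (cex N e), Pre r t₀ ∧ ∀ D : Fs → Prop, In N' D →
      (∀ t, Q t → ∃ t', t <+: t' ∧ Q t' ∧ D t') → ∃ t, Q t ∧ D t ∧ Pre r t := by
  classical
  have heN : Coh N e := he.mono hN
  haveI hM : Mdl (cex N e) := mdl_cex heN
  have hQ' : In N' Q := In.lift hN hQ
  have hlen' : ∀ (n : ℕ) (t : Fs), Q t → ∃ t', t <+: t' ∧ Q t' ∧ n < t'.length := by
    intro n
    induction n with
    | zero =>
      intro t ht
      obtain ⟨t', h1, h2, h3⟩ := hlen t ht
      exact ⟨t', h1, h2, by omega⟩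
    | succ n ih =>
      intro t ht
      obtain ⟨t', h1, h2, h3⟩ := ih t ht
      obtain ⟨t'', h4, h5, h6⟩ := hlen t' h2
      exact ⟨t'', h1.trans h4, h5, by omega⟩
  have key : ∀ D : Fs → Prop, In N' D →
      (∀ t, Q t → ∃ t', t <+: t' ∧ Q t' ∧ D t') → ∃ j, D (stp Q t₀ e j) := by
    intro D hD hd
    have hin : In N' (fun σ : Fs => D (stp Q t₀ (fun i => σ.getD i 0) σ.length)) := by
      refine hD.comp ?_
      exact IF_stp (T := Fs) (v := fun σ i => σ.getD i 0) (n := fun σ => σ.length) hQ'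
        (IF.getD IF.fst IF.snd) (IF.length IF.id)
    obtain ⟨σ, h1, h2⟩ := he (ISet.mk hin) (by
      intro σ
      obtain ⟨t', h3, h4, h5⟩ := hd (stp Q t₀ (fun i => σ.getD i 0) σ.length) (stp_Q h0 _)
      obtain ⟨w, hw⟩ := h3
      refine ⟨σ ++ [Encodable.encode w], List.prefix_append _ _, ?_⟩
      show D (stp Q t₀ (fun i => (σ ++ [Encodable.encode w]).getD i 0)
        (σ ++ [Encodable.encode w]).length)
      rw [List.length_append, List.length_singleton]
      have h6 : stp Q t₀ (fun i => (σ ++ [Encodable.encode w]).getD i 0) σ.length =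
          stp Q t₀ (fun i => σ.getD i 0) σ.length :=
        stp_congr _ fun i hi => List.getD_append _ _ _ _ hi
      have h7 : (σ ++ [Encodable.encode w]).getD σ.length 0 = Encodable.encode w := by
        simp [List.getD_eq_getElem?_getD]
      have h8 : Q (stp Q t₀ (fun i => (σ ++ [Encodable.encode w]).getD i 0) σ.length ++
          Denumerable.ofNat (List ℕ) ((σ ++ [Encodable.encode w]).getD σ.length 0)) := by
        rw [h6, h7, Denumerable.ofNat_encode, hw]
        exact h4
      rw [stp_succ_pos h8, h6, h7, Denumerable.ofNat_encode, hw]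
      exact h5)
    refine ⟨σ.length, ?_⟩
    have h3 : stp Q t₀ e σ.length = stp Q t₀ (fun i => σ.getD i 0) σ.length :=
      stp_congr _ fun i hi => (pre_getD.1 h2 i hi).symm
    rw [h3]
    exact h1
  have hunb : ∀ n : ℕ, ∃ j, n < (stp Q t₀ e j).length := by
    intro n
    exact key (fun t => n < t.length) (In.lt (IF.const n) (IF.length IF.id))
      fun t ht => hlen' n t ht
  choose J hJ using hunb
  have hval : ∀ n j, n < (stp Q t₀ e j).length →
      (stp Q t₀ e (J n)).getD n 0 = (stp Q t₀ e j).getD n 0 := by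
    intro n j hj
    rcases le_total (J n) j with h | h
    · obtain ⟨w, hw⟩ := stp_mono (Q := Q) (t₀ := t₀) (u := e) h
      rw [← hw, List.getD_append _ _ _ _ (hJ n)]
    · obtain ⟨w, hw⟩ := stp_mono (Q := Q) (t₀ := t₀) (u := e) h
      rw [← hw, List.getD_append _ _ _ _ hj]
  have hpre : ∀ j, Pre (fun n => (stp Q t₀ e (J n)).getD n 0) (stp Q t₀ e j) := fun j =>
    pre_getD.2 fun i hi => (hval i j hi).symm
  refine ⟨fun n => (stp Q t₀ e (J n)).getD n 0, ?_, hpre 0, ?_⟩
  · rw [mem_reals]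
    have heR : IF (cex N e) e := mem_reals.1 (mem_cex heN)
    have hQe : In (cex N e) Q := In.lift (sub_cex heN) hQ
    have h1 : IF (cex N e) (fun y : (ℕ × ℕ) × ℕ => stp Q t₀ e y.2) :=
      IF_stp (T := (ℕ × ℕ) × ℕ) (v := fun _ i => e i) (n := fun y => y.2) hQe
        (IF.comp heR IF.snd) IF.snd
    have h2 : In (cex N e) (fun y : ℕ × ℕ => ∃ j : ℕ, y.1 < (stp Q t₀ e j).length ∧
        (stp Q t₀ e j).getD y.1 0 = y.2) := by
      refine In.ex (P := fun (y : ℕ × ℕ) (j : ℕ) => y.1 < (stp Q t₀ e j).length ∧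
        (stp Q t₀ e j).getD y.1 0 = y.2) (In.and ?_ ?_)
      · exact In.lt (IF.comp IF.fst IF.fst) (IF.length h1)
      · exact In.eq (IF.getD h1 (IF.comp IF.fst IF.fst)) (IF.comp IF.snd IF.fst)
    refine IF.of_in (h2.congr fun y => ?_)
    constructor
    · intro h
      exact ⟨J y.1, hJ y.1, h⟩
    · rintro ⟨j, h3, h4⟩
      rw [hval y.1 j h3]
      exact h4
  · intro D hD hd
    obtain ⟨j, hj⟩ := key D hD hd
    exact ⟨_, stp_Q h0 j, hj, hpre j⟩

end Pool.Agent.H.MP_20495c_lc
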