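import Pool.Agent.H.MP_20495c_lc.Om

/-!
# Block Co, part 1: Cohen reals over a model
-/

set_option autoImplicit false
set_option linter.unusedSectionVars false

namespace Pool.Agent.H.MP_20495c_lc

open Pool.Agent.H.MP_07d118_lc Pool.Agent.H.MP_a163f2_lc

universe u v w x

/-- `F` is a name over `A` (for Cohen forcing) of the real `x`, the generic real being `r`. -/
def Nam {A : Set ZFSet.{0}} [Mdl A] (F : ISet A (Fs × ℕ × ℕ)) (r x : ℕ → ℕ) : Prop :=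
  ∀ n k, x n = k ↔ ∃ s, Pre r s ∧ (s, n, k) ∈ F

section

variable {A : Set ZFSet.{0}} [Mdl A]

/-- Cohen forcing -/
theorem po_coh : Po A (Set.univ : Set Fs) (fun s t : Fs => t <+: s) where
  inV := (In.const True).congr fun p => by simp
  inle := (In.ipre IF.snd IF.fst).congr fun y => by simp
  refl := fun p _ => List.prefix_rfl
  trans := fun p _ q _ r _ h1 h2 => h2.trans h1

theorem coh_iff {r : ℕ → ℕ} : Coh A r ↔ Gt A Set.univ (fun s t : Fs => t <+: s) (CF r) := by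
  constructor
  · intro h
    refine ⟨fun p _ => Set.mem_univ p, ⟨[], ?_⟩, ?_, ?_, ?_⟩
    · show Pre r []
      rfl
    · intro p hp q _ hq
      exact Pre.of_prefix (m' := p) hp hq
    · intro p hp q hq
      rcases Pre.comparable (x := r) hp hq with h1 | h1
      · exact ⟨q, hq, h1, List.prefix_rfl⟩
      · exact ⟨p, hp, List.prefix_rfl, h1⟩
    · intro D hD
      obtain ⟨t, h1, h2⟩ := h D (fun s => by
        obtain ⟨q, -, h1, h2⟩ := hD s (Set.mem_univ s)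
        exact ⟨q, h1, h2⟩)
      exact ⟨t, h2, h1⟩
  · intro h D hD
    obtain ⟨p, h1, h2⟩ := h.meets D (fun s _ => by
      obtain ⟨t, h1, h2⟩ := hD s
      exact ⟨t, Set.mem_univ t, h1, h2⟩)
    exact ⟨p, h2, h1⟩

/-- dense below a condition -/
theorem Coh.below {r : ℕ → ℕ} (h : Coh A r) {D : Fs → Prop} (hD : In A D) {s : Fs} (hs : Pre r s)
    (hd : ∀ t : Fs, s <+: t → ∃ t' : Fs, t <+: t' ∧ D t') : ∃ t : Fs, D t ∧ Pre r t ∧ s <+: t := by
  obtain ⟨t, ht, hrt⟩ := h (ISet.mk (P := fun t : Fs => (D t ∧ s <+: t) ∨ (¬ s <+: t ∧ ¬ t <+: s))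
    ((hD.and (In.ipre (IF.const s) IF.id)).or ((In.ipre (IF.const s) IF.id).not.and
      (In.ipre IF.id (IF.const s)).not))) (by
    intro u
    by_cases h1 : s <+: u
    · obtain ⟨t', h2, h3⟩ := hd u h1
      exact ⟨t', h2, Or.inl ⟨h3, h1.trans h2⟩⟩
    · by_cases h2 : u <+: s
      · obtain ⟨t', h3, h4⟩ := hd s List.prefix_rfl
        exact ⟨t', h2.trans h3, Or.inl ⟨h4, h3⟩⟩
      · exact ⟨u, List.prefix_rfl, Or.inr ⟨h1, h2⟩⟩)
  rcases ht with ⟨h1, h2⟩ | ⟨h1, h2⟩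
  · exact ⟨t, h1, hrt, h2⟩
  · rcases Pre.comparable hs hrt with h3 | h3
    · exact absurd h3 h1
    · exact absurd h3 h2

theorem exists_coh (A : Set ZFSet.{0}) [Mdl A] (s : Fs) : ∃ r, Coh A r ∧ Pre r s := by
  obtain ⟨G, hG, hs⟩ := exists_gt (S := A) po_coh (Set.mem_univ s)
  have hlong : ∀ n : ℕ, ∃ t ∈ G, n < t.length := by
    intro n
    obtain ⟨p, h1, h2⟩ := hG.meets (ISet.mk (P := fun t : Fs => n < t.length)
      (In.lt (IF.const n) (IF.length IF.id))) (by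
      intro p _
      refine ⟨p ++ List.replicate (n + 1) 0, Set.mem_univ _, List.prefix_append _ _, ?_⟩
      show n < (p ++ List.replicate (n + 1) 0).length
      simp
      omega)
    exact ⟨p, h1, h2⟩
  choose t ht hl using hlong
  have hcmp : ∀ p ∈ G, ∀ q ∈ G, p <+: q ∨ q <+: p := by
    intro p hp q hq
    obtain ⟨r, -, h1, h2⟩ := hG.dir p hp q hq
    exact List.prefix_or_prefix_of_prefix h1 h2
  have hval : ∀ p ∈ G, ∀ n, n < p.length → p.getD n 0 = (t n).getD n 0 := by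
    intro p hp n hn
    rcases hcmp p hp (t n) (ht n) with h | h
    · obtain ⟨u, hu⟩ := h
      rw [← hu, List.getD_append _ _ _ _ hn]
    · obtain ⟨u, hu⟩ := h
      rw [← hu, List.getD_append _ _ _ _ (hl n)]
  have hpre : ∀ p ∈ G, Pre (fun n => (t n).getD n 0) p := by
    intro p hp
    rw [pre_getD]
    intro i hi
    exact hval p hp i hi
  refine ⟨fun n => (t n).getD n 0, ?_, hpre s hs⟩
  intro D hD
  obtain ⟨p, h1, h2⟩ := hG.meets D (fun q _ => by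
    obtain ⟨q', h1, h2⟩ := hD q
    exact ⟨q', Set.mem_univ _, h1, h2⟩)
  exact ⟨p, h2, hpre p h1⟩

theorem Coh.mono {B : Set ZFSet.{0}} [Mdl B] (h : A ⊆ B) {r : ℕ → ℕ} (hr : Coh B r) : Coh A r := by
  intro D hD
  exact hr (ISet.mk (P := fun t => t ∈ D) (In.lift h D.in_mem)) hD

theorem mdl_cex {r : ℕ → ℕ} (h : Coh A r) : Mdl (cex A r) := mdl_ext po_coh (coh_iff.1 h)

theorem sub_cex {r : ℕ → ℕ} (h : Coh A r) : A ⊆ cex A r := sub_ext po_coh (coh_iff.1 h)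

/-- internal sets of the Cohen extension -/
theorem in_cex_iff {r : ℕ → ℕ} (h : Coh A r) [Mdl (cex A r)] {T : Type w} [Cd A T]
    [Cd (cex A r) T] [Cx A (cex A r) T] {B : T → Prop} :
    In (cex A r) B ↔ ∃ R : ISet A (T × Fs), ∀ t, B t ↔ ∃ s, Pre r s ∧ (t, s) ∈ R := by
  unfold cex at *
  exact in_ext_iff (S := A) po_coh (coh_iff.1 h)

theorem reals_cex {r : ℕ → ℕ} (h : Coh A r) {x : ℕ → ℕ} :
    x ∈ Reals (cex A r) ↔ ∃ F : ISet A (Fs × ℕ × ℕ), Nam F r x :=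
  reals_ext_iff (S := A) po_coh (coh_iff.1 h)

theorem mem_cex {r : ℕ → ℕ} (h : Coh A r) : r ∈ Reals (cex A r) := by
  refine (reals_cex h).2 ⟨ISet.mk (P := fun y : Fs × ℕ × ℕ => y.2.1 < y.1.length ∧
    y.1.getD y.2.1 0 = y.2.2) ((In.lt (IF.fst.comp IF.snd) (IF.length IF.fst)).and
      (In.eq (IF.getD IF.fst (IF.fst.comp IF.snd)) (IF.snd.comp IF.snd))), fun n k => ?_⟩
  constructor
  · rintro rfl
    refine ⟨ini r (n + 1), pre_ini r _, ?_, ?_⟩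
    · show n < (ini r (n + 1)).length
      simp [ini]
    · exact pre_getD.1 (pre_ini r (n + 1)) n (by simp [ini])
  · rintro ⟨s, hs, h1, h2⟩
    exact (pre_getD.1 hs n h1).symm.trans h2

theorem cex_min {r : ℕ → ℕ} (h : Coh A r) {N : Set ZFSet.{0}} [Mdl N] (h1 : A ⊆ N)
    (h2 : r ∈ Reals N) : cex A r ⊆ N := by
  refine ext_min po_coh (coh_iff.1 h) h1 ?_
  have h3 : IF N r := mem_reals.1 h2
  exact In.pre (x := fun _ => r) (IF.comp h3 IF.snd) IF.id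

/-- internal sets of a type coded in the Cohen extension only through `A`: the code of `W` -/
theorem om1_cex {W : Type w} [LinearOrder W] [Cd A W] [Om1 A W] {r : ℕ → ℕ} (h : Coh A r)
    [Mdl (cex A r)] [Cd (cex A r) W] [Cx A (cex A r) W] : Om1 (cex A r) W := by
  unfold cex at *
  exact om1_ext (S := A) po_coh (wcc_of_countable po_coh ICt.fs) (coh_iff.1 h)

/-! ### The product lemma -/

/-- `H` is a filter and the pair `H, e` is generic over `A` for the product of `V` with Cohen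
forcing. -/
structure PG (A : Set ZFSet.{0}) [Mdl A] {P : Type v} [Cd A P] (V : Set P) (le : P → P → Prop)
    (H : Set P) (e : ℕ → ℕ) : Prop where
  sub : ∀ p ∈ H, p ∈ V
  ne : H.Nonempty
  up : ∀ p ∈ H, ∀ q ∈ V, le p q → q ∈ H
  dir : ∀ p ∈ H, ∀ q ∈ H, ∃ r ∈ H, le r p ∧ le r q
  meets : ∀ D : ISet A (P × Fs), (∀ p ∈ V, ∀ s : Fs, ∃ q ∈ V, ∃ t : Fs, le q p ∧ s <+: t ∧
    (q, t) ∈ D) → ∃ q ∈ H, ∃ t : Fs, Pre e t ∧ (q, t) ∈ D

section product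

variable {P : Type v} [Cd A P] {V : Set P} {le : P → P → Prop} {H : Set P} {e : ℕ → ℕ}

theorem PG.gt (h : PG A V le H e) : Gt A V le H where
  sub := h.sub
  ne := h.ne
  up := h.up
  dir := h.dir
  meets := by
    intro D hD
    obtain ⟨q, h1, t, -, h3⟩ := h.meets (ISet.mk (P := fun y : P × Fs => y.1 ∈ D)
      (D.in_mem.comp IF.fst)) (by
        intro p hp s
        obtain ⟨q, h1, h2, h3⟩ := hD p hp
        exact ⟨q, h1, s, h2, List.prefix_rfl, h3⟩)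
    exact ⟨q, h1, h3⟩

theorem PG.coh (h : PG A V le H e) (hP : Po A V le) : Coh A e := by
  intro D hD
  obtain ⟨q, -, t, h2, h3⟩ := h.meets (ISet.mk (P := fun y : P × Fs => y.2 ∈ D)
    (D.in_mem.comp IF.snd)) (by
      intro p hp s
      obtain ⟨t, h1, h2⟩ := hD s
      exact ⟨p, hp, t, hP.refl p hp, h1, h2⟩)
  exact ⟨t, h3, h2⟩

/-- from a generic filter and a Cohen real over the extension to the product -/
theorem pg_of_coh_ext (hP : Po A V le) (hH : Gt A V le H) [Mdl (ext A H)]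
    (he : Coh (ext A H) e) : PG A V le H e where
  sub := hH.sub
  ne := hH.ne
  up := hH.up
  dir := hH.dir
  meets := by
    intro D hD
    have h1 : In (ext A H) (fun t : Fs => ∃ q ∈ H, (q, t) ∈ D) :=
      (in_ext_iff hP hH).2 ⟨ISet.mk (P := fun y : Fs × P => (y.2, y.1) ∈ D)
        (D.in_mem.comp (IF.snd.pair IF.fst)), fun t => Iff.rfl⟩
    obtain ⟨t, ⟨q, h2, h3⟩, h4⟩ := he (ISet.mk h1) (by
      intro s
      obtain ⟨q, h2, t, h3, h4⟩ := hH.meets (ISet.mk (P := fun q : P => ∃ t : Fs, s <+: t ∧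
        (q, t) ∈ D) (In.ex (P := fun (q : P) (t : Fs) => s <+: t ∧ (q, t) ∈ D)
          ((In.ipre (IF.const s) IF.snd).and D.in_mem))) (by
        intro p hp
        obtain ⟨q, h2, t, h3, h4, h5⟩ := hD p hp s
        exact ⟨q, h2, h3, t, h4, h5⟩)
      exact ⟨t, h3, q, h2, h4⟩)
    exact ⟨q, h2, t, h4, h3⟩

/-- from a Cohen real and a generic filter over the Cohen extension to the product -/
theorem pg_of_gt_cex (hP : Po A V le) (he : Coh A e) [Mdl (cex A e)] [Cd (cex A e) P]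
    [Cx A (cex A e) P] (hH : Gt (cex A e) V le H) : PG A V le H e where
  sub := hH.sub
  ne := hH.ne
  up := hH.up
  dir := hH.dir
  meets := by
    intro D hD
    have h1 : In (cex A e) (fun q : P => ∃ t, Pre e t ∧ (q, t) ∈ D) :=
      (in_cex_iff he).2 ⟨D, fun t => Iff.rfl⟩
    obtain ⟨q, h2, t, h3, h4⟩ := hH.meets (ISet.mk h1) (by
      intro p hp
      obtain ⟨t, ⟨q, h2, h3, h4⟩, h5⟩ := he (ISet.mk (P := fun t : Fs => ∃ q, q ∈ V ∧
        (q ∈ V ∧ p ∈ V ∧ le q p) ∧ (q, t) ∈ D)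
        (In.ex (P := fun (t : Fs) (q : P) => q ∈ V ∧ (q ∈ V ∧ p ∈ V ∧ le q p) ∧ (q, t) ∈ D)
          ((hP.inV.comp IF.snd).and ((hP.inle.comp (IF.snd.pair (IF.const p))).and
            (D.in_mem.comp (IF.snd.pair IF.fst)))))) (by
          intro s
          obtain ⟨q, h2, t, h3, h4, h5⟩ := hD p hp s
          exact ⟨t, h4, q, h2, ⟨h2, hp, h3⟩, h5⟩)
      exact ⟨q, h2, h3.2.2, t, h5, h4⟩)
    exact ⟨q, h2, t, h3, h4⟩

/-- from the product to the Cohen real over the extension -/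
theorem PG.coh_ext (h : PG A V le H e) (hP : Po A V le) [Mdl (ext A H)] : Coh (ext A H) e := by
  intro D hD
  have hH := h.gt
  obtain ⟨R, hR⟩ := (in_ext_iff hP hH (A := fun t : Fs => t ∈ D)).1 D.in_mem
  -- the name gives a dense set below `p₀`
  have hin : In A (fun y : (P × Fs) => ∃ t : Fs, y.2 <+: t ∧ ∃ q : P, (y.1 ∈ V ∧ q ∈ V ∧ le y.1 q) ∧
      (t, q) ∈ R) :=
    In.ex (P := fun (y : P × Fs) (t : Fs) => y.2 <+: t ∧ ∃ q : P, (y.1 ∈ V ∧ q ∈ V ∧ le y.1 q) ∧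
      (t, q) ∈ R) ((In.ipre (IF.snd.comp IF.fst) IF.snd).and
        (In.ex (P := fun (z : (P × Fs) × Fs) (q : P) => (z.1.1 ∈ V ∧ q ∈ V ∧ le z.1.1 q) ∧
          (z.2, q) ∈ R) ((hP.inle.comp ((IF.fst.comp (IF.fst.comp IF.fst)).pair IF.snd)).and
            (R.in_mem.comp ((IF.snd.comp IF.fst).pair IF.snd)))))
  obtain ⟨p₀, hp₀, hE⟩ := hH.meets (ISet.mk (P := fun p : P =>
      (∀ s : Fs, ∀ p' : P, (p' ∈ V ∧ p ∈ V ∧ le p' p) → ∃ p'' : P, (p'' ∈ V ∧ p' ∈ V ∧ le p'' p') ∧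
        ∃ t : Fs, s <+: t ∧ ∃ q : P, (p'' ∈ V ∧ q ∈ V ∧ le p'' q) ∧ (t, q) ∈ R) ∨
      (∃ s : Fs, ∀ p' : P, (p' ∈ V ∧ p ∈ V ∧ le p' p) →
        ¬ ∃ t : Fs, s <+: t ∧ ∃ q : P, (p' ∈ V ∧ q ∈ V ∧ le p' q) ∧ (t, q) ∈ R))
    (In.or
      (In.all (P := fun (p : P) (s : Fs) => ∀ p' : P, (p' ∈ V ∧ p ∈ V ∧ le p' p) →
        ∃ p'' : P, (p'' ∈ V ∧ p' ∈ V ∧ le p'' p') ∧
          ∃ t : Fs, s <+: t ∧ ∃ q : P, (p'' ∈ V ∧ q ∈ V ∧ le p'' q) ∧ (t, q) ∈ R)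
        (In.all (P := fun (y : P × Fs) (p' : P) => (p' ∈ V ∧ y.1 ∈ V ∧ le p' y.1) →
          ∃ p'' : P, (p'' ∈ V ∧ p' ∈ V ∧ le p'' p') ∧
            ∃ t : Fs, y.2 <+: t ∧ ∃ q : P, (p'' ∈ V ∧ q ∈ V ∧ le p'' q) ∧ (t, q) ∈ R)
          ((hP.inle.comp (IF.snd.pair (IF.fst.comp IF.fst))).imp
            (In.ex (P := fun (z : (P × Fs) × P) (p'' : P) => (p'' ∈ V ∧ z.2 ∈ V ∧ le p'' z.2) ∧
              ∃ t : Fs, z.1.2 <+: t ∧ ∃ q : P, (p'' ∈ V ∧ q ∈ V ∧ le p'' q) ∧ (t, q) ∈ R)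
              ((hP.inle.comp (IF.snd.pair (IF.snd.comp IF.fst))).and
                (hin.comp (IF.snd.pair (IF.snd.comp (IF.fst.comp IF.fst)))))))))
      (In.ex (P := fun (p : P) (s : Fs) => ∀ p' : P, (p' ∈ V ∧ p ∈ V ∧ le p' p) →
        ¬ ∃ t : Fs, s <+: t ∧ ∃ q : P, (p' ∈ V ∧ q ∈ V ∧ le p' q) ∧ (t, q) ∈ R)
        (In.all (P := fun (y : P × Fs) (p' : P) => (p' ∈ V ∧ y.1 ∈ V ∧ le p' y.1) →
          ¬ ∃ t : Fs, y.2 <+: t ∧ ∃ q : P, (p' ∈ V ∧ q ∈ V ∧ le p' q) ∧ (t, q) ∈ R)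
          ((hP.inle.comp (IF.snd.pair (IF.fst.comp IF.fst))).imp
            (hin.comp (IF.snd.pair (IF.snd.comp IF.fst))).not))))) (by
      intro p hp
      by_cases h1 : ∃ s : Fs, ∃ p' ∈ V, le p' p ∧ ∀ p'' ∈ V, le p'' p' →
        ¬ ∃ t : Fs, s <+: t ∧ ∃ q : P, (p'' ∈ V ∧ q ∈ V ∧ le p'' q) ∧ (t, q) ∈ R
      · obtain ⟨s, p', hp', h2, h3⟩ := h1
        exact ⟨p', hp', h2, Or.inr ⟨s, fun p'' h4 => h3 p'' h4.1 h4.2.2⟩⟩
      · refine ⟨p, hp, hP.refl p hp, Or.inl fun s p' hp' => ?_⟩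
        by_contra h2
        refine h1 ⟨s, p', hp'.1, hp'.2.2, fun p'' hp'' h3 h4 => h2 ⟨p'', ⟨hp'', hp'.1, h3⟩, h4⟩⟩)
  rcases hE with hE | ⟨s, hs⟩
  · obtain ⟨p, hp, t, ht, h1⟩ := h.meets (ISet.mk (P := fun y : P × Fs =>
      (∃ q : P, (y.1 ∈ V ∧ q ∈ V ∧ le y.1 q) ∧ (y.2, q) ∈ R) ∨
        ∀ r : P, (r ∈ V ∧ y.1 ∈ V ∧ le r y.1) → ¬ (r ∈ V ∧ p₀ ∈ V ∧ le r p₀))
      (In.or (In.ex (P := fun (y : P × Fs) (q : P) => (y.1 ∈ V ∧ q ∈ V ∧ le y.1 q) ∧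
          (y.2, q) ∈ R) ((hP.inle.comp ((IF.fst.comp IF.fst).pair IF.snd)).and
            (R.in_mem.comp ((IF.snd.comp IF.fst).pair IF.snd))))
        (In.all (P := fun (y : P × Fs) (r : P) => (r ∈ V ∧ y.1 ∈ V ∧ le r y.1) →
          ¬ (r ∈ V ∧ p₀ ∈ V ∧ le r p₀))
          ((hP.inle.comp (IF.snd.pair (IF.fst.comp IF.fst))).imp
            (hP.inle.comp (IF.snd.pair (IF.const p₀))).not)))) (by
      intro p hp s
      by_cases h1 : ∃ r ∈ V, le r p ∧ le r p₀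
      · obtain ⟨r, hr, h2, h3⟩ := h1
        obtain ⟨p'', h4, t, h5, q, h6, h7⟩ := hE s r ⟨hr, hH.sub _ hp₀, h3⟩
        exact ⟨p'', h4.1, t, hP.trans _ h4.1 _ hr _ hp h4.2.2 h2, h5, Or.inl ⟨q, h6, h7⟩⟩
      · exact ⟨p, hp, s, hP.refl p hp, List.prefix_rfl, Or.inr fun r h2 h3 =>
          h1 ⟨r, h2.1, h2.2.2, h3.2.2⟩⟩)
    rcases h1 with ⟨q, h2, h3⟩ | h1
    · exact ⟨t, (hR t).2 ⟨q, h.up p hp q h2.2.1 h2.2.2, h3⟩, ht⟩
    · obtain ⟨r, hr, h2, h3⟩ := h.dir p hp p₀ hp₀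
      exact absurd ⟨h.sub r hr, h.sub _ hp₀, h3⟩ (h1 r ⟨h.sub r hr, h.sub p hp, h2⟩)
  · obtain ⟨t, h1, h2⟩ := hD s
    obtain ⟨q, hq, h3⟩ := (hR t).1 h2
    obtain ⟨r, hr, h4, h5⟩ := h.dir p₀ hp₀ q hq
    exact absurd ⟨t, h1, q, ⟨h.sub r hr, h.sub q hq, h5⟩, h3⟩
      (hs r ⟨h.sub r hr, h.sub _ hp₀, h4⟩)

/-- from the product to the generic filter over the Cohen extension -/
theorem PG.gt_cex (h : PG A V le H e) (hP : Po A V le) [Mdl (cex A e)] [Cd (cex A e) P]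
    [Cx A (cex A e) P] : Gt (cex A e) V le H where
  sub := h.sub
  ne := h.ne
  up := h.up
  dir := h.dir
  meets := by
    intro D hD
    have he := h.coh hP
    obtain ⟨R, hR⟩ := (in_cex_iff he (B := fun p : P => p ∈ D)).1 D.in_mem
    have hin : In A (fun y : P × Fs => ∃ q : P, (q ∈ V ∧ y.1 ∈ V ∧ le q y.1) ∧
        ∃ u : Fs, u <+: y.2 ∧ (q, u) ∈ R) :=
      In.ex (P := fun (y : P × Fs) (q : P) => (q ∈ V ∧ y.1 ∈ V ∧ le q y.1) ∧
        ∃ u : Fs, u <+: y.2 ∧ (q, u) ∈ R)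
        ((hP.inle.comp (IF.snd.pair (IF.fst.comp IF.fst))).and
          (In.ex (P := fun (z : (P × Fs) × P) (u : Fs) => u <+: z.1.2 ∧ (z.2, u) ∈ R)
            ((In.ipre IF.snd (IF.snd.comp (IF.fst.comp IF.fst))).and
              (R.in_mem.comp ((IF.snd.comp IF.fst).pair IF.snd)))))
    obtain ⟨s₀, hE, hs₀⟩ := he (ISet.mk (P := fun s : Fs =>
        (∀ p : P, p ∈ V → ∀ s' : Fs, s <+: s' → ∃ s'' : Fs, s' <+: s'' ∧
          ∃ q : P, (q ∈ V ∧ p ∈ V ∧ le q p) ∧ ∃ u : Fs, u <+: s'' ∧ (q, u) ∈ R) ∨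
        (∃ p : P, p ∈ V ∧ ∀ s' : Fs, s <+: s' →
          ¬ ∃ q : P, (q ∈ V ∧ p ∈ V ∧ le q p) ∧ ∃ u : Fs, u <+: s' ∧ (q, u) ∈ R))
      (In.or
        (In.all (P := fun (s : Fs) (p : P) => p ∈ V → ∀ s' : Fs, s <+: s' → ∃ s'' : Fs, s' <+: s'' ∧
          ∃ q : P, (q ∈ V ∧ p ∈ V ∧ le q p) ∧ ∃ u : Fs, u <+: s'' ∧ (q, u) ∈ R)
          ((hP.inV.comp IF.snd).imp
            (In.all (P := fun (y : Fs × P) (s' : Fs) => y.1 <+: s' → ∃ s'' : Fs, s' <+: s'' ∧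
              ∃ q : P, (q ∈ V ∧ y.2 ∈ V ∧ le q y.2) ∧ ∃ u : Fs, u <+: s'' ∧ (q, u) ∈ R)
              ((In.ipre (IF.fst.comp IF.fst) IF.snd).imp
                (In.ex (P := fun (z : (Fs × P) × Fs) (s'' : Fs) => z.2 <+: s'' ∧
                  ∃ q : P, (q ∈ V ∧ z.1.2 ∈ V ∧ le q z.1.2) ∧ ∃ u : Fs, u <+: s'' ∧ (q, u) ∈ R)
                  ((In.ipre (IF.snd.comp IF.fst) IF.snd).and
                    (hin.comp ((IF.snd.comp (IF.fst.comp IF.fst)).pair IF.snd))))))))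
        (In.ex (P := fun (s : Fs) (p : P) => p ∈ V ∧ ∀ s' : Fs, s <+: s' →
          ¬ ∃ q : P, (q ∈ V ∧ p ∈ V ∧ le q p) ∧ ∃ u : Fs, u <+: s' ∧ (q, u) ∈ R)
          ((hP.inV.comp IF.snd).and
            (In.all (P := fun (y : Fs × P) (s' : Fs) => y.1 <+: s' →
              ¬ ∃ q : P, (q ∈ V ∧ y.2 ∈ V ∧ le q y.2) ∧ ∃ u : Fs, u <+: s' ∧ (q, u) ∈ R)
              ((In.ipre (IF.fst.comp IF.fst) IF.snd).imp
                (hin.comp ((IF.snd.comp IF.fst).pair IF.snd)).not)))))) (by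
      intro s
      by_cases h1 : ∃ p ∈ V, ∃ s' : Fs, s <+: s' ∧ ∀ s'' : Fs, s' <+: s'' →
          ¬ ∃ q : P, (q ∈ V ∧ p ∈ V ∧ le q p) ∧ ∃ u : Fs, u <+: s'' ∧ (q, u) ∈ R
      · obtain ⟨p, hp, s', h2, h3⟩ := h1
        exact ⟨s', h2, Or.inr ⟨p, hp, h3⟩⟩
      · refine ⟨s, List.prefix_rfl, Or.inl fun p hp s' hs' => ?_⟩
        by_contra h2
        exact h1 ⟨p, hp, s', hs', fun s'' h3 h4 => h2 ⟨s'', h3, h4⟩⟩)
    rcases hE with hE | ⟨p, hp, hs⟩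
    · obtain ⟨q, hq, t, ht, h1⟩ := h.meets (ISet.mk (P := fun y : P × Fs =>
        (∃ u : Fs, u <+: y.2 ∧ (y.1, u) ∈ R) ∨ (¬ s₀ <+: y.2 ∧ ¬ y.2 <+: s₀))
        ((In.ex (P := fun (y : P × Fs) (u : Fs) => u <+: y.2 ∧ (y.1, u) ∈ R)
          ((In.ipre IF.snd (IF.snd.comp IF.fst)).and
            (R.in_mem.comp ((IF.fst.comp IF.fst).pair IF.snd)))).or
          ((In.ipre (IF.const s₀) IF.snd).not.and (In.ipre IF.snd (IF.const s₀)).not))) (by
        intro p hp s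
        have key : ∀ s', s <+: s' → s₀ <+: s' → ∃ q ∈ V, ∃ t : Fs, le q p ∧ s <+: t ∧
            (∃ u : Fs, u <+: t ∧ (q, u) ∈ R) := by
          intro s' h1 h2
          obtain ⟨s'', h3, q, h4, h5⟩ := hE p hp s' h2
          exact ⟨q, h4.1, s'', h4.2.2, h1.trans h3, h5⟩
        by_cases h1 : s₀ <+: s
        · obtain ⟨q, h2, t, h3, h4, h5⟩ := key s List.prefix_rfl h1
          exact ⟨q, h2, t, h3, h4, Or.inl h5⟩
        · by_cases h2 : s <+: s₀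
          · obtain ⟨q, h2, t, h3, h4, h5⟩ := key s₀ h2 List.prefix_rfl
            exact ⟨q, h2, t, h3, h4, Or.inl h5⟩
          · exact ⟨p, hp, s, hP.refl p hp, List.prefix_rfl, Or.inr ⟨h1, h2⟩⟩)
      rcases h1 with ⟨u, h2, h3⟩ | ⟨h2, h3⟩
      · exact ⟨q, hq, (hR q).2 ⟨u, Pre.of_prefix ht h2, h3⟩⟩
      · rcases Pre.comparable hs₀ ht with h4 | h4
        · exact absurd h4 h2
        · exact absurd h4 h3
    · obtain ⟨q, h1, h2, h3⟩ := hD p hp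
      obtain ⟨u, h4, h5⟩ := (hR q).1 h3
      rcases Pre.comparable hs₀ h4 with h6 | h6
      · exact absurd ⟨q, ⟨h1, hp, h2⟩, u, List.prefix_rfl, h5⟩ (hs u h6)
      · exact absurd ⟨q, ⟨h1, hp, h2⟩, u, h6, h5⟩ (hs s₀ List.prefix_rfl)

end product

/-- product of two Cohen forcings -/
theorem coh2_iff_pg {r e : ℕ → ℕ} :
    Coh2 A r e ↔ PG A Set.univ (fun s t : Fs => t <+: s) (CF r) e := by
  constructor
  · intro h
    have hr : Coh A r := by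
      intro D hD
      obtain ⟨t, t', h1, h2, -⟩ := h (ISet.mk (P := fun y : Fs × Fs => y.1 ∈ D)
        (D.in_mem.comp IF.fst)) (by
          intro s s'
          obtain ⟨t, h1, h2⟩ := hD s
          exact ⟨t, s', h1, List.prefix_rfl, h2⟩)
      exact ⟨t, h1, h2⟩
    have h1 := coh_iff.1 hr
    refine ⟨h1.sub, h1.ne, h1.up, h1.dir, fun D hD => ?_⟩
    obtain ⟨t, t', h2, h3, h4⟩ := h D (by
      intro s s'
      obtain ⟨q, -, t, h2, h3, h4⟩ := hD s (Set.mem_univ s) s'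
      exact ⟨q, t, h2, h3, h4⟩)
    exact ⟨t, h3, t', h4, h2⟩
  · intro h D hD
    obtain ⟨q, h1, t, h2, h3⟩ := h.meets D (by
      intro p _ s
      obtain ⟨t, t', h1, h2, h3⟩ := hD p s
      exact ⟨t, Set.mem_univ t, t', h1, h2, h3⟩)
    exact ⟨q, t, h3, h1, h2⟩

/-- product of two Cohen forcings -/
theorem coh2_iff {r e : ℕ → ℕ} : Coh2 A r e ↔ Coh A r ∧ ∀ [Mdl (cex A r)], Coh (cex A r) e := by
  rw [coh2_iff_pg]
  constructor
  · intro h
    refine ⟨coh_iff.2 h.gt, ?_⟩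
    intro hm
    have hm' : Mdl (ext A (CF r)) := hm
    exact h.coh_ext po_coh
  · rintro ⟨h1, h2⟩
    have hm : Mdl (cex A r) := mdl_cex h1
    have hm' : Mdl (ext A (CF r)) := hm
    exact pg_of_coh_ext po_coh (coh_iff.1 h1) h2

theorem Coh2.symm {r e : ℕ → ℕ} (h : Coh2 A r e) : Coh2 A e r := by
  intro D hD
  obtain ⟨t, t', h1, h2, h3⟩ := h (ISet.mk (P := fun y : Fs × Fs => (y.2, y.1) ∈ D)
    (D.in_mem.comp (IF.snd.pair IF.fst))) (by
      intro s s'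
      obtain ⟨t, t', h1, h2, h3⟩ := hD s' s
      exact ⟨t', t, h2, h1, h3⟩)
  exact ⟨t', t, h1, h3, h2⟩

/-- a generic filter for a poset `V` and a Cohen real: the product lemma, first direction -/
theorem gt_of_coh_ext {P : Type v} [Cd A P] {V : Set P} {le : P → P → Prop} (hP : Po A V le)
    {H : Set P} (hH : Gt A V le H) [Mdl (ext A H)] {r : ℕ → ℕ} (hr : Coh (ext A H) r)
    [Mdl (cex A r)] [Cd (cex A r) P] [Cx A (cex A r) P] : Gt (cex A r) V le H :=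
  (pg_of_coh_ext hP hH hr).gt_cex hP

/-- the product lemma, second direction -/
theorem coh_ext_of_gt {P : Type v} [Cd A P] {V : Set P} {le : P → P → Prop} (hP : Po A V le)
    {H : Set P} {r : ℕ → ℕ} (hr : Coh A r) [Mdl (cex A r)] [Cd (cex A r) P] [Cx A (cex A r) P]
    (hH : Gt (cex A r) V le H) [Mdl (ext A H)] : Coh (ext A H) r :=
  (pg_of_gt_cex hP hr hH).coh_ext hP

theorem cex_ext_comm {P : Type v} [Cd A P] {V : Set P} {le : P → P → Prop} (hP : Po A V le)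
    {H : Set P} (hH : Gt A V le H) [Mdl (ext A H)] {r : ℕ → ℕ} (hr : Coh (ext A H) r)
    [Mdl (cex A r)] [Cd (cex A r) P] [Cx A (cex A r) P] : cex (ext A H) r = ext (cex A r) H := by
  have hrA : Coh A r := (pg_of_coh_ext hP hH hr).coh hP
  have hH' : Gt (cex A r) V le H := gt_of_coh_ext hP hH hr
  have hs1 : A ⊆ ext A H := sub_ext hP hH
  have hs2 : A ⊆ cex A r := sub_cex hrA
  have hP' : Po (cex A r) V le :=
    ⟨In.lift hs2 hP.inV, In.lift hs2 hP.inle, hP.refl, hP.trans⟩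
  have hm1 : Mdl (ext (cex A r) H) := mdl_ext hP' hH'
  have hm2 : Mdl (cex (ext A H) r) := mdl_cex hr
  have hs3 : cex A r ⊆ ext (cex A r) H := sub_ext hP' hH'
  have hs4 : ext A H ⊆ cex (ext A H) r := sub_cex hr
  apply Set.Subset.antisymm
  · refine cex_min hr ?_ (hs3 (mem_cex hrA))
    let _ : Cd (ext (cex A r) H) P := CdUp hs3 P
    have : Cx (cex A r) (ext (cex A r) H) P := cx_up hs3 P
    have : Cx A (ext (cex A r) H) P := cx_trans (S := A) (N := cex A r) inferInstance inferInstance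
    exact ext_min hP hH (hs2.trans hs3) (in_gen hP' hH')
  · have hs5 : A ⊆ cex (ext A H) r := hs1.trans hs4
    let _ : Cd (ext A H) P := CdUp hs1 P
    have : Cx A (ext A H) P := cx_up hs1 P
    let _ : Cd (cex (ext A H) r) P := CdUp hs4 P
    have : Cx (ext A H) (cex (ext A H) r) P := cx_up hs4 P
    have : Cx A (cex (ext A H) r) P := cx_trans (S := A) (N := ext A H) inferInstance inferInstance
    have : Cx (cex A r) (cex (ext A H) r) P := cx_of (S := A) inferInstance inferInstance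
    refine ext_min hP' hH' ?_ (In.lift hs4 (in_gen hP hH))
    exact cex_min hrA hs5 (mem_cex hr)

end

end Pool.Agent.H.MP_20495c_lc
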