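import Pool.Agent.H.MP_20495c_lc.Brn

/-!
# Block Co, part 2: absorption of a countable poset into a Cohen real
-/

set_option autoImplicit false
set_option linter.unusedSectionVars false

namespace Pool.Agent.H.MP_20495c_lc

open Pool.Agent.H.MP_07d118_lc Pool.Agent.H.MP_a163f2_lc

universe u v w x

section walk

variable {P : Type v}

open Classical in
/-- The condition reached from `p₀` by following the digits of `u`. -/
noncomputable def Co2_w (R : P → P → Prop) (a : ℕ → P) (p₀ : P) (u : ℕ → ℕ) (j : ℕ) : P :=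
  Nat.rec (motive := fun _ => P) p₀ (fun j p => if R (a (u j)) p then a (u j) else p) j

/-- The condition reached by following the finite sequence `s`. -/
noncomputable def Co2_q (R : P → P → Prop) (a : ℕ → P) (p₀ : P) (s : Fs) : P :=
  Co2_w R a p₀ (fun i => s.getD i 0) s.length

variable {R : P → P → Prop} {a : ℕ → P} {p₀ : P}

theorem Co2_w_pos {u : ℕ → ℕ} {j : ℕ} (h : R (a (u j)) (Co2_w R a p₀ u j)) :
    Co2_w R a p₀ u (j + 1) = a (u j) := if_pos h

theorem Co2_w_neg {u : ℕ → ℕ} {j : ℕ} (h : ¬ R (a (u j)) (Co2_w R a p₀ u j)) :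
    Co2_w R a p₀ u (j + 1) = Co2_w R a p₀ u j := if_neg h

theorem Co2_w_congr {u u' : ℕ → ℕ} (j : ℕ) (h : ∀ i < j, u i = u' i) :
    Co2_w R a p₀ u j = Co2_w R a p₀ u' j := by
  induction j with
  | zero => rfl
  | succ j ih =>
    have h1 := ih fun i hi => h i (by omega)
    have h2 := h j (by omega)
    by_cases hR : R (a (u j)) (Co2_w R a p₀ u j)
    · rw [Co2_w_pos hR]
      rw [h1, h2] at hR
      rw [Co2_w_pos hR, h2]
    · rw [Co2_w_neg hR]
      rw [h1, h2] at hR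
      rw [h1, Co2_w_neg hR]

theorem Co2_q_nil : Co2_q R a p₀ [] = p₀ := rfl

theorem Co2_q_snoc_w (s : Fs) (n : ℕ) : Co2_q R a p₀ (s ++ [n]) =
    Co2_w R a p₀ (fun i => (s ++ [n]).getD i 0) (s.length + 1) := by
  unfold Co2_q
  rw [List.length_append, List.length_singleton]

theorem Co2_q_old (s : Fs) (n : ℕ) : Co2_w R a p₀ (fun i => (s ++ [n]).getD i 0) s.length =
    Co2_q R a p₀ s := Co2_w_congr _ fun _ hi => List.getD_append _ _ _ _ hi

theorem Co2_q_dig (s : Fs) (n : ℕ) : (s ++ [n]).getD s.length 0 = n := by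
  simp [List.getD_eq_getElem?_getD]

theorem Co2_q_pos {s : Fs} {n : ℕ} (h : R (a n) (Co2_q R a p₀ s)) :
    Co2_q R a p₀ (s ++ [n]) = a n := by
  rw [Co2_q_snoc_w, Co2_w_pos, Co2_q_dig]
  rw [Co2_q_old, Co2_q_dig]
  exact h

theorem Co2_q_neg {s : Fs} {n : ℕ} (h : ¬ R (a n) (Co2_q R a p₀ s)) :
    Co2_q R a p₀ (s ++ [n]) = Co2_q R a p₀ s := by
  rw [Co2_q_snoc_w, Co2_w_neg, Co2_q_old]
  rw [Co2_q_old, Co2_q_dig]
  exact h

theorem Co2_q_mono (hr : ∀ s, R (Co2_q R a p₀ s) (Co2_q R a p₀ s))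
    (ht : ∀ p q r, R p q → R q r → R p r) {s t : Fs} (h : s <+: t) :
    R (Co2_q R a p₀ t) (Co2_q R a p₀ s) := by
  obtain ⟨w, rfl⟩ := h
  induction w using List.reverseRecOn with
  | nil =>
    rw [List.append_nil]
    exact hr s
  | append_singleton w n ih =>
    rw [← List.append_assoc]
    by_cases h : R (a n) (Co2_q R a p₀ (s ++ w))
    · rw [Co2_q_pos h]
      exact ht _ _ _ h ih
    · rw [Co2_q_neg h]
      exact ih

theorem IF_Co2_q {N : Set ZFSet.{0}} [Mdl N] [Cd N P] (hR : In N (fun y : P × P => R y.1 y.2))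
    (ha : IF N a) : IF N (Co2_q R a p₀) := by
  classical
  have h0 : IF N (fun z : Fs × ℕ × P => a (z.1.getD z.2.1 0)) :=
    IF.comp ha (IF.getD IF.fst (IF.comp IF.fst IF.snd))
  have h1 : IF N (fun z : Fs × ℕ × P => if R (a (z.1.getD z.2.1 0)) z.2.2 then
      a (z.1.getD z.2.1 0) else z.2.2) :=
    IF.ite (In.comp2 (P := R) hR h0 (IF.comp IF.snd IF.snd)) h0 (IF.comp IF.snd IF.snd)
  have h2 := IF.natRec (M := N) (S := Fs) (T := P) (a := fun _ => p₀) (IF.const p₀) h1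
  have h3 := IF.comp h2 ((IF.id (T := Fs)).pair (IF.length IF.id))
  refine h3.congr fun s => ?_
  unfold Co2_q Co2_w
  simp only

end walk

section

variable {A : Set ZFSet.{0}} [Mdl A] {P : Type v} [Cd A P] {V : Set P} {le : P → P → Prop}

/-- Absorption. `V` is a countable poset in `A`, `H` is generic for `V` over the larger model `B`
and `e` is Cohen over `B[H]`.  Then there is a real `r` in `A[H][e]`, Cohen generic over `B`, with
`A[H] ⊆ A[r]`.

Proof. Enumerate `V` by `a : ℕ → P` in `A`.  For `s : Fs` define `q s` in `V` by recursion: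
`q []` is a fixed element of `H`, `q (s ++ [n]) = a n` if `a n ≤ q s`, else `q s`.  Define `s_j`
(`j : ℕ`): `s_0 = []`, `s_(j+1) = s_j ++ u` if `q (s_j ++ u) ∈ H`, else `s_j`, where `u` is the
finite sequence with code `e j`.  The real `r` is the union of the `s_j`.  Genericity of `r` over
`B`, and that `H` is the filter generated by the `q s_j`: density arguments for the product of
`V` and Cohen forcing over `B`: given `(p, σ)`, extend `p` so that it decides all the tests along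
`σ`, and `p ≤ q s`, `s = s_|σ|`; then `p = a n`, and any `t` extending `s ++ [n]` can be
reached in the next step. -/
theorem absorb (hP : Po A V le) (hV : ICt A V) {B : Set ZFSet.{0}} [Mdl B] (hAB : A ⊆ B)
    [Cd B P] [Cx A B P] {H : Set P} (hH : Gt B V le H) [Mdl (ext A H)] [Mdl (ext B H)] {e : ℕ → ℕ}
    (he : Coh (ext B H) e) :
    ∃ r, Coh B r ∧ r ∈ Reals (cex (ext A H) e) ∧ ext A H ⊆ cex A r := by
  classical
  -- the poset in the two models
  have hPB : Po B V le := ⟨In.lift hAB hP.inV, In.lift hAB hP.inle, hP.refl, hP.trans⟩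
  have hHA : Gt A V le H := ⟨hH.sub, hH.ne, hH.up, hH.dir, fun D hD =>
    hH.meets (ISet.mk (In.lift hAB D.in_mem)) hD⟩
  have hA1 : A ⊆ ext A H := sub_ext hP hHA
  have hB1 : B ⊆ ext B H := sub_ext hPB hH
  letI cd1 : Cd (ext B H) P := CdUp hB1 P
  haveI cx1 : Cx B (ext B H) P := cx_up hB1 P
  haveI cx2 : Cx A (ext B H) P := cx_trans inferInstance cx1
  letI cd3 : Cd (ext A H) P := CdUp hA1 P
  haveI cx3 : Cx A (ext A H) P := cx_up hA1 P
  have hAB1 : ext A H ⊆ ext B H := ext_min hP hHA (hAB.trans hB1) (in_gen hPB hH)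
  -- enumeration of the poset
  obtain ⟨p₀, hp₀⟩ := hH.ne
  obtain ⟨a, ha, haV, hasur⟩ := ICt.enum hV hP.inV ⟨p₀, hH.sub p₀ hp₀⟩
  obtain ⟨R, hR⟩ : ∃ R : P → P → Prop, ∀ p q, R p q ↔ p ∈ V ∧ q ∈ V ∧ le p q :=
    ⟨fun p q => p ∈ V ∧ q ∈ V ∧ le p q, fun _ _ => Iff.rfl⟩
  have hRA : In A (fun y : P × P => R y.1 y.2) := hP.inle.congr fun y => hR y.1 y.2
  have hRtr : ∀ p q r, R p q → R q r → R p r := by
    intro p q r h1 h2
    rw [hR] at h1 h2 ⊢
    exact ⟨h1.1, h2.2.1, hP.trans p h1.1 q h1.2.1 r h2.2.1 h1.2.2 h2.2.2⟩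
  have hqV : ∀ s, Co2_q R a p₀ s ∈ V := by
    intro s
    induction s using List.reverseRecOn with
    | nil => exact hH.sub p₀ hp₀
    | append_singleton s n ih =>
      by_cases h : R (a n) (Co2_q R a p₀ s)
      · rw [Co2_q_pos h]
        exact haV n
      · rw [Co2_q_neg h]
        exact ih
  have hqr : ∀ s, R (Co2_q R a p₀ s) (Co2_q R a p₀ s) := fun s =>
    (hR _ _).2 ⟨hqV s, hqV s, hP.refl _ (hqV s)⟩
  have hqm : ∀ s t, s <+: t → R (Co2_q R a p₀ t) (Co2_q R a p₀ s) := fun s t h =>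
    Co2_q_mono hqr hRtr h
  have hqA : IF A (Co2_q R a p₀) := IF_Co2_q hRA ha
  have hqB : IF B (Co2_q R a p₀) := IF.lift hAB hqA
  have hRB : In B (fun y : P × P => R y.1 y.2) := In.lift hAB hRA
  have hup : ∀ p q, p ∈ H → R p q → q ∈ H := fun p q h1 h2 =>
    hH.up p h1 q ((hR _ _).1 h2).2.1 ((hR _ _).1 h2).2.2
  -- density
  have dens : ∀ D : Fs → Prop, In B D → (∀ s, ∃ t, s <+: t ∧ D t) → ∀ t, Co2_q R a p₀ t ∈ H →
      ∃ t', t <+: t' ∧ Co2_q R a p₀ t' ∈ H ∧ D t' := by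
    intro D hD hd t ht
    have hE : In B (fun p : P => (∃ t', t <+: t' ∧ D t' ∧ R p (Co2_q R a p₀ t')) ∨
        ¬ ∃ r, R r p ∧ R r (Co2_q R a p₀ t)) := by
      refine In.or ?_ (In.not ?_)
      · refine In.ex (P := fun (p : P) (t' : Fs) => t <+: t' ∧ D t' ∧ R p (Co2_q R a p₀ t'))
          (In.and (In.ipre (IF.const t) IF.snd) (In.and (hD.comp IF.snd) ?_))
        exact In.comp2 (P := R) hRB IF.fst (IF.comp hqB IF.snd)
      · refine In.ex (P := fun (p r : P) => R r p ∧ R r (Co2_q R a p₀ t)) (In.and ?_ ?_)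
        · exact In.comp2 (P := R) hRB IF.snd IF.fst
        · exact In.comp2 (P := R) hRB IF.snd (IF.const _)
    obtain ⟨p, hp, h1⟩ := hH.meets (ISet.mk hE) (by
      intro p hp
      by_cases h : ∃ r, R r p ∧ R r (Co2_q R a p₀ t)
      · obtain ⟨r, h2, h3⟩ := h
        obtain ⟨n, rfl⟩ := hasur r ((hR _ _).1 h2).1
        obtain ⟨t', h4, h5⟩ := hd (t ++ [n])
        have h6 : R (Co2_q R a p₀ t') (a n) := by
          have h7 := hqm _ _ h4
          rwa [Co2_q_pos h3] at h7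
        have h7 := hRtr _ _ _ h6 h2
        exact ⟨Co2_q R a p₀ t', hqV t', ((hR _ _).1 h7).2.2, Or.inl ⟨t',
          (List.prefix_append _ _).trans h4, h5, hqr t'⟩⟩
      · exact ⟨p, hp, hP.refl p hp, Or.inr h⟩)
    rcases h1 with ⟨t', h2, h3, h4⟩ | h2
    · exact ⟨t', h2, hup _ _ hp h4, h3⟩
    · exfalso
      obtain ⟨r, h3, h4, h5⟩ := hH.dir p hp _ ht
      exact h2 ⟨r, (hR _ _).2 ⟨hH.sub r h3, hH.sub p hp, h4⟩, (hR _ _).2 ⟨hH.sub r h3, hqV t, h5⟩⟩
  -- the branch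
  have hQ : In (ext A H) (fun s : Fs => Co2_q R a p₀ s ∈ H) :=
    In.comp (P := fun p : P => p ∈ H) (in_gen hP hHA) (IF.lift hA1 hqA)
  have hlong : ∀ n : ℕ, ∀ s : Fs, ∃ t, s <+: t ∧ n ≤ t.length := by
    intro n s
    refine ⟨s ++ List.replicate n 0, List.prefix_append _ _, ?_⟩
    rw [List.length_append, List.length_replicate]
    omega
  obtain ⟨r, hr, -, hgen⟩ := branch hAB1 hQ (t₀ := []) hp₀ (by
      intro t ht
      obtain ⟨t', h1, h2, h3⟩ := dens (fun t' => t.length + 1 ≤ t'.length)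
        (In.le (IF.const _) (IF.length IF.id)) (hlong _) t ht
      exact ⟨t', h1, h2, h3⟩) he
  have hcohB : Coh B r := by
    intro D hd
    obtain ⟨t, -, h1, h2⟩ := hgen (fun t => t ∈ D) (In.lift hB1 D.in_mem)
      (dens (fun t => t ∈ D) D.in_mem hd)
    exact ⟨t, h1, h2⟩
  have hcohA : Coh A r := hcohB.mono hAB
  refine ⟨r, hcohB, hr, ?_⟩
  haveI hM : Mdl (cex A r) := mdl_cex hcohA
  have hA2 : A ⊆ cex A r := sub_cex hcohA
  letI cd4 : Cd (cex A r) P := CdUp hA2 P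
  haveI cx4 : Cx A (cex A r) P := cx_up hA2 P
  refine ext_min hP hHA hA2 ?_
  have hrr : IF (cex A r) r := mem_reals.1 (mem_cex hcohA)
  have hin : In (cex A r) (fun p : P => ∃ s : Fs, Pre r s ∧ R (Co2_q R a p₀ s) p) := by
    refine In.ex (P := fun (p : P) (s : Fs) => Pre r s ∧ R (Co2_q R a p₀ s) p) (In.and ?_ ?_)
    · exact In.pre (x := fun _ : P × Fs => r) (IF.comp hrr IF.snd) IF.snd
    · exact In.comp2 (P := R) (In.lift hA2 hRA) (IF.comp (IF.lift hA2 hqA) IF.snd) IF.fst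
  refine hin.congr fun p => ⟨fun hp => ?_, ?_⟩
  · obtain ⟨t, -, h1, h2⟩ := hgen (fun t => R (Co2_q R a p₀ t) p)
      (In.comp2 (P := R) (In.lift hB1 hRB) (IF.lift hB1 hqB) (IF.const p)) (by
        intro t ht
        obtain ⟨r', h3, h4, h5⟩ := hH.dir p hp _ ht
        obtain ⟨n, rfl⟩ := hasur r' (hH.sub r' h3)
        have h6 : R (a n) (Co2_q R a p₀ t) := (hR _ _).2 ⟨haV n, hqV t, h5⟩
        refine ⟨t ++ [n], List.prefix_append _ _, ?_, ?_⟩
        · show Co2_q R a p₀ (t ++ [n]) ∈ H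
          rw [Co2_q_pos h6]
          exact h3
        · show R (Co2_q R a p₀ (t ++ [n])) p
          rw [Co2_q_pos h6]
          exact (hR _ _).2 ⟨haV n, hH.sub p hp, h4⟩)
    exact ⟨t, h2, h1⟩
  · rintro ⟨s, h1, h2⟩
    obtain ⟨t, h3, h4, h5⟩ := hgen (fun t => s.length ≤ t.length)
      (In.le (IF.const _) (IF.length IF.id)) (dens _ (In.le (IF.const _) (IF.length IF.id))
        (hlong _))
    exact hup _ _ (hup _ _ h3 (hqm s t (h1.prefix_of_le h5 h4))) h2

end

end Pool.Agent.H.MP_20495c_lc
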