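import Pool.Agent.H.MP_20495c_lc.Brn

/-!
# Block Co, part 3: the copy lemma
-/

set_option autoImplicit false
set_option linter.unusedSectionVars false

namespace Pool.Agent.H.MP_20495c_lc

open Pool.Agent.H.MP_07d118_lc Pool.Agent.H.MP_a163f2_lc

universe u v w x

section

variable {A : Set ZFSet.{0}} [Mdl A]

/-- The pair `(s, t)` decides different values: a condition `s` for `r₁` and a condition `t` for
`r'` force different values of some digit of the two names. -/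
def Df0 (F₁ F : ISet A (Fs × ℕ × ℕ)) (y : Fs × Fs) : Prop :=
  ∃ s t n k k', s <+: y.1 ∧ t <+: y.2 ∧ (s, n, k) ∈ F₁ ∧ (t, n, k') ∈ F ∧ k ≠ k'

theorem Co3_df0_in (F₁ F : ISet A (Fs × ℕ × ℕ)) {T : Type w} [Cd A T] {f : T → Fs × Fs}
    (hf : IF A f) : In A (fun y => Df0 F₁ F (f y)) := by
  have h : In A (fun y : Fs × Fs => Df0 F₁ F y) := by
    refine In.ex (P := fun (y : Fs × Fs) (s : Fs) => ∃ t n k k', s <+: y.1 ∧ t <+: y.2 ∧
      (s, n, k) ∈ F₁ ∧ (t, n, k') ∈ F ∧ k ≠ k') ?_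
    refine In.ex (P := fun (y : (Fs × Fs) × Fs) (t : Fs) => ∃ n k k', y.2 <+: y.1.1 ∧
      t <+: y.1.2 ∧ (y.2, n, k) ∈ F₁ ∧ (t, n, k') ∈ F ∧ k ≠ k') ?_
    refine In.ex (P := fun (y : ((Fs × Fs) × Fs) × Fs) (n : ℕ) => ∃ k k', y.1.2 <+: y.1.1.1 ∧
      y.2 <+: y.1.1.2 ∧ (y.1.2, n, k) ∈ F₁ ∧ (y.2, n, k') ∈ F ∧ k ≠ k') ?_
    refine In.ex (P := fun (y : (((Fs × Fs) × Fs) × Fs) × ℕ) (k : ℕ) => ∃ k' : ℕ,
      y.1.1.2 <+: y.1.1.1.1 ∧ y.1.2 <+: y.1.1.1.2 ∧ (y.1.1.2, y.2, k) ∈ F₁ ∧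
      (y.1.2, y.2, k') ∈ F ∧ k ≠ k') ?_
    refine In.ex (P := fun (y : ((((Fs × Fs) × Fs) × Fs) × ℕ) × ℕ) (k' : ℕ) =>
      y.1.1.1.2 <+: y.1.1.1.1.1 ∧ y.1.1.2 <+: y.1.1.1.1.2 ∧ (y.1.1.1.2, y.1.2, y.2) ∈ F₁ ∧
      (y.1.1.2, y.1.2, k') ∈ F ∧ y.2 ≠ k') ?_
    have e1 : IF A (fun z : ((((((Fs × Fs) × Fs) × Fs) × ℕ) × ℕ) × ℕ) => z.1) := IF.fst
    have e2 : IF A (fun z : ((((((Fs × Fs) × Fs) × Fs) × ℕ) × ℕ) × ℕ) => z.1.1) :=
      IF.comp IF.fst e1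
    have e3 : IF A (fun z : ((((((Fs × Fs) × Fs) × Fs) × ℕ) × ℕ) × ℕ) => z.1.1.1) :=
      IF.comp IF.fst e2
    have e4 : IF A (fun z : ((((((Fs × Fs) × Fs) × Fs) × ℕ) × ℕ) × ℕ) => z.1.1.1.1) :=
      IF.comp IF.fst e3
    have e5 : IF A (fun z : ((((((Fs × Fs) × Fs) × Fs) × ℕ) × ℕ) × ℕ) => z.1.1.1.1.1) :=
      IF.comp IF.fst e4
    refine In.and (In.ipre (IF.comp IF.snd e4) (IF.comp IF.fst e5)) (In.and
      (In.ipre (IF.comp IF.snd e3) (IF.comp IF.snd e5)) (In.and ?_ (In.and ?_ ?_)))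
    · exact In.mem ((IF.comp IF.snd e4).pair ((IF.comp IF.snd e2).pair (IF.comp IF.snd e1)))
        (IF.const F₁)
    · exact In.mem ((IF.comp IF.snd e3).pair ((IF.comp IF.snd e2).pair IF.snd)) (IF.const F)
    · exact (In.eq (IF.comp IF.snd e1) IF.snd).not
  exact h.comp hf

theorem Df0.mono {F₁ F : ISet A (Fs × ℕ × ℕ)} {s t s' t' : Fs} (h : Df0 F₁ F (s, t))
    (hs : s <+: s') (ht : t <+: t') : Df0 F₁ F (s', t') := by
  obtain ⟨s₀, t₀, n, k, k', h1, h2, h3⟩ := h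
  exact ⟨s₀, t₀, n, k, k', h1.trans hs, h2.trans ht, h3⟩

/-- `Bad` is the least set of pairs which contains `Df0` and is closed under: if the set of the
`s' ⊇ s` with `(s', t)` bad is dense below `s` then `(s, t)` is bad, and symmetrically. -/
theorem exists_bad (W : Type w) [LinearOrder W] [Cd A W] [Om1 A W] (F₁ F : ISet A (Fs × ℕ × ℕ)) : ∃ Bd : W → Fs × Fs → Prop,
    In A (fun y : W × Fs × Fs => Bd y.1 y.2) ∧
    (∀ α s t, Bd α (s, t) ↔ Df0 F₁ F (s, t) ∨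
      (∀ s', s <+: s' → ∃ s'', s' <+: s'' ∧ ∃ β < α, Bd β (s'', t)) ∨
      (∀ t', t <+: t' → ∃ t'', t' <+: t'' ∧ ∃ β < α, Bd β (s, t''))) := by
  have hin : In A (fun y : (W × ISet A (W × ISet A (Fs × Fs))) × (Fs × Fs) =>
      Df0 F₁ F y.2 ∨
      (∀ s', y.2.1 <+: s' → ∃ s'', s' <+: s'' ∧ ∃ β, ∃ B : ISet A (Fs × Fs),
        (β, B) ∈ y.1.2 ∧ (s'', y.2.2) ∈ B) ∨
      (∀ t', y.2.2 <+: t' → ∃ t'', t' <+: t'' ∧ ∃ β, ∃ B : ISet A (Fs × Fs),
        (β, B) ∈ y.1.2 ∧ (y.2.1, t'') ∈ B)) := by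
    refine In.or (Co3_df0_in F₁ F IF.snd) (In.or ?_ ?_)
    · refine In.all (P := fun (y : (W × ISet A (W × ISet A (Fs × Fs))) × (Fs × Fs)) (s' : Fs) =>
        y.2.1 <+: s' → ∃ s'', s' <+: s'' ∧ ∃ β, ∃ B : ISet A (Fs × Fs),
        (β, B) ∈ y.1.2 ∧ (s'', y.2.2) ∈ B) ?_
      refine In.imp (In.ipre (IF.comp IF.fst (IF.comp IF.snd IF.fst)) IF.snd) ?_
      refine In.ex (P := fun (y : ((W × ISet A (W × ISet A (Fs × Fs))) × (Fs × Fs)) × Fs)
        (s'' : Fs) => y.2 <+: s'' ∧ ∃ β, ∃ B : ISet A (Fs × Fs),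
        (β, B) ∈ y.1.1.2 ∧ (s'', y.1.2.2) ∈ B) ?_
      refine In.and (In.ipre (IF.comp IF.snd IF.fst) IF.snd) ?_
      refine In.ex (P := fun (y : (((W × ISet A (W × ISet A (Fs × Fs))) × (Fs × Fs)) × Fs) × Fs)
        (β : W) => ∃ B : ISet A (Fs × Fs), (β, B) ∈ y.1.1.1.2 ∧ (y.2, y.1.1.2.2) ∈ B) ?_
      refine In.ex (P := fun (y : ((((W × ISet A (W × ISet A (Fs × Fs))) × (Fs × Fs)) × Fs) × Fs)
        × W) (B : ISet A (Fs × Fs)) => (y.2, B) ∈ y.1.1.1.1.2 ∧ (y.1.2, y.1.1.1.2.2) ∈ B) ?_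
      have e1 : IF A (fun z : ((((((W × ISet A (W × ISet A (Fs × Fs))) × (Fs × Fs)) × Fs) × Fs)
        × W) × ISet A (Fs × Fs)) => z.1) := IF.fst
      have e2 := IF.comp IF.fst e1
      have e3 := IF.comp IF.fst e2
      have e4 := IF.comp IF.fst e3
      refine In.and (In.mem ((IF.comp IF.snd e1).pair IF.snd)
        (IF.comp IF.snd (IF.comp IF.fst e4))) (In.mem ((IF.comp IF.snd e2).pair
        (IF.comp IF.snd (IF.comp IF.snd e4))) IF.snd)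
    · refine In.all (P := fun (y : (W × ISet A (W × ISet A (Fs × Fs))) × (Fs × Fs)) (t' : Fs) =>
        y.2.2 <+: t' → ∃ t'', t' <+: t'' ∧ ∃ β, ∃ B : ISet A (Fs × Fs),
        (β, B) ∈ y.1.2 ∧ (y.2.1, t'') ∈ B) ?_
      refine In.imp (In.ipre (IF.comp IF.snd (IF.comp IF.snd IF.fst)) IF.snd) ?_
      refine In.ex (P := fun (y : ((W × ISet A (W × ISet A (Fs × Fs))) × (Fs × Fs)) × Fs)
        (t'' : Fs) => y.2 <+: t'' ∧ ∃ β, ∃ B : ISet A (Fs × Fs),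
        (β, B) ∈ y.1.1.2 ∧ (y.1.2.1, t'') ∈ B) ?_
      refine In.and (In.ipre (IF.comp IF.snd IF.fst) IF.snd) ?_
      refine In.ex (P := fun (y : (((W × ISet A (W × ISet A (Fs × Fs))) × (Fs × Fs)) × Fs) × Fs)
        (β : W) => ∃ B : ISet A (Fs × Fs), (β, B) ∈ y.1.1.1.2 ∧ (y.1.1.2.1, y.2) ∈ B) ?_
      refine In.ex (P := fun (y : ((((W × ISet A (W × ISet A (Fs × Fs))) × (Fs × Fs)) × Fs) × Fs)
        × W) (B : ISet A (Fs × Fs)) => (y.2, B) ∈ y.1.1.1.1.2 ∧ (y.1.1.1.2.1, y.1.2) ∈ B) ?_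
      have e1 : IF A (fun z : ((((((W × ISet A (W × ISet A (Fs × Fs))) × (Fs × Fs)) × Fs) × Fs)
        × W) × ISet A (Fs × Fs)) => z.1) := IF.fst
      have e2 := IF.comp IF.fst e1
      have e3 := IF.comp IF.fst e2
      have e4 := IF.comp IF.fst e3
      refine In.and (In.mem ((IF.comp IF.snd e1).pair IF.snd)
        (IF.comp IF.snd (IF.comp IF.fst e4))) (In.mem ((IF.comp IF.fst (IF.comp IF.snd e4)).pair
        (IF.comp IF.snd e2)) IF.snd)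
  obtain ⟨H, hH, hrec⟩ := exists_rec (M := A) (W := W) (T := ISet A (Fs × Fs))
    (lt := fun a b : W => a < b) (Om1.lt_in (M := A)) (Om1.wf (M := A))
    (fun a b c => lt_trans) (Φ := ISet.sec (P := fun (y : W × ISet A (W × ISet A (Fs × Fs)))
      (z : Fs × Fs) => Df0 F₁ F z ∨
      (∀ s', z.1 <+: s' → ∃ s'', s' <+: s'' ∧ ∃ β, ∃ B : ISet A (Fs × Fs),
        (β, B) ∈ y.2 ∧ (s'', z.2) ∈ B) ∨
      (∀ t', z.2 <+: t' → ∃ t'', t' <+: t'' ∧ ∃ β, ∃ B : ISet A (Fs × Fs),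
        (β, B) ∈ y.2 ∧ (z.1, t'') ∈ B)) hin) (IF.sec _)
  refine ⟨fun α y => y ∈ H α, In.mem IF.snd (IF.comp hH IF.fst), fun α s t => ?_⟩
  obtain ⟨h, h1⟩ := hrec α
  have key : ∀ z : Fs × Fs, (∃ β, ∃ B : ISet A (Fs × Fs), (β, B) ∈ ISet.mk h ∧ z ∈ B) ↔
      ∃ β < α, z ∈ H β := by
    intro z
    constructor
    · rintro ⟨β, B, h2, h3⟩
      obtain ⟨h4, h5⟩ := (ISet.mem_mk h).1 h2
      refine ⟨β, h4, ?_⟩
      have h6 : H β = B := h5
      rw [h6]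
      exact h3
    · rintro ⟨β, h2, h3⟩
      exact ⟨β, H β, (ISet.mem_mk h).2 ⟨h2, rfl⟩, h3⟩
  have h2 : ∀ B : ISet A (Fs × Fs), H α = B → ((s, t) ∈ H α ↔ (s, t) ∈ B) := by
    rintro B rfl
    exact Iff.rfl
  refine (h2 _ h1).trans ?_
  refine or_congr Iff.rfl (or_congr ?_ ?_)
  · refine forall_congr' fun s' => imp_congr_right fun _ => exists_congr fun s'' =>
      and_congr_right fun _ => key (s'', t)
  · refine forall_congr' fun t' => imp_congr_right fun _ => exists_congr fun t'' =>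
      and_congr_right fun _ => key (s, t'')

/-- the properties of the union of the stages -/
theorem Co3_bad (W : Type w) [LinearOrder W] [Cd A W] [Om1 A W] (F₁ F : ISet A (Fs × ℕ × ℕ)) :
    ∃ Bad : Fs → Fs → Prop, In A (fun y : Fs × Fs => Bad y.1 y.2) ∧
      (∀ s t, Df0 F₁ F (s, t) → Bad s t) ∧
      (∀ s t s' t', Bad s t → s <+: s' → t <+: t' → Bad s' t') ∧
      (∀ s t, (∀ s', s <+: s' → ∃ s'', s' <+: s'' ∧ Bad s'' t) → Bad s t) ∧
      (∀ s t, (∀ t', t <+: t' → ∃ t'', t' <+: t'' ∧ Bad s t'') → Bad s t) ∧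
      ∀ r₁ r' : ℕ → ℕ, Coh A r₁ → Coh A r' → (∀ s t, Pre r₁ s → Pre r' t → ¬ Df0 F₁ F (s, t)) →
        ∀ s t, Pre r₁ s → Pre r' t → ¬ Bad s t := by
  obtain ⟨Bd, hin, hBd⟩ := exists_bad W F₁ F
  have hbad : In A (fun y : Fs × Fs => ∃ α, Bd α (y.1, y.2)) := by
    refine In.ex (P := fun (y : Fs × Fs) (α : W) => Bd α (y.1, y.2)) ?_
    exact In.comp (P := fun y : W × Fs × Fs => Bd y.1 y.2) hin (IF.snd.pair IF.fst)
  have hcl : ∀ D : Fs → W → Prop, In A (fun y : Fs × W => D y.1 y.2) →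
      ∃ ζ : W, ∀ s, (∃ α, D s α) → ∃ α < ζ, D s α := by
    intro D hD
    obtain ⟨g, hg, hR⟩ := In.choice (R := fun (s : Fs) (α : W) => D s α ∨ ¬ ∃ β, D s β)
      (In.or hD (In.not (In.ex (P := fun (y : Fs × W) (β : W) => D y.1 β)
        (In.comp (P := fun y : Fs × W => D y.1 y.2) hD ((IF.comp IF.fst IF.fst).pair IF.snd)))))
      (by
        intro s
        by_cases h : ∃ β, D s β
        · obtain ⟨β, hβ⟩ := h
          exact ⟨β, Or.inl hβ⟩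
        · obtain ⟨α⟩ := Om1.ne (M := A) (W := W)
          exact ⟨α, Or.inr h⟩)
    obtain ⟨ζ, hζ⟩ := ICt.bdd (M := A) (W := W) ICt.fs (In.const True |>.congr fun _ => by simp) hg
    refine ⟨ζ, fun s hs => ⟨g s, hζ s (Set.mem_univ s), ?_⟩⟩
    rcases hR s with h | h
    · exact h
    · exact absurd hs h
  have hmono : ∀ α s t s' t', Bd α (s, t) → s <+: s' → t <+: t' → Bd α (s', t') := by
    intro α
    induction α using (Om1.wf (M := A) (W := W)).induction with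
    | _ α ih =>
      intro s t s' t' h hs ht
      rw [hBd] at h ⊢
      rcases h with h | h | h
      · exact Or.inl (h.mono hs ht)
      · refine Or.inr (Or.inl fun s₁ h1 => ?_)
        obtain ⟨s₂, h2, β, hβ, h3⟩ := h s₁ (hs.trans h1)
        exact ⟨s₂, h2, β, hβ, ih β hβ _ _ _ _ h3 List.prefix_rfl ht⟩
      · refine Or.inr (Or.inr fun t₁ h1 => ?_)
        obtain ⟨t₂, h2, β, hβ, h3⟩ := h t₁ (ht.trans h1)
        exact ⟨t₂, h2, β, hβ, ih β hβ _ _ _ _ h3 hs List.prefix_rfl⟩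
  refine ⟨fun s t => ∃ α, Bd α (s, t), hbad, ?_, ?_, ?_, ?_, ?_⟩
  · intro s t h
    obtain ⟨α⟩ := Om1.ne (M := A) (W := W)
    exact ⟨α, (hBd α s t).2 (Or.inl h)⟩
  · rintro s t s' t' ⟨α, h⟩ hs ht
    exact ⟨α, hmono α _ _ _ _ h hs ht⟩
  · intro s t h
    obtain ⟨ζ, hζ⟩ := hcl (fun s' α => Bd α (s', t)) (In.comp
      (P := fun y : W × Fs × Fs => Bd y.1 y.2) hin (IF.snd.pair (IF.fst.pair (IF.const t))))
    refine ⟨ζ, (hBd ζ s t).2 (Or.inr (Or.inl fun s' hs' => ?_))⟩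
    obtain ⟨s'', h1, h2⟩ := h s' hs'
    exact ⟨s'', h1, hζ s'' h2⟩
  · intro s t h
    obtain ⟨ζ, hζ⟩ := hcl (fun t' α => Bd α (s, t')) (In.comp
      (P := fun y : W × Fs × Fs => Bd y.1 y.2) hin (IF.snd.pair ((IF.const s).pair IF.fst)))
    refine ⟨ζ, (hBd ζ s t).2 (Or.inr (Or.inr fun t' ht' => ?_))⟩
    obtain ⟨t'', h1, h2⟩ := h t' ht'
    exact ⟨t'', h1, hζ t'' h2⟩
  · intro r₁ r' h₁ h' hd s t hs ht
    rintro ⟨α, h⟩
    revert s t
    induction α using (Om1.wf (M := A) (W := W)).induction with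
    | _ α ih =>
      intro s t hs ht h
      rw [hBd] at h
      rcases h with h | h | h
      · exact hd s t hs ht h
      · have hD : In A (fun s'' : Fs => ∃ β, β < α ∧ Bd β (s'', t)) := by
          refine In.ex (P := fun (s'' : Fs) (β : W) => β < α ∧ Bd β (s'', t)) (In.and
            (In.ltW IF.snd (IF.const α)) ?_)
          exact In.comp (P := fun y : W × Fs × Fs => Bd y.1 y.2) hin
            (IF.snd.pair (IF.fst.pair (IF.const t)))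
        obtain ⟨s'', ⟨β, h1, h2⟩, h3, -⟩ := h₁.below hD hs fun s' hs' => h s' hs'
        exact ih β h1 s'' t h3 ht h2
      · have hD : In A (fun t'' : Fs => ∃ β, β < α ∧ Bd β (s, t'')) := by
          refine In.ex (P := fun (t'' : Fs) (β : W) => β < α ∧ Bd β (s, t'')) (In.and
            (In.ltW IF.snd (IF.const α)) ?_)
          exact In.comp (P := fun y : W × Fs × Fs => Bd y.1 y.2) hin
            (IF.snd.pair ((IF.const s).pair IF.fst))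
        obtain ⟨t'', ⟨β, h1, h2⟩, h3, -⟩ := h'.below hD ht fun t' ht' => h t' ht'
        exact ih β h1 s t'' hs h3 h2

/-- The copy lemma.  Two Cohen reals `r₁`, `r'` over `A` with `F₁[r₁] = F[r'] = x`, a condition `p`
in `r'`, and `e` Cohen over `A[r₁]`: there is `r''` in `A[r₁][e]`, Cohen over `A`, containing `p`,
with `F[r''] = x`.

Proof.  Each `Bd α` is closed under extensions.  No pair of initial segments of `r₁`, `r'` is bad
(least `α`; genericity).  `Q = {t : for all initial segments s of r₁, (s,t) is not bad}`, `p ∈ Q`.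
If `D` in `A` is dense and `t ∈ Q` then some `t' ⊇ t` is in `D ∩ Q`: the set of the `s` such that
`(s,t)` is bad or there is `t' ⊇ t` in `D` such that no `(s', t')` with `s' ⊇ s` is bad, is in `A`
and dense (closure of `Bad`: the stages below `ω₁` are enough because `Fs × Fs` is countable).
Then `r''` is the generic branch of `Q` given by `e`: `t_0 = p`, `t_(j+1) = t_j ++ u` if this is in
`Q`, else `t_j`, `u` the sequence with code `e j`. -/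
theorem copy (W : Type w) [LinearOrder W] [Cd A W] [Om1 A W] (F₁ F : ISet A (Fs × ℕ × ℕ)) {r₁ r' e x : ℕ → ℕ} (h₁ : Coh A r₁) (h' : Coh A r')
    [Mdl (cex A r₁)] (he : Coh (cex A r₁) e) [Mdl (cex (cex A r₁) e)] (n₁ : Nam F₁ r₁ x)
    (n' : Nam F r' x) {p : Fs} (hp : Pre r' p) :
    ∃ r'', Coh A r'' ∧ r'' ∈ Reals (cex (cex A r₁) e) ∧ Pre r'' p ∧ Nam F r'' x := by
  obtain ⟨Bad, hin, hb0, hbm, hb1, hb2, hb3⟩ := Co3_bad W F₁ F
  have hnb : ∀ s t, Pre r₁ s → Pre r' t → ¬ Bad s t := by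
    refine hb3 r₁ r' h₁ h' ?_
    rintro s t hs ht ⟨s₀, t₀, n, k, k', h1, h2, h3, h4, h5⟩
    have h6 : x n = k := (n₁ n k).2 ⟨s₀, hs.of_prefix h1, h3⟩
    have h7 : x n = k' := (n' n k').2 ⟨t₀, ht.of_prefix h2, h4⟩
    exact h5 (h6.symm.trans h7)
  -- a condition below which the name is total
  have hDec : In A (fun y : ℕ × Fs => ∃ t, t <+: y.2 ∧ ∃ k, (t, y.1, k) ∈ F) := by
    refine In.ex (P := fun (y : ℕ × Fs) (t : Fs) => t <+: y.2 ∧ ∃ k, (t, y.1, k) ∈ F)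
      (In.and (In.ipre IF.snd (IF.comp IF.snd IF.fst)) ?_)
    refine In.ex (P := fun (y : (ℕ × Fs) × Fs) (k : ℕ) => (y.2, y.1.1, k) ∈ F) ?_
    exact In.mem ((IF.comp IF.snd IF.fst).pair ((IF.comp IF.fst (IF.comp IF.fst IF.fst)).pair
      IF.snd)) (IF.const F)
  obtain ⟨p', hp', hpp', htot⟩ : ∃ p', Pre r' p' ∧ p <+: p' ∧ ∀ (n : ℕ) (t : Fs), p' <+: t →
      ∃ t', t <+: t' ∧ ∃ t₀, t₀ <+: t' ∧ ∃ k, (t₀, n, k) ∈ F := by
    have hE1 : In A (fun t : Fs => ∃ n : ℕ, ∀ t', t <+: t' →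
        ¬ ∃ t₀, t₀ <+: t' ∧ ∃ k, (t₀, n, k) ∈ F) := by
      refine In.ex (P := fun (t : Fs) (n : ℕ) => ∀ t', t <+: t' →
        ¬ ∃ t₀, t₀ <+: t' ∧ ∃ k, (t₀, n, k) ∈ F) ?_
      refine In.all (P := fun (y : Fs × ℕ) (t' : Fs) => y.1 <+: t' →
        ¬ ∃ t₀, t₀ <+: t' ∧ ∃ k, (t₀, y.2, k) ∈ F) ?_
      refine In.imp (In.ipre (IF.comp IF.fst IF.fst) IF.snd) (In.not ?_)
      exact In.comp (P := fun y : ℕ × Fs => ∃ t, t <+: y.2 ∧ ∃ k, (t, y.1, k) ∈ F) hDec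
        ((IF.comp IF.snd IF.fst).pair IF.snd)
    have hE2 : In A (fun t : Fs => ∀ t', t <+: t' → ¬ ∃ n : ℕ, ∀ t'', t' <+: t'' →
        ¬ ∃ t₀, t₀ <+: t'' ∧ ∃ k, (t₀, n, k) ∈ F) := by
      refine In.all (P := fun (t : Fs) (t' : Fs) => t <+: t' → ¬ ∃ n : ℕ, ∀ t'', t' <+: t'' →
        ¬ ∃ t₀, t₀ <+: t'' ∧ ∃ k, (t₀, n, k) ∈ F) ?_
      exact In.imp (In.ipre IF.fst IF.snd) (In.not (hE1.comp IF.snd))
    obtain ⟨q, hq, hq1, hq2⟩ := h'.below (In.or hE1 hE2) hp (by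
      intro t _
      by_cases h : ∀ t', t <+: t' → ¬ ∃ n : ℕ, ∀ t'', t' <+: t'' →
        ¬ ∃ t₀, t₀ <+: t'' ∧ ∃ k, (t₀, n, k) ∈ F
      · exact ⟨t, List.prefix_rfl, Or.inr h⟩
      · push Not at h
        obtain ⟨t', h1, n, h2⟩ := h
        exact ⟨t', h1, Or.inl ⟨n, fun t'' h3 => by
          rintro ⟨t₀, h4, k, h5⟩
          exact h2 t'' h3 t₀ h4 k h5⟩⟩)
    refine ⟨q, hq1, hq2, fun n t ht => ?_⟩
    rcases hq with ⟨n₀, hn₀⟩ | hq
    · exfalso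
      obtain ⟨s, h1, h2⟩ := (n' n₀ (x n₀)).1 rfl
      rcases hq1.comparable h1 with h3 | h3
      · exact hn₀ s h3 ⟨s, List.prefix_rfl, _, h2⟩
      · exact hn₀ q List.prefix_rfl ⟨s, h3, _, h2⟩
    · have h1 := hq t ht
      push Not at h1
      obtain ⟨t', h2, t₀, h3, k, h4⟩ := h1 n
      exact ⟨t', h2, t₀, h3, k, h4⟩
  -- the set `Q`
  have hA1 : A ⊆ cex A r₁ := sub_cex h₁
  have hr₁ : IF (cex A r₁) r₁ := mem_reals.1 (mem_cex h₁)
  have hQ : In (cex A r₁) (fun t : Fs => ∀ s, Pre r₁ s → ¬ Bad s t) := by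
    refine In.all (P := fun (t s : Fs) => Pre r₁ s → ¬ Bad s t) (In.imp ?_ (In.not ?_))
    · exact In.pre (x := fun _ : Fs × Fs => r₁) (IF.comp hr₁ IF.snd) IF.snd
    · exact In.comp (P := fun y : Fs × Fs => Bad y.1 y.2) (In.lift hA1 hin) (IF.snd.pair IF.fst)
  have step : ∀ D : Fs → Prop, In A D → (∀ t, ∃ t', t <+: t' ∧ D t') →
      ∀ t, (∀ s, Pre r₁ s → ¬ Bad s t) →
      ∃ t', t <+: t' ∧ (∀ s, Pre r₁ s → ¬ Bad s t') ∧ D t' := by
    intro D hD hd t ht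
    have hE : In A (fun s : Fs => Bad s t ∨ ∃ t', t <+: t' ∧ D t' ∧ ∀ s', s <+: s' →
        ¬ Bad s' t') := by
      refine In.or (In.comp (P := fun y : Fs × Fs => Bad y.1 y.2) hin
        (IF.id.pair (IF.const t))) ?_
      refine In.ex (P := fun (s t' : Fs) => t <+: t' ∧ D t' ∧ ∀ s', s <+: s' → ¬ Bad s' t')
        (In.and (In.ipre (IF.const t) IF.snd) (In.and (hD.comp IF.snd) ?_))
      refine In.all (P := fun (y : Fs × Fs) (s' : Fs) => y.1 <+: s' → ¬ Bad s' y.2)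
        (In.imp (In.ipre (IF.comp IF.fst IF.fst) IF.snd) (In.not ?_))
      exact In.comp (P := fun y : Fs × Fs => Bad y.1 y.2) hin
        (IF.snd.pair (IF.comp IF.snd IF.fst))
    obtain ⟨s, hs1, hs2⟩ := h₁ (ISet.mk hE) (by
      intro s
      by_contra hcon
      push Not at hcon
      have hc : ∀ s', s <+: s' → ¬ Bad s' t ∧ ∀ t', t <+: t' → D t' → ∃ s'', s' <+: s'' ∧
          Bad s'' t' := by
        intro s' hs'
        have h1 := hcon s' hs'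
        rw [ISet.mem_mk, not_or] at h1
        refine ⟨h1.1, fun t' ht' hDt' => ?_⟩
        have h2 := h1.2
        push Not at h2
        exact h2 t' ht' hDt'
      refine (hc s List.prefix_rfl).1 (hb2 s t fun t' ht' => ?_)
      obtain ⟨t'', h1, h2⟩ := hd t'
      refine ⟨t'', h1, hb1 s t'' fun s' hs' => ?_⟩
      exact (hc s' hs').2 t'' (ht'.trans h1) h2)
    rcases hs1 with hs1 | ⟨t', h1, h2, h3⟩
    · exact absurd hs1 (ht s hs2)
    · refine ⟨t', h1, fun s' hs' hbad => ?_, h2⟩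
      rcases hs2.comparable hs' with h4 | h4
      · exact h3 s' h4 hbad
      · exact h3 s List.prefix_rfl (hbm _ _ _ _ hbad h4 List.prefix_rfl)
  obtain ⟨r'', hr, hr0, hgen⟩ := branch (N := cex A r₁) (N' := cex A r₁) (fun _ h => h) hQ
    (t₀ := p') (fun s hs => hnb s p' hs hp') (by
      intro t ht
      obtain ⟨t', h1, h2, h3⟩ := step (fun t' => t.length < t'.length)
        (In.lt (IF.const _) (IF.length IF.id)) (fun s => by
          refine ⟨s ++ List.replicate (t.length + 1) 0, List.prefix_append _ _, ?_⟩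
          rw [List.length_append, List.length_replicate]
          omega) t ht
      exact ⟨t', h1, h2, h3⟩) he
  have hmeet : ∀ D : Fs → Prop, In A D → (∀ t, ∃ t', t <+: t' ∧ D t') →
      ∃ t, (∀ s, Pre r₁ s → ¬ Bad s t) ∧ D t ∧ Pre r'' t := by
    intro D hD hd
    exact hgen D (In.lift hA1 hD) (step D hD hd)
  have hcoh : Coh A r'' := by
    intro D hd
    obtain ⟨t, -, h1, h2⟩ := hmeet (fun t => t ∈ D) D.in_mem hd
    exact ⟨t, h1, h2⟩
  have hval : ∀ (s : Fs) (n k : ℕ), Pre r'' s → (s, n, k) ∈ F → x n = k := by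
    intro s n k hs hsF
    by_contra hne
    obtain ⟨s₁, h1, h2⟩ := (n₁ n (x n)).1 rfl
    obtain ⟨t, h3, h4, h5⟩ := hmeet (fun t => s.length ≤ t.length)
      (In.le (IF.const _) (IF.length IF.id)) (fun t => by
        refine ⟨t ++ List.replicate s.length 0, List.prefix_append _ _, ?_⟩
        rw [List.length_append, List.length_replicate]
        omega)
    exact h3 s₁ h1 (hb0 s₁ t ⟨s₁, s, n, x n, k, List.prefix_rfl, hs.prefix_of_le h5 h4, h2, hsF,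
      hne⟩)
  refine ⟨r'', hcoh, hr, hr0.of_prefix hpp', fun n k => ⟨fun hx => ?_, ?_⟩⟩
  · have hD : In A (fun t : Fs => p' <+: t → ∃ t₀, t₀ <+: t ∧ ∃ k, (t₀, n, k) ∈ F) := by
      refine In.imp (In.ipre (IF.const p') IF.id) ?_
      exact In.comp (P := fun y : ℕ × Fs => ∃ t, t <+: y.2 ∧ ∃ k, (t, y.1, k) ∈ F) hDec
        ((IF.const n).pair IF.id)
    obtain ⟨t, h1, h2, h3⟩ := hcoh.below hD hr0 (by
      intro t ht
      obtain ⟨t', h5, h6⟩ := htot n t ht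
      exact ⟨t', h5, fun _ => h6⟩)
    obtain ⟨t₀, h5, k', h6⟩ := h1 h3
    have h7 : x n = k' := hval t₀ n k' (h2.of_prefix h5) h6
    have h8 : k' = k := h7.symm.trans hx
    rw [h8] at h6
    exact ⟨t₀, h2.of_prefix h5, h6⟩
  · rintro ⟨s, hs, hsF⟩
    exact hval s n k hs hsF

end

end Pool.Agent.H.MP_20495c_lc
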