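import Pool.Agent.H.MP_20495c_lc.Co1

/-!
# Block Co, part 5: products of a poset and Cohen forcing, three Cohen reals
-/

set_option autoImplicit false
set_option linter.unusedSectionVars false

namespace Pool.Agent.H.MP_20495c_lc

open Pool.Agent.H.MP_07d118_lc Pool.Agent.H.MP_a163f2_lc

universe u v w x

section

variable {A : Set ZFSet.{0}} [Mdl A] {P : Type v} [Cd A P] {V : Set P} {le : P → P → Prop}

/-- the order of the product with Cohen forcing -/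
def leC (le : P → P → Prop) (y z : P × Fs) : Prop := le y.1 z.1 ∧ z.2 <+: y.2

theorem po_prod (hP : Po A V le) : Po A (V ×ˢ (Set.univ : Set Fs)) (leC le) := by
  refine ⟨?_, ?_, ?_, ?_⟩
  · refine (In.comp hP.inV (f := fun y : P × Fs => y.1) IF.fst).congr fun y => ?_
    exact ⟨fun h => h.1, fun h => ⟨h, trivial⟩⟩
  · have h1 : In A (fun y : (P × Fs) × (P × Fs) => y.1.1 ∈ V ∧ y.2.1 ∈ V ∧ le y.1.1 y.2.1) :=
      In.comp hP.inle (f := fun y : (P × Fs) × (P × Fs) => (y.1.1, y.2.1))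
        ((IF.comp IF.fst IF.fst).pair (IF.comp IF.fst IF.snd))
    have h2 : In A (fun y : (P × Fs) × (P × Fs) => y.2.2 <+: y.1.2) :=
      In.ipre (IF.comp IF.snd IF.snd) (IF.comp IF.snd IF.fst)
    refine (h1.and h2).congr fun y => ?_
    constructor
    · rintro ⟨⟨a1, -⟩, ⟨a2, -⟩, a3, a4⟩
      exact ⟨⟨a1, a2, a3⟩, a4⟩
    · rintro ⟨⟨a1, a2, a3⟩, a4⟩
      exact ⟨⟨a1, trivial⟩, ⟨a2, trivial⟩, a3, a4⟩
  · rintro p ⟨hp, -⟩
    exact ⟨hP.refl p.1 hp, List.prefix_refl _⟩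
  · rintro p ⟨hp, -⟩ q ⟨hq, -⟩ r ⟨hr, -⟩ ⟨h1, h2⟩ ⟨h3, h4⟩
    exact ⟨hP.trans p.1 hp q.1 hq r.1 hr h1 h3, h4.trans h2⟩

theorem gt_prod (hP : Po A V le) {H : Set P} (hH : Gt A V le H) [Mdl (ext A H)] {r : ℕ → ℕ}
    (hr : Coh (ext A H) r) : Gt A (V ×ˢ (Set.univ : Set Fs)) (leC le) (H ×ˢ CF r) := by
  refine ⟨?_, ?_, ?_, ?_, ?_⟩
  · rintro p ⟨hp, -⟩
    exact ⟨hH.sub p.1 hp, trivial⟩
  · obtain ⟨p, hp⟩ := hH.ne
    exact ⟨(p, ini r 0), hp, pre_ini r 0⟩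
  · rintro p ⟨hp, hp'⟩ q ⟨hq, -⟩ ⟨h1, h2⟩
    exact ⟨hH.up p.1 hp q.1 hq h1, Pre.of_prefix hp' h2⟩
  · rintro p ⟨hp, hp'⟩ q ⟨hq, hq'⟩
    obtain ⟨u, hu, h1, h2⟩ := hH.dir p.1 hp q.1 hq
    rcases Pre.comparable hp' hq' with h3 | h3
    · exact ⟨(u, q.2), ⟨hu, hq'⟩, ⟨h1, h3⟩, ⟨h2, List.prefix_refl _⟩⟩
    · exact ⟨(u, p.2), ⟨hu, hp'⟩, ⟨h1, List.prefix_refl _⟩, ⟨h2, h3⟩⟩
  · intro D hD
    have hR : In A (fun y : Fs × P => (y.2, y.1) ∈ D) := In.mem (IF.snd.pair IF.fst) (IF.const D)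
    have hI : In (ext A H) (fun t : Fs => ∃ p ∈ H, (p, t) ∈ D) :=
      (in_ext_iff hP hH).2 ⟨ISet.mk hR, fun t => Iff.rfl⟩
    obtain ⟨t, ⟨p, hp, ht⟩, hr'⟩ := hr (ISet.mk hI) (by
      intro s
      have hE : In A (fun p : P => ∃ t : Fs, s <+: t ∧ (p, t) ∈ D) :=
        In.ex (P := fun (p : P) (t : Fs) => s <+: t ∧ (p, t) ∈ D)
          ((In.ipre (IF.const s) IF.snd).and (In.mem (IF.fst.pair IF.snd) (IF.const D)))
      obtain ⟨p, hp, t, h1, h2⟩ := hH.meets (ISet.mk hE) (by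
        intro p hp
        obtain ⟨q, ⟨hq, -⟩, ⟨h1, h2⟩, h3⟩ := hD (p, s) ⟨hp, trivial⟩
        exact ⟨q.1, hq, h1, q.2, h2, h3⟩)
      exact ⟨t, h1, p, hp, h2⟩)
    exact ⟨(p, t), ⟨hp, hr'⟩, ht⟩

theorem ext_prod (hP : Po A V le) {H : Set P} (hH : Gt A V le H) [Mdl (ext A H)] {r : ℕ → ℕ}
    (hr : Coh (ext A H) r) : ext A (H ×ˢ CF r) = cex (ext A H) r := by
  have hE := sub_ext hP hH
  have hN := sub_cex hr
  have mN : Mdl (cex (ext A H) r) := mdl_cex hr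
  have hPP := po_prod hP
  have hGG := gt_prod hP hH hr
  have mM : Mdl (ext A (H ×ˢ CF r)) := mdl_ext hPP hGG
  have hM := sub_ext hPP hGG
  apply Set.Subset.antisymm
  · let c1 : Cd (ext A H) P := CdUp hE P
    have x1 : Cx A (ext A H) P := cx_up hE P
    let c2 : Cd (cex (ext A H) r) P := CdUp hN P
    have x2 : Cx (ext A H) (cex (ext A H) r) P := cx_up hN P
    have x3 : Cx A (cex (ext A H) r) P := cx_trans x1 x2
    refine ext_min hPP hGG (hE.trans hN) ?_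
    have h1 : In (cex (ext A H) r) (fun p => p ∈ H) := In.lift hN (in_gen hP hH)
    have h2 : IF (cex (ext A H) r) r := mem_reals.1 (mem_cex hr)
    have h3 : In (cex (ext A H) r) (fun t : Fs => Pre r t) := by
      refine (In.all (P := fun (t : Fs) (i : ℕ) => i < t.length → t.getD i 0 = r i)
        (In.imp (In.lt IF.snd (IF.length IF.fst)) (In.eq (IF.getD IF.fst IF.snd)
          (IF.comp h2 IF.snd)))).congr fun t => ?_
      exact pre_getD
    refine ((In.comp h1 (f := fun y : P × Fs => y.1) IF.fst).and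
      (In.comp h3 (f := fun y : P × Fs => y.2) IF.snd)).congr fun y => Iff.rfl
  · let c1 : Cd (ext A (H ×ˢ CF r)) P := CdUp hM P
    have x1 : Cx A (ext A (H ×ˢ CF r)) P := cx_up hM P
    have h0 : In (ext A (H ×ˢ CF r)) (fun y : P × Fs => y ∈ H ×ˢ CF r) := in_gen hPP hGG
    refine cex_min hr (ext_min hP hH hM ?_) ?_
    · refine (In.comp h0 (f := fun p : P => (p, ini r 0)) (IF.id.pair (IF.const _))).congr
        fun p => ?_
      exact ⟨fun h => ⟨h, pre_ini r 0⟩, fun h => h.1⟩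
    · obtain ⟨p0, hp0⟩ := hH.ne
      refine mem_reals.2 (IF.of_in ?_)
      refine (In.ex (P := fun (y : ℕ × ℕ) (t : Fs) => (p0, t) ∈ H ×ˢ CF r ∧ y.1 < t.length ∧
        t.getD y.1 0 = y.2) ?_).congr fun y => ?_
      · refine (In.comp h0 (f := fun y : (ℕ × ℕ) × Fs => (p0, y.2))
          ((IF.const p0).pair IF.snd)).and ((In.lt (IF.comp IF.fst IF.fst)
            (IF.length IF.snd)).and (In.eq (IF.getD IF.snd (IF.comp IF.fst IF.fst))
              (IF.comp IF.snd IF.fst)))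
      · constructor
        · intro h
          refine ⟨ini r (y.1 + 1), ⟨hp0, pre_ini r _⟩, by simp [ini], ?_⟩
          rw [pre_getD.1 (pre_ini r (y.1 + 1)) y.1 (by simp [ini]), h]
        · rintro ⟨t, ⟨-, ht⟩, h1, h2⟩
          rw [← h2, pre_getD.1 ht y.1 h1]

theorem ict_prod (h : ICt A V) : ICt A (V ×ˢ (Set.univ : Set Fs)) := by
  obtain ⟨g, hg, hi⟩ := h
  refine ⟨fun y => Nat.pair (g y.1) (Encodable.encode y.2),
    IF.npair (IF.comp hg IF.fst) (IF.comp (CdP.enc (α := Fs)) IF.snd), ?_⟩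
  rintro ⟨p, s⟩ ⟨hp, -⟩ ⟨q, t⟩ ⟨hq, -⟩ e
  obtain ⟨e1, e2⟩ := Nat.pair_eq_pair.1 e
  exact Prod.ext (hi hp hq e1) (Encodable.encode_injective e2)

theorem Co5_congr {B C : Set ZFSet.{0}} [Mdl B] [Mdl C] (e : B = C) {x : ℕ → ℕ}
    (h : Coh B x) : Coh C x := by
  subst e
  exact h

/-- three Cohen reals -/
theorem coh2_perm {a b r : ℕ → ℕ} (h : Coh2 A a b)
    (hr : ∀ [Mdl (cex A a)] [Mdl (cex (cex A a) b)], Coh (cex (cex A a) b) r)
    [Mdl (cex A r)] : Coh2 (cex A r) a b := by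
  obtain ⟨ha, hb'⟩ := coh2_iff.1 h
  have m1 : Mdl (cex A a) := mdl_cex ha
  have hb := hb'
  have m2 : Mdl (cex (cex A a) b) := mdl_cex hb
  have hr' := hr
  have h1 : Coh2 (cex A a) b r := coh2_iff.2 ⟨hb, hr'⟩
  obtain ⟨hra, hbr'⟩ := coh2_iff.1 h1.symm
  have m3 : Mdl (cex (cex A a) r) := mdl_cex hra
  have hbr := hbr'
  have h2 : Coh2 A a r := coh2_iff.2 ⟨ha, hra⟩
  obtain ⟨hrA, har'⟩ := coh2_iff.1 h2.symm
  have har := har'
  refine coh2_iff.2 ⟨har, ?_⟩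
  intro m4
  have e : cex (cex A r) a = cex (cex A a) r := by
    apply Set.Subset.antisymm
    · refine cex_min har (cex_min hrA ((sub_cex ha).trans (sub_cex hra)) (mem_cex hra)) ?_
      exact reals_mono_set (sub_cex hra) (mem_cex ha)
    · refine cex_min hra (cex_min ha ((sub_cex hrA).trans (sub_cex har)) (mem_cex har)) ?_
      exact reals_mono_set (sub_cex har) (mem_cex hrA)
  exact Co5_congr e.symm hbr

open Classical in
/-- the real which codes a set of triples -/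
noncomputable def indr (B : Fs × ℕ × ℕ → Prop) : ℕ → ℕ := fun m =>
  if ∃ y, Encodable.encode y = m ∧ B y then 1 else 0

theorem in_iff_indr {B : Fs × ℕ × ℕ → Prop} : In A B ↔ indr B ∈ Reals A := by
  rw [mem_reals]
  constructor
  · intro h
    have h1 : In A (fun m : ℕ => ∃ y : Fs × ℕ × ℕ, Encodable.encode y = m ∧ B y) :=
      In.ex (P := fun (m : ℕ) (y : Fs × ℕ × ℕ) => Encodable.encode y = m ∧ B y)
        ((In.eq (IF.comp (CdP.enc (α := Fs × ℕ × ℕ)) IF.snd) IF.fst).and (In.comp h IF.snd))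
    classical
    exact IF.ite h1 (IF.const 1) (IF.const 0)
  · intro h
    refine (In.nat_eq (IF.comp h (CdP.enc (M := A) (α := Fs × ℕ × ℕ))) 1).congr fun y => ?_
    unfold indr
    constructor
    · intro hy
      exact if_pos ⟨y, rfl, hy⟩
    · intro hy
      by_contra hcon
      rw [if_neg] at hy
      · exact zero_ne_one hy
      · rintro ⟨z, hz, hz'⟩
        rw [Encodable.encode_injective hz] at hz'
        exact hcon hz'

end

end Pool.Agent.H.MP_20495c_lc
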