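import Pool.Agent.H.MP_20495c_lc.S.S8c

/-!
# The cut lemma

`g` is a plan over `(N, c')`, `K` generic.  For all large `d` the conditions with indices below
`d` form a countable poset of `A d`, the restriction of `K` is generic over `A d`, and the spare
reals with index `d` are mutually Cohen over `A d [K_d]`.
-/

set_option autoImplicit false
set_option linter.unusedSectionVars false
set_option linter.style.haveILetI false

namespace Pool.Agent.H.MP_20495c_lc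

open Pool.Agent.H.MP_07d118_lc Pool.Agent.H.MP_a163f2_lc

universe u v w x

section

variable {S : Set ZFSet.{0}} [Mdl S] {W : Type v} [LinearOrder W] [Cd S W] [Om1 S W]
  {c : W × Hc → ℕ → ℕ} {N : Set ZFSet.{0}} [Mdl N] [Cd N W] [Om1 N W]
  {A : W → Set ZFSet.{0}} [∀ d, Mdl (A d)] [∀ d, Cd (A d) W] [∀ d, Om1 (A d) W]
  {c' : W × Hc → ℕ → ℕ} {f : W → Pl S W} {G : W → Set (Cond W)} {sp : W → ℕ → ℕ → ℕ}

/-- the conditions of the plan `g` with indices below `d` -/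
def Vc (c' : W × Hc → ℕ → ℕ) (g : Pl N W) (d : W) : Set (Cond W) := {p | p ∈ PP c' g ∧ Bd d p}

theorem cut_large (hL : Luz S W c) (h : SPk S c N A c' f G sp) {g : Pl N W} (hg : Valid c' g) :
    ∃ d₀ : W, ∀ d, d₀ ≤ d → Sm (A d) g d ∧ ∃ η, η < d := by
  haveI : Fact (Luz S W c) := ⟨hL⟩
  obtain ⟨d₀, h0⟩ := h.exists_sm hg
  obtain ⟨d₁, h1⟩ := Om1.bdd (M := N) (fun _ : ℕ => d₀) (IF.const d₀)
  exact ⟨d₁, fun d hd => ⟨h0 d ((h1 0).le.trans hd), d₀, (h1 0).trans_le hd⟩⟩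

theorem cut_main (hL : Luz S W c) (h : SPk S c N A c' f G sp) {g : Pl N W} (hg : Valid c' g)
    {K : Set (Cond W)} (hK : Gen c' g K) : ∃ d₀ : W, ∀ d, d₀ ≤ d →
      Po (A d) (Vc c' g d) (CLe c') ∧ ICt (A d) (Vc c' g d) ∧
      Gt (A d) (Vc c' g d) (CLe c') (K ∩ Vc c' g d) ∧
      ∀ [Mdl (ext (A d) (K ∩ Vc c' g d))],
        Coh2 (ext (A d) (K ∩ Vc c' g d)) (sp d 0) (sp d 1) := by
  haveI : Fact (Luz S W c) := ⟨hL⟩
  obtain ⟨d₀, h0⟩ := cut_large hL h hg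
  refine ⟨d₀, fun d hd => ?_⟩
  obtain ⟨h1, h2⟩ := h0 d hd
  refine ⟨h.po_Pd h1, h.ct_Pd, h.gt_Pd hg h1 h2 hK, ?_⟩
  intro hM
  haveI : Mdl (ext (A d) (K ∩ Pd c' g d)) := hM
  exact h.coh2 hg h1 h2 hK

theorem cut_real (hL : Luz S W c) (h : SPk S c N A c' f G sp) {g : Pl N W} (hg : Valid c' g)
    {K : Set (Cond W)} (hK : Gen c' g K) {x : ℕ → ℕ} (hx : x ∈ Reals (ext N K)) :
    ∃ d₀ : W, ∀ d, d₀ ≤ d → x ∈ Reals (ext (A d) (K ∩ Vc c' g d)) := by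
  haveI : Fact (Luz S W c) := ⟨hL⟩
  haveI : Fact (Luz N W c') := ⟨h.luz⟩
  rw [reals_ext_plan hg hK] at hx
  obtain ⟨d₀, h0⟩ := cut_large hL h hg
  obtain ⟨d₁, h1⟩ := h.real_Pd hg hK hx
  exact ⟨max d₀ d₁, fun d hd => h1 d ((le_max_right _ _).trans hd)
    (h0 d ((le_max_left _ _).trans hd)).1⟩

theorem cut_sub (hL : Luz S W c) (h : SPk S c N A c' f G sp) {g : Pl N W} (hg : Valid c' g)
    {K : Set (Cond W)} (hK : Gen c' g K) :
    ∃ d₀ : W, ∀ d, d₀ ≤ d → ext (A d) (K ∩ Vc c' g d) ⊆ ext N K := by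
  haveI : Fact (Luz S W c) := ⟨hL⟩
  haveI : Fact (Luz N W c') := ⟨h.luz⟩
  haveI := mdl_ext (po_pp (c := c') g) (gt_iff_gen.2 hK)
  obtain ⟨d₀, h0⟩ := cut_large hL h hg
  refine ⟨d₀, fun d hd => ?_⟩
  obtain ⟨h1, h2⟩ := h0 d hd
  exact h.ext_sub hg h1 h2 hK

end

end Pool.Agent.H.MP_20495c_lc
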