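import Pool.Agent.H.MP_20495c_lc.TE

/-!
# Plans and names in a larger model
-/

set_option autoImplicit false
set_option linter.unusedSectionVars false

namespace Pool.Agent.H.MP_20495c_lc

open Pool.Agent.H.MP_07d118_lc Pool.Agent.H.MP_a163f2_lc

universe u v w x

section

variable {S N : Set ZFSet.{0}} [Mdl S] [Mdl N] (h : S ⊆ N) {W : Type v} [LinearOrder W] [Cd S W]
  [Cd N W] [Cx S N W]

/-- the plan `f` as a plan of the larger model -/
noncomputable def plUp (f : Pl S W) : Pl N W := ISet.mk (P := fun x => x ∈ f) (In.lift h f.2)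

/-- the name `n` as a name of the larger model -/
noncomputable def nmUp (n : Nm S W) : Nm N W := ISet.mk (P := fun x => x ∈ n) (In.lift h n.2)

theorem mem_plUp {f : Pl S W} {x : W × Cond W × Fs} : x ∈ plUp h f ↔ x ∈ f := Iff.rfl

theorem mem_nmUp {n : Nm S W} {x : Cond W × Fs} : x ∈ nmUp h n ↔ x ∈ n := Iff.rfl

theorem dom_plUp (f : Pl S W) : (plUp h f).dom = f.dom := rfl

theorem nm_plUp (f : Pl S W) (ν : W) : (plUp h f).nm ν = nmUp h (f.nm ν) :=
  ISet.ext fun _ => Iff.rfl

variable {c : W × Hc → ℕ → ℕ}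

theorem pp_plUp (f : Pl S W) : PP c (plUp h f) = PP c f :=
  Set.ext fun _ => Iff.rfl

theorem isNm_up {f : Pl S W} {n : Nm S W} (hn : IsNm c f n) : IsNm c (plUp h f) (nmUp h n) where
  sub := hn.sub
  cons := hn.cons
  tot := hn.tot
  bdd := hn.bdd

theorem valid_plUp {f : Pl S W} (hf : Valid c f) : Valid c (plUp h f) where
  bdd := hf.bdd
  nm := fun ν hν => by
    rw [nm_plUp]
    exact isNm_up h (hf.nm ν hν)

theorem ev_nmUp (n : Nm S W) (G : Set (Cond W)) : ev (nmUp h n) G = ev n G := rfl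

theorem gen_plUp [Om1 S W] [Om1 N W] [Fact (Luz N W c)] (f : Pl S W) {G : Set (Cond W)} :
    Gen c (plUp h f) G ↔ Gt N (PP c f) (CLe c) G :=
  ⟨fun hG => ⟨hG.sub, hG.ne, hG.up, hG.dir, hG.meets⟩,
    fun hG => ⟨hG.sub, hG.ne, hG.up, hG.dir, hG.meets⟩⟩

theorem gen_down {f : Pl S W} {G : Set (Cond W)} (hG : Gen c (plUp h f) G) : Gen c f G where
  sub := hG.sub
  ne := hG.ne
  up := hG.up
  dir := hG.dir
  meets := fun D hD => hG.meets (ISet.mk (P := fun p => p ∈ D) (In.lift h D.2)) hD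

/-- a bounded internal set of a larger model which is internal in the smaller one -/
theorem exists_plDown {g : Pl N W} (hg : In S (fun x : W × Cond W × Fs => x ∈ g)) :
    ∃ f : Pl S W, plUp h f = g :=
  ⟨ISet.mk hg, ISet.ext fun _ => Iff.rfl⟩

end

end Pool.Agent.H.MP_20495c_lc
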