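import Pool.Agent.H.MP_20495c_lc.LuzC
import Pool.Agent.H.MP_20495c_lc.Up
import Pool.Agent.H.MP_a163f2_lc.R.Nuc

/-!
# Exactness: in a Cohen extension of an extension by a plan only the reals of the nodes are coded
-/

set_option autoImplicit false
set_option linter.unusedSectionVars false

namespace Pool.Agent.H.MP_20495c_lc

open Pool.Agent.H.MP_07d118_lc Pool.Agent.H.MP_a163f2_lc

universe u v w x

/-- Proof: `G` is generic over `S[r]` (product lemma), `c` has the Luzin property over `S[r]`, the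
reals of `S[G][r] = S[r][G]` are the values of the names over the plan in `S[r]`; `nuc`. -/
theorem exact_plan {S : Set ZFSet.{0}} [Mdl S] {W : Type v} [LinearOrder W] [Cd S W] [Om1 S W]
    {c : W × Hc → ℕ → ℕ} (hL : Luz S W c) {f : Pl S W} (hf : Valid c f) {G : Set (Cond W)}
    (hG : Gen c f G) [Mdl (ext S G)] {r : ℕ → ℕ} (hr : Coh (ext S G) r) {y z : ℕ → ℕ}
    (hy : y ∈ Reals (cex (ext S G) r)) (hz : z ∈ Reals (cex (ext S G) r)) (h : Cod c y z) :
    ∃ ν ∈ f.dom, z = ev (f.nm ν) G := by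
  have : Fact (Luz S W c) := ⟨hL⟩
  have hP : Po S (PP c f) (CLe c) := po_pp f
  have hGt : Gt S (PP c f) (CLe c) G := gt_iff_gen.2 hG
  have hrS : Coh S r := hr.mono (sub_ext hP hGt)
  have hm : Mdl (cex S r) := mdl_cex hrS
  have hs : S ⊆ cex S r := sub_cex hrS
  let _ : Cd (cex S r) W := CdUp hs W
  have : Cx S (cex S r) W := cx_up hs W
  have : Om1 (cex S r) W := om1_cex hrS
  have hL' : Luz (cex S r) W c := luz_cex hL hrS
  have : Fact (Luz (cex S r) W c) := ⟨hL'⟩
  have hGt' : Gt (cex S r) (PP c f) (CLe c) G := gt_of_coh_ext hP hGt hr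
  have hG' : Gen c (plUp hs f) G := (gen_plUp hs f).2 hGt'
  have hf' : Valid c (plUp hs f) := valid_plUp hs hf
  have hR : Reals (cex (ext S G) r) = RR c (plUp hs f) G := by
    rw [cex_ext_comm hP hGt hr]
    exact reals_ext_plan hf' hG'
  rw [hR] at hy hz
  obtain ⟨ν, hν, e⟩ := nuc hf' hG' hy hz h
  exact ⟨ν, hν, e⟩

end Pool.Agent.H.MP_20495c_lc
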