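import Pool.Agent.H.MP_20495c_lc.Base
import Pool.Agent.H.MP_a163f2_lc.PowDefs

/-!
# Uniformization

`Unif R Γ`: the uniformization property of the class `Γ` of subsets of the plane over `R`.
`UnC R n`: the coded form of the uniformization property of the class Pi-1-n over `R`.
-/

set_option autoImplicit false

namespace Pool.Agent.H.MP_20495c_lc

open Pool.Agent.H.MP_07d118_lc Pool.Agent.H.MP_a163f2_lc

/-- The uniformization property of a class of sets of pairs of reals: every set `A` in the class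
contains a set `F` in the class which is the graph of a function with the same domain as `A`. -/
def Unif (Γ : Set (Fin 2 → ℕ → ℕ) → Prop) : Prop :=
  ∀ A, Γ A → ∃ F, Γ F ∧ F ⊆ A ∧ ∀ x y : ℕ → ℕ, ![x, y] ∈ A → ∃! z : ℕ → ℕ, ![x, z] ∈ F

/-- The set with the code `b`: the `z` such that `¬ TS R n b z`. Every set with a code is
uniformized by a set with a code. -/
def UnC (R : Set (ℕ → ℕ)) (n : ℕ) : Prop :=
  ∀ b ∈ R, ∃ b' ∈ R,
    (∀ x ∈ R, ∀ y ∈ R, ¬ TS R n b' (jn x y) → ¬ TS R n b (jn x y)) ∧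
    ∀ x ∈ R, ∀ y ∈ R, ¬ TS R n b (jn x y) → ∃ z ∈ R, ¬ TS R n b' (jn x z) ∧
      ∀ z' ∈ R, ¬ TS R n b' (jn x z') → z' = z

end Pool.Agent.H.MP_20495c_lc
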