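import Pool.Agent.H.MP_20495c_lc.Step2
import Pool.Agent.H.MP_20495c_lc.S.S7
import Pool.Agent.H.MP_a163f2_lc.R.D1

/-!
# The base case and the induction on the layers
-/

set_option autoImplicit false
set_option linter.unusedSectionVars false
set_option linter.style.haveILetI false

namespace Pool.Agent.H.MP_20495c_lc

open Pool.Agent.H.MP_07d118_lc Pool.Agent.H.MP_a163f2_lc

universe u v w x

section

variable {S : Set ZFSet.{0}} [Mdl S] {W : Type v} [LinearOrder W] [Cd S W] [Om1 S W]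
  {c : W × Hc → ℕ → ℕ}

theorem wcc_pp (hL : Luz S W c) (f : Pl S W) : Wcc S W (PP c f) (CLe c) := by
  intro p hp hV
  haveI : Fact (Luz S W c) := ⟨hL⟩
  obtain ⟨α, β, h1, h2, h3⟩ := ccc (c := c) hp
  exact ⟨α, β, h1, _, PP_cup (hV α) (hV β) h2 h3, h2, h3⟩

theorem ru_dir {DD : Set (Set (ℕ → ℕ))} (hDD : ∀ R ∈ DD, RU S W R) (hne : DD.Nonempty)
    (hd : DirectedOn (· ⊆ ·) DD) : RU S W (⋃₀ DD) where
  ground x hx := by
    obtain ⟨R, hR⟩ := hne
    exact ⟨R, hR, (hDD R hR).ground x hx⟩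
  comp := by
    rintro x ⟨R, hR, hx⟩ y ⟨R', hR', hy⟩
    obtain ⟨R'', hR'', h1, h2⟩ := hd R hR R' hR'
    exact ⟨R'', hR'', (hDD R'' hR'').comp x (h1 hx) y (h2 hy)⟩
  pair := by
    rintro x ⟨R, hR, hx⟩ y ⟨R', hR', hy⟩
    obtain ⟨R'', hR'', h1, h2⟩ := hd R hR R' hR'
    exact ⟨R'', hR'', (hDD R'' hR'').pair x (h1 hx) y (h2 hy)⟩
  jump := by
    rintro x ⟨R, hR, hx⟩
    exact ⟨R, hR, (hDD R hR).jump x hx⟩
  prec := by
    rintro x ⟨R, hR, hx⟩ a
    exact ⟨R, hR, (hDD R hR).prec x hx a⟩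
  mu := by
    rintro x ⟨R, hR, hx⟩ y hy
    exact ⟨R, hR, (hDD R hR).mu x hx y hy⟩
  del := by
    rintro a ⟨R, hR, ha⟩
    rcases (hDD R hR).del a ha with ⟨y, hy, h1⟩ | h1
    · exact Or.inl ⟨y, ⟨R, hR, hy⟩, h1⟩
    · exact Or.inr h1

/-- **The base case.** -/
theorem ai_base (hL : Luz S W c) (h3 : L3 S W c) : AI S 2 S c {R | RU S W R} := by
  haveI hF : Fact (Luz S W c) := ⟨hL⟩
  refine ⟨hL, fun DD h1 h2 h3 => ru_dir (fun R hR => h1 hR) h2 h3, fun R hR => hR, ?_, ?_, ?_, ?_,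
    ?_⟩
  · intro R hR x hx
    exact RU.ground hR x (mem_reals.1 hx)
  · intro R hR R' hR' hs
    exact el_two hR hR' hs
  · intro R hR
    exact h3 R hR
  · intro f G hf hG
    show RU S W (Reals (ext S G))
    rw [reals_ext_plan hf hG]
    exact RR_RU hf hG
  · intro f G hf hG _ r hr
    show RU S W (Reals (cex (ext S G) r))
    have hP : Po S (PP c f) (CLe c) := po_pp (c := c) f
    have hGt : Gt S (PP c f) (CLe c) G := gt_iff_gen.2 hG
    have h1 : S ⊆ ext S G := sub_ext hP hGt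
    letI : Cd (ext S G) W := CdUp h1 W
    haveI : Cx S (ext S G) W := cx_up h1 W
    haveI : Om1 (ext S G) W := om1_ext hP (wcc_pp hL f) hGt
    haveI := mdl_cex hr
    have h2 := sub_cex hr
    letI : Cd (cex (ext S G) r) W := CdUp h2 W
    haveI : Cx (ext S G) (cex (ext S G) r) W := cx_up h2 W
    haveI : Om1 (cex (ext S G) r) W := om1_cex hr
    exact ru_of_model (h1.trans h2)

/-- **The interface on all levels.** -/
theorem ai_all (hL : Luz S W c) (h3 : L3 S W c) (n : ℕ) :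
    ∃ (N : Set ZFSet.{0}) (_ : Mdl N) (_ : Cd N W) (_ : Om1 N W) (c' : W × Hc → ℕ → ℕ)
      (WW : Set (Set (ℕ → ℕ))), GExt S N ∧ Cx S N W ∧ AI S (n + 2) N c' WW := by
  induction n with
  | zero => exact ⟨S, inferInstance, inferInstance, inferInstance, c, _, GExt.refl S,
      inferInstance, ai_base hL h3⟩
  | succ n ih =>
    obtain ⟨N, i1, i2, i3, c', WW, h1, h2, h4⟩ := ih
    obtain ⟨N', j1, j2, j3, A, j4, j5, j6, c'', f, G, sp, h5⟩ := exists_step h4.luz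
    have h6 := ai_step (by omega) h5 (GExt.sub h5.gx) h4
    exact ⟨N', j1, j2, j3, c'', _, h1.trans h5.gx, cx_trans h2 h5.cxN, h6⟩

end

end Pool.Agent.H.MP_20495c_lc
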