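import Pool.Agent.H.MP_20495c_lc.B.UnifB
import Pool.Agent.H.MP_20495c_lc.Un0

/-!
# The coded form of uniformization from part (B)
-/

set_option autoImplicit false
set_option linter.unusedSectionVars false

namespace Pool.Agent.H.MP_20495c_lc

open Pool.Agent.H.MP_07d118_lc Pool.Agent.H.MP_a163f2_lc

universe v

theorem unC_of_unifPi {R : Set (ℕ → ℕ)} (hR : RC R) {n : ℕ} (h : UnifPi R n) : UnC R n := by
  intro b hb
  obtain ⟨B, hB, h1, h2⟩ := h {x | x ∈ R ∧ TS R n b x} ((sig_iff_TS hR n).2 ⟨b, hb, rfl⟩)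
  obtain ⟨b', hb', rfl⟩ := (sig_iff_TS hR n).1 hB
  have key : ∀ (a : ℕ → ℕ), ∀ x ∈ R, ∀ y ∈ R,
      (jn x y ∉ {x | x ∈ R ∧ TS R n a x} ↔ ¬ TS R n a (jn x y)) := by
    intro a x hx y hy
    have hxy := P5_jn_mem hR hx hy
    constructor
    · exact fun h h' => h ⟨hxy, h'⟩
    · exact fun h h' => h h'.2
  refine ⟨b', hb', fun x hx y hy h3 => ?_, fun x hx y hy h3 => ?_⟩
  · exact (key b x hx y hy).1 (h1 x hx y hy ((key b' x hx y hy).2 h3))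
  · obtain ⟨z, hz, h4, h5⟩ := h2 x hx ⟨y, hy, (key b x hx y hy).2 h3⟩
    exact ⟨z, hz, (key b' x hx z hz).1 h4, fun z' hz' h6 => h5 z' hz' ((key b' x hx z' hz').2 h6)⟩

theorem part_b {S₀ : Set ZFSet.{0}} [Mdl S₀] {W : Type v} [LinearOrder W] [Cd S₀ W] [Om1 S₀ W]
    {n : ℕ} (hn : 2 ≤ n) {S : Set ZFSet.{0}} [Mdl S] [Cd S W] [Om1 S W]
    {c : W × Hc → ℕ → ℕ} {WW : Set (Set (ℕ → ℕ))} (h : AI S₀ n S c WW) :
    ∃ N : Set ZFSet.{0}, GExt S N ∧ UnC (Reals N) (n + 1) := by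
  obtain ⟨N, h1, h2⟩ := unif_of_AI h (by omega)
  have hM : Mdl N := h1.mdl
  exact ⟨N, h1, unC_of_unifPi (RC_Reals hM.tr) h2⟩

end Pool.Agent.H.MP_20495c_lc
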