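import Pool.Agent.H.MP_20495c_lc.Un0
import Pool.Agent.H.MP_20495c_lc.Def
import Pool.Agent.H.MP_a163f2_lc.E.Pw

/-!
# The coded form of uniformization and the uniformization of subsets of the plane
-/

set_option autoImplicit false
set_option linter.unusedSectionVars false

namespace Pool.Agent.H.MP_20495c_lc

open Pool.Agent.H.MP_07d118_lc Pool.Agent.H.MP_a163f2_lc

theorem tup_one (x y : ℕ → ℕ) : tup 1 ![x, y] = jn x y := by
  funext n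
  show (![x, y] : Fin 2 → ℕ → ℕ) (Fin.ofNat 2 n) (n / 2) = if n % 2 = 0 then x (n / 2) else y (n / 2)
  rcases Nat.mod_two_eq_zero_or_one n with h | h
  · rw [if_pos h]
    have : Fin.ofNat 2 n = 0 := Fin.ext h
    rw [this]
    rfl
  · rw [if_neg (by omega)]
    have : Fin.ofNat 2 n = 1 := Fin.ext h
    rw [this]
    rfl

theorem eta_two (x : Fin 2 → ℕ → ℕ) : x = ![x 0, x 1] := by
  funext i
  fin_cases i <;> rfl

/-- Pi-1-n subsets of the plane are given by codes -/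
theorem piM_two_iff {R : Set (ℕ → ℕ)} (hR : RC R) (n : ℕ) {A : Set (Fin 2 → ℕ → ℕ)} :
    PiM R n 2 A ↔ ∃ b ∈ R, ∀ x y : ℕ → ℕ, ![x, y] ∈ A ↔ x ∈ R ∧ y ∈ R ∧ ¬ TS R n b (jn x y) := by
  have hpow : ∀ x y : ℕ → ℕ, (![x, y] : Fin 2 → ℕ → ℕ) ∈ Pow R 2 ↔ x ∈ R ∧ y ∈ R := by
    intro x y
    constructor
    · intro h
      exact ⟨h 0, h 1⟩
    · rintro ⟨h1, h2⟩ i
      fin_cases i
      · exact h1
      · exact h2
  have himg : ∀ {A : Set (Fin 2 → ℕ → ℕ)} (x y : ℕ → ℕ), jn x y ∈ tup 1 '' A ↔ ![x, y] ∈ A := by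
    intro A x y
    rw [← tup_one]
    exact Pw_mem_image 1 _
  constructor
  · intro h
    have hA : A ⊆ Pow R 2 := h.1
    obtain ⟨-, h1⟩ := (Pw_pi hR n 1 hA).1 h
    obtain ⟨b, hb, h2⟩ := (sig_iff_TS hR n).1 h1
    refine ⟨b, hb, fun x y => ?_⟩
    have h3 : ∀ z, (z ∈ R ∧ z ∉ tup 1 '' A) ↔ (z ∈ R ∧ TS R n b z) := fun z =>
      Set.ext_iff.1 h2 z
    have h4 := h3 (jn x y)
    rw [himg] at h4
    constructor
    · intro hxy
      have h5 := (hpow x y).1 (hA hxy)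
      exact ⟨h5.1, h5.2, fun hT => (h4.2 ⟨P5_jn_mem hR h5.1 h5.2, hT⟩).2 hxy⟩
    · rintro ⟨hx, hy, hT⟩
      by_contra hc
      exact hT (h4.1 ⟨P5_jn_mem hR hx hy, hc⟩).2
  · rintro ⟨b, hb, h⟩
    have hA : A ⊆ Pow R 2 := by
      intro x hx
      rw [eta_two x] at hx ⊢
      have h1 := (h _ _).1 hx
      exact (hpow _ _).2 ⟨h1.1, h1.2.1⟩
    refine (Pw_pi hR n 1 hA).2 ⟨fun z hz => ((Pw_image hR 1 hA z).1 hz).1,
      (sig_iff_TS hR n).2 ⟨b, hb, ?_⟩⟩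
    ext z
    have hz2 : z = jn (utup 1 z 0) (utup 1 z 1) := by
      rw [← tup_one, ← eta_two, tup_utup]
    constructor
    · rintro ⟨h1, h2⟩
      refine ⟨h1, ?_⟩
      by_contra hc
      apply h2
      have h3 : utup 1 z ∈ Pow R 2 := by
        rw [← tup_mem hR, tup_utup]
        exact h1
      rw [hz2, himg]
      exact (h _ _).2 ⟨h3 0, h3 1, by rw [← hz2]; exact hc⟩
    · rintro ⟨h1, h2⟩
      refine ⟨h1, fun hc => ?_⟩
      rw [hz2, himg] at hc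
      exact ((h _ _).1 hc).2.2 (by rw [← hz2]; exact h2)

theorem unif_of_unC {R : Set (ℕ → ℕ)} (hR : RC R) {n : ℕ} (h : UnC R n) : Unif (PiM R n 2) := by
  intro A hA
  obtain ⟨b, hb, h1⟩ := (piM_two_iff hR n).1 hA
  obtain ⟨b', hb', h2, h3⟩ := h b hb
  refine ⟨{x | x 0 ∈ R ∧ x 1 ∈ R ∧ ¬ TS R n b' (jn (x 0) (x 1))},
    (piM_two_iff hR n).2 ⟨b', hb', fun x y => Iff.rfl⟩, ?_, ?_⟩
  · rintro x ⟨h4, h5, h6⟩
    rw [eta_two x]
    exact (h1 _ _).2 ⟨h4, h5, h2 _ h4 _ h5 h6⟩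
  · intro x y hxy
    obtain ⟨hx, hy, h4⟩ := (h1 x y).1 hxy
    obtain ⟨z, hz, h5, h6⟩ := h3 x hx y hy h4
    exact ⟨z, ⟨hx, hz, h5⟩, fun z' hz' => h6 z' hz'.2.1 hz'.2.2⟩

end Pool.Agent.H.MP_20495c_lc
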