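import Pool.Agent.H.MP_20495c_lc.Fin0
import Pool.Agent.H.MP_20495c_lc.Un1
import Pool.Agent.H.MP_20495c_lc.PB
import Pool.Agent.H.MP_20495c_lc.IT.Below
import Pool.Agent.H.MP_20495c_lc.Ind
import Pool.Agent.H.MP_20495c_lc.G.Main

/-!
# MP_20495c_lc: the final theorem
-/

set_option autoImplicit false
set_option linter.unusedSectionVars false

namespace Pool.Agent.H.MP_20495c_lc

open Pool.Agent.H.MP_07d118_lc Pool.Agent.H.MP_a163f2_lc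

universe v

/-- the extension by a generic filter is the least model -/
theorem isGext_gext {M : Set ZFSet.{0}} [Mdl M] {P L G : ZFSet.{0}} (hP : P ∈ M) (hL : L ∈ M)
    (h : IsPre P L) (hG : Generic M P L {x | x ∈ G}) : IsGext M G (gext M {x | x ∈ G}) := by
  have hE : GExt M (gext M {x | x ∈ G}) :=
    ⟨P, hP, L, hL, h.refl, h.trans, {x | x ∈ G}, hG, rfl⟩
  have hM : Mdl (gext M {x | x ∈ G}) := hE.mdl
  have hPo := po_sets (P := ⟨P, hP⟩) (L := ⟨L, hL⟩) h.refl h.trans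
  have hGt := gt_sets (P := ⟨P, hP⟩) (L := ⟨L, hL⟩) hG
  have hN := gext_eq (S := M) (P := ⟨P, hP⟩) (G := {x | x ∈ G}) hG.sub
  refine ⟨hM.tr, hM.zfc, hE.sub, ?_, fun N' h1 h2 h3 h4 =>
    gext_sub (g := G) h1 h3 h4 fun x _ => Iff.rfl⟩
  let _ := CdUp hE.sub (MP_07d118_lc.El (⟨P, hP⟩ : M))
  have hcx : Cx M (gext M {x | x ∈ G}) (MP_07d118_lc.El (⟨P, hP⟩ : M)) := cx_up hE.sub _
  have h1 := In_gen hPo hGt hN
  have h2 : (((ISet.mk h1).cod : gext M {x | x ∈ G}) : ZFSet.{0}) = G := by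
    refine ZFSet.ext fun z => ?_
    rw [mem_cod_val]
    constructor
    · rintro ⟨p, hp, rfl⟩
      rw [← hcx.eq p]
      exact hp
    · intro hz
      have hz' : z ∈ {x | x ∈ G} := hz
      rw [← cds_sG (S := M) (P := ⟨P, hP⟩) hG.sub] at hz'
      obtain ⟨p, hp, e⟩ := hz'
      exact ⟨p, hp, (hcx.eq p).symm.trans e⟩
  have h3 := ((ISet.mk h1).cod : gext M {x | x ∈ G}).2
  rwa [h2] at h3

theorem exists_unC {M : Set ZFSet.{0}} [Mdl M] (hV : VL M) (n : ℕ) :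
    ∃ N : Set ZFSet.{0}, GExt M N ∧ UnC (Reals N) (n + 3) := by
  obtain ⟨W, i1, i2, i3, c, h1, h2⟩ := ground_vl hV
  obtain ⟨N, j1, j2, j3, c', WW, h3, h4, h5⟩ := ai_all h1 h2 n
  obtain ⟨N', h6, h7⟩ := part_b (by omega) h5
  exact ⟨N', h3.trans h6, h7⟩

/-- **The final theorem.** -/
theorem final {M : Set ZFSet.{0}} (hT : Trans M) (hc : M.Countable) (hZ : ZFC M) (hV : VL M)
    {n : ℕ} (hn : 3 ≤ n) : ∃ P ∈ M, ∃ L ∈ M, IsPre P L ∧
      ∀ G : ZFSet.{0}, Generic M P L {x | x ∈ G} →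
        ∃ N : Set ZFSet.{0}, IsGext M G N ∧ Unif (PiM (Reals N) n 2) := by
  have : Mdl M := ⟨hT, hc, hZ⟩
  obtain ⟨n, rfl⟩ := Nat.exists_eq_add_of_le' hn
  obtain ⟨N, h1, h2⟩ := exists_unC hV n
  obtain ⟨P, hP, L, hL, h3, h4, h5, h6⟩ := exists_forcing h1 h2
  refine ⟨P, hP, L, hL, ⟨h3, h4, h5⟩, fun G hG => ⟨gext M {x | x ∈ G},
    isGext_gext hP hL ⟨h3, h4, h5⟩ hG, ?_⟩⟩
  have hE : GExt M (gext M {x | x ∈ G}) := ⟨P, hP, L, hL, h4, h5, {x | x ∈ G}, hG, rfl⟩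
  have hM : Mdl (gext M {x | x ∈ G}) := hE.mdl
  exact unif_of_unC (RC_Reals hM.tr) (h6 _ hG)

end Pool.Agent.H.MP_20495c_lc
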