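import Pool.Agent.H.MP_a163f2_lc.PowDefs
import Pool.Agent.H.MP_20495c_lc.Un0

/-!
# MP_20495c_lc: definitions used in the statement of the final theorem
-/

set_option autoImplicit false

namespace Pool.Agent.H.MP_20495c_lc

open Pool.Agent.H.MP_07d118_lc Pool.Agent.H.MP_a163f2_lc

/-- `N` is the extension of the model `M` by the set `G`: the least transitive model of ZFC which
contains `G` and all the elements of `M`. -/
structure IsGext (M : Set ZFSet.{0}) (G : ZFSet.{0}) (N : Set ZFSet.{0}) : Prop where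
  tr : Trans N
  zfc : ZFC N
  sub : M ⊆ N
  mem : G ∈ N
  least : ∀ N' : Set ZFSet.{0}, Trans N' → ZF N' → M ⊆ N' → G ∈ N' → N ⊆ N'

/-- `L` is a preorder on the nonempty set `P` (`L` contains the pair `(p, q)` if `p` is stronger
than `q`). -/
structure IsPre (P L : ZFSet.{0}) : Prop where
  ne : ∃ p, p ∈ P
  refl : ∀ p ∈ P, ZFSet.pair p p ∈ L
  trans : ∀ p ∈ P, ∀ q ∈ P, ∀ r ∈ P, ZFSet.pair p q ∈ L → ZFSet.pair q r ∈ L → ZFSet.pair p r ∈ L

end Pool.Agent.H.MP_20495c_lc
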