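import Pool.Agent.H.MP_20495c_lc.Co1

/-!
# The Luzin property is preserved by adding a Cohen real
-/

set_option autoImplicit false
set_option linter.unusedSectionVars false

namespace Pool.Agent.H.MP_20495c_lc

open Pool.Agent.H.MP_07d118_lc Pool.Agent.H.MP_a163f2_lc

universe u v w x

section aux

variable {S : Set ZFSet.{0}} [Mdl S] {W : Type v} [LinearOrder W] [Cd S W]
  {c : W × Hc → ℕ → ℕ} {T : Type w} [Cd S T]

/-- a tuple extends another tuple -/
theorem LuzC_ext {s t : T → List Fs} (hs : IF S s) (ht : IF S t) :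
    In S (fun y => List.Forall₂ (fun a a' : Fs => a <+: a') (s y) (t y)) := by
  have hl : ∀ {f : T → List Fs}, IF S f → IF S (fun y => (f y).length) := fun hf =>
    IF.comp (g := fun l : List Fs => l.length) (IF.prim Primrec.list_length) hf
  have hg : ∀ {f : T → List Fs}, IF S f → IF S (fun y : T × ℕ => (f y.1).getD y.2 []) := fun hf =>
    IF.prim2 (F := fun (l : List Fs) (j : ℕ) => l.getD j []) (Primrec.list_getD [])
      (IF.comp hf IF.fst) IF.snd
  have hl1 : IF S (fun y : T × ℕ => (s y.1).length) := IF.comp (hl hs) IF.fst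
  refine (In.and (In.eq (hl hs) (hl ht)) (In.all (P := fun (y : T) (i : ℕ) =>
    i < (s y).length → (s y).getD i [] <+: (t y).getD i [])
    (In.imp (In.lt IF.snd hl1) (In.ipre (hg hs) (hg ht))))).congr fun y => ?_
  rw [List.forall₂_iff_get]
  constructor
  · rintro ⟨h1, h2⟩
    refine ⟨h1, fun i hi => ?_⟩
    have h3 := h2 i hi (h1 ▸ hi)
    rw [List.getD_eq_getElem _ _ hi, List.getD_eq_getElem _ _ (h1 ▸ hi)]
    exact h3
  · rintro ⟨h1, h2⟩
    refine ⟨h1, fun i hi hi' => ?_⟩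
    have h3 := h2 i hi
    rw [List.getD_eq_getElem _ _ hi, List.getD_eq_getElem _ _ hi'] at h3
    exact h3

/-- the members of the family with indices in a given list begin with the given tuple -/
theorem LuzC_pre (hc : IF S (fun y : (W × Hc) × ℕ => c y.1 y.2)) (k : List (W × Hc)) :
    In S (fun t : List Fs => List.Forall₂ (fun κ u => Pre (c κ) u) k t) := by
  induction k with
  | nil => exact (In.eq IF.id (IF.const [])).congr fun t => by simp
  | cons κ k ih =>
    have h1 : IF S (fun y : (List Fs × Fs) × List Fs => y.1.2 :: y.2) :=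
      IF.prim2 (F := fun (a : Fs) (l : List Fs) => a :: l) Primrec.list_cons
        (IF.comp IF.snd IF.fst) IF.snd
    have h2 : In S (fun y : (List Fs × Fs) × List Fs => Pre (c κ) y.1.2) := by
      refine In.pre (x := fun _ => c κ) ?_ (IF.comp IF.snd IF.fst)
      exact IF.comp hc ((IF.const κ).pair IF.snd)
    refine (In.ex (P := fun (t : List Fs) (u : Fs) => ∃ t' : List Fs, t = u :: t' ∧
      Pre (c κ) u ∧ List.Forall₂ (fun κ u => Pre (c κ) u) k t')
      (In.ex (P := fun (y : List Fs × Fs) (t' : List Fs) => y.1 = y.2 :: t' ∧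
        Pre (c κ) y.2 ∧ List.Forall₂ (fun κ u => Pre (c κ) u) k t')
        ((In.eq (IF.comp IF.fst IF.fst) h1).and (h2.and (ih.comp IF.snd))))).congr fun t => ?_
    constructor
    · intro h
      cases h with
      | cons h3 h4 => exact ⟨_, _, rfl, h3, h4⟩
    · rintro ⟨u, t', rfl, h3, h4⟩
      exact List.Forall₂.cons h3 h4

end aux

/-- Proof.  Let `Φ` be internal in `S[r]`, `R` a name of it in `S`.  Apply the Luzin property in
`S` to `Φ' (ζ, (n, s)) = {t : ∃ s' ⊇ s, (((ζ, n), t), s') ∈ R}`.  If `Φ (ζ, n)` is dense, this is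
forced by some `s₀` in `r`, so `Φ' (ζ, (n, s))` is dense for all `s ⊇ s₀`, and so the set of the
`s'` such that for some `t` with `Forall₂ Pre (c k) t` the triple is in `R` is dense below `s₀`,
and in `S`; `r` meets it. -/
theorem luz_cex {S : Set ZFSet.{0}} [Mdl S] {W : Type v} [LinearOrder W] [Cd S W] [Om1 S W]
    {c : W × Hc → ℕ → ℕ} (hL : Luz S W c) {r : ℕ → ℕ} (hr : Coh S r) [Mdl (cex S r)]
    [Cd (cex S r) W] [Cx S (cex S r) W] : Luz (cex S r) W c where
  int := IF.lift (sub_cex hr) hL.int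
  inj := hL.inj
  pre := hL.pre
  luz := by
    intro Φ hΦ ζ₀
    obtain ⟨R, hR⟩ := (in_cex_iff hr (T := (W × ℕ) × List Fs) (B := fun y => y.2 ∈ Φ y.1)).1
      (In.mem IF.snd (IF.comp hΦ IF.fst))
    -- the relation: below `s'` there is a condition which puts `t` into the set
    have hq : In S (fun y : ((W × ℕ) × List Fs) × Fs => ∃ u : Fs, u <+: y.2 ∧ (y.1, u) ∈ R) :=
      In.ex (P := fun (y : ((W × ℕ) × List Fs) × Fs) (u : Fs) => u <+: y.2 ∧ (y.1, u) ∈ R)
        ((In.ipre IF.snd (IF.comp IF.snd IF.fst)).and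
          (R.in_mem.comp ((IF.comp IF.fst IF.fst).pair IF.snd)))
    have hin : In S (fun y : (W × ℕ) × List Fs => ∃ z : ℕ × Fs, Encodable.encode z = y.1.2 ∧
        ∃ s' : Fs, z.2 <+: s' ∧ ∃ u : Fs, u <+: s' ∧ (((y.1.1, z.1), y.2), u) ∈ R) := by
      refine In.ex (P := fun (y : (W × ℕ) × List Fs) (z : ℕ × Fs) => Encodable.encode z = y.1.2 ∧
        ∃ s' : Fs, z.2 <+: s' ∧ ∃ u : Fs, u <+: s' ∧ (((y.1.1, z.1), y.2), u) ∈ R) ?_
      refine In.and (In.eq (IF.comp (g := fun z : ℕ × Fs => Encodable.encode z)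
        (IF.prim Primrec.encode) IF.snd) (IF.comp IF.snd (IF.comp IF.fst IF.fst))) ?_
      refine In.ex (P := fun (y : ((W × ℕ) × List Fs) × (ℕ × Fs)) (s' : Fs) => y.2.2 <+: s' ∧
        ∃ u : Fs, u <+: s' ∧ (((y.1.1.1, y.2.1), y.1.2), u) ∈ R) ?_
      refine In.and (In.ipre (IF.comp IF.snd (IF.comp IF.snd IF.fst)) IF.snd) ?_
      exact hq.comp (f := fun y : (((W × ℕ) × List Fs) × (ℕ × Fs)) × Fs =>
        (((y.1.1.1.1, y.1.2.1), y.1.1.2), y.2))
        ((((IF.comp IF.fst (IF.comp IF.fst (IF.comp IF.fst IF.fst))).pair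
          (IF.comp IF.fst (IF.comp IF.snd IF.fst))).pair
          (IF.comp IF.snd (IF.comp IF.fst IF.fst))).pair IF.snd)
    obtain ⟨ξ₀, h1, h2⟩ := hL.luz (ISet.sec (P := fun (y : W × ℕ) (t : List Fs) =>
      ∃ z : ℕ × Fs, Encodable.encode z = y.2 ∧
        ∃ s' : Fs, z.2 <+: s' ∧ ∃ u : Fs, u <+: s' ∧ (((y.1, z.1), t), u) ∈ R) hin)
      (IF.sec hin) ζ₀
    refine ⟨ξ₀, h1, fun ζ hζ n k hk1 hk2 hD => ?_⟩
    -- the density is forced
    have hd : In S (fun y : List Fs × Fs => ∃ t : List Fs,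
        List.Forall₂ (fun a a' : Fs => a <+: a') y.1 t ∧
          ∃ u : Fs, u <+: y.2 ∧ (((ζ, n), t), u) ∈ R) := by
      refine In.ex (P := fun (y : List Fs × Fs) (t : List Fs) =>
        List.Forall₂ (fun a a' : Fs => a <+: a') y.1 t ∧
          ∃ u : Fs, u <+: y.2 ∧ (((ζ, n), t), u) ∈ R) ?_
      refine In.and (LuzC_ext (IF.comp IF.fst IF.fst) IF.snd) ?_
      exact hq.comp (f := fun y : (List Fs × Fs) × List Fs => (((ζ, n), y.2), y.1.2))
        (((IF.const (ζ, n)).pair IF.snd).pair (IF.comp IF.snd IF.fst))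
    have hlen : IF S (fun l : List Fs => l.length) := IF.prim Primrec.list_length
    obtain ⟨s₀, hE, hs₀⟩ := hr (ISet.mk (P := fun s : Fs =>
        (∀ s₁ : Fs, s <+: s₁ → ∀ v : List Fs, v.length = k.length → ∃ s' : Fs, s₁ <+: s' ∧
          ∃ t : List Fs, List.Forall₂ (fun a a' : Fs => a <+: a') v t ∧
            ∃ u : Fs, u <+: s' ∧ (((ζ, n), t), u) ∈ R) ∨
        (∃ v : List Fs, v.length = k.length ∧ ∀ s' : Fs, s <+: s' →
          ¬ ∃ t : List Fs, List.Forall₂ (fun a a' : Fs => a <+: a') v t ∧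
            ∃ u : Fs, u <+: s' ∧ (((ζ, n), t), u) ∈ R))
      (In.or
        (In.all (P := fun (s : Fs) (s₁ : Fs) => s <+: s₁ → ∀ v : List Fs, v.length = k.length →
          ∃ s' : Fs, s₁ <+: s' ∧
            ∃ t : List Fs, List.Forall₂ (fun a a' : Fs => a <+: a') v t ∧
              ∃ u : Fs, u <+: s' ∧ (((ζ, n), t), u) ∈ R)
          ((In.ipre IF.fst IF.snd).imp
            (In.all (P := fun (y : Fs × Fs) (v : List Fs) => v.length = k.length →
              ∃ s' : Fs, y.2 <+: s' ∧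
                ∃ t : List Fs, List.Forall₂ (fun a a' : Fs => a <+: a') v t ∧
                  ∃ u : Fs, u <+: s' ∧ (((ζ, n), t), u) ∈ R)
              ((In.eq (IF.comp hlen IF.snd) (IF.const k.length)).imp
                (In.ex (P := fun (y : (Fs × Fs) × List Fs) (s' : Fs) => y.1.2 <+: s' ∧
                  ∃ t : List Fs, List.Forall₂ (fun a a' : Fs => a <+: a') y.2 t ∧
                    ∃ u : Fs, u <+: s' ∧ (((ζ, n), t), u) ∈ R)
                  ((In.ipre (IF.comp IF.snd (IF.comp IF.fst IF.fst)) IF.snd).and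
                    (hd.comp ((IF.comp IF.snd IF.fst).pair IF.snd))))))))
        (In.ex (P := fun (s : Fs) (v : List Fs) => v.length = k.length ∧ ∀ s' : Fs, s <+: s' →
          ¬ ∃ t : List Fs, List.Forall₂ (fun a a' : Fs => a <+: a') v t ∧
            ∃ u : Fs, u <+: s' ∧ (((ζ, n), t), u) ∈ R)
          ((In.eq (IF.comp hlen IF.snd) (IF.const k.length)).and
            (In.all (P := fun (y : Fs × List Fs) (s' : Fs) => y.1 <+: s' →
              ¬ ∃ t : List Fs, List.Forall₂ (fun a a' : Fs => a <+: a') y.2 t ∧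
                ∃ u : Fs, u <+: s' ∧ (((ζ, n), t), u) ∈ R)
              ((In.ipre (IF.comp IF.fst IF.fst) IF.snd).imp
                (hd.comp ((IF.comp IF.snd IF.fst).pair IF.snd)).not)))))) (by
      intro s
      by_cases h3 : ∃ s₁ : Fs, s <+: s₁ ∧ ∃ v : List Fs, v.length = k.length ∧
          ∀ s' : Fs, s₁ <+: s' →
          ¬ ∃ t : List Fs, List.Forall₂ (fun a a' : Fs => a <+: a') v t ∧
            ∃ u : Fs, u <+: s' ∧ (((ζ, n), t), u) ∈ R
      · obtain ⟨s₁, h4, v, h5, h6⟩ := h3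
        exact ⟨s₁, h4, Or.inr ⟨v, h5, h6⟩⟩
      · refine ⟨s, List.prefix_rfl, Or.inl fun s₁ h4 v h5 => ?_⟩
        by_contra h6
        exact h3 ⟨s₁, h4, v, h5, fun s' h7 h8 => h6 ⟨s', h7, h8⟩⟩)
    rcases hE with hE | ⟨v, hv, hE⟩
    · -- the set of the good `s'` is dense below `s₀`
      have hD' : In S (fun s' : Fs => ∃ t : List Fs,
          List.Forall₂ (fun κ u => Pre (c κ) u) k t ∧
            ∃ u : Fs, u <+: s' ∧ (((ζ, n), t), u) ∈ R) := by
        refine In.ex (P := fun (s' : Fs) (t : List Fs) =>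
          List.Forall₂ (fun κ u => Pre (c κ) u) k t ∧
            ∃ u : Fs, u <+: s' ∧ (((ζ, n), t), u) ∈ R) ?_
        refine In.and ((LuzC_pre hL.int k).comp IF.snd) ?_
        exact hq.comp (f := fun y : Fs × List Fs => (((ζ, n), y.2), y.1))
          (((IF.const (ζ, n)).pair IF.snd).pair IF.fst)
      obtain ⟨s', ⟨t, h3, u, h4, h5⟩, h6, -⟩ := hr.below hD' hs₀ (by
        intro s hs
        obtain ⟨t, ⟨z, hz, s', h3, u, h4, h5⟩, h6⟩ := h2 ζ hζ (Encodable.encode (n, s)) k hk1 hk2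
          (by
            intro v hv
            obtain ⟨s', h3, t, h4, u, h5, h6⟩ := hE s hs v hv
            exact ⟨t, ⟨(n, s), rfl, s', h3, u, h5, h6⟩, h4⟩)
        have hz' : z = (n, s) := Encodable.encode_injective hz
        subst hz'
        exact ⟨s', h3, t, h6, u, h4, h5⟩)
      exact ⟨t, (hR ((ζ, n), t)).2 ⟨u, h6.of_prefix h4, h5⟩, h3⟩
    · obtain ⟨t, h3, h4⟩ := hD v hv
      obtain ⟨u, h5, h6⟩ := (hR ((ζ, n), t)).1 h3
      rcases Pre.comparable hs₀ h5 with h7 | h7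
      · exact absurd ⟨t, h4, u, List.prefix_rfl, h6⟩ (hE u h7)
      · exact absurd ⟨t, h4, u, h7, h6⟩ (hE s₀ List.prefix_rfl)

end Pool.Agent.H.MP_20495c_lc
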