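import Pool.Agent.H.MP_20495c_lc.TE

/-!
# Block Om: preservation of the first uncountable ordinal; closure of the reals of a model
-/

set_option autoImplicit false
set_option linter.unusedSectionVars false

namespace Pool.Agent.H.MP_20495c_lc

open Pool.Agent.H.MP_07d118_lc Pool.Agent.H.MP_a163f2_lc

universe u v w x

/-- the countable chain condition for internal families indexed by `W` -/
def Wcc (S : Set ZFSet.{0}) [Mdl S] (W : Type w) [LinearOrder W] [Cd S W] {P : Type v} [Cd S P]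
    (V : Set P) (le : P → P → Prop) : Prop :=
  ∀ p : W → P, IF S p → (∀ α, p α ∈ V) → ∃ α β, α < β ∧ ∃ r ∈ V, le r (p α) ∧ le r (p β)

section

variable {S : Set ZFSet.{0}} [Mdl S] {W : Type w} [LinearOrder W] [Cd S W] [Om1 S W]
  {P : Type v} [Cd S P] {V : Set P} {le : P → P → Prop} {G : Set P}

/-- no internal function from `W` to `ℕ` is injective -/
theorem Om_noinj {f : W → ℕ} (hf : IF S f) : ¬ Function.Injective f := by
  intro hi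
  obtain ⟨ζ⟩ := Om1.ne (M := S) (W := W)
  obtain ⟨e, he, -, h2⟩ := ICt.enum (M := S) (A := (Set.univ : Set W)) ⟨f, hf, hi.injOn⟩
    (In.congr (In.const True) fun t => by simp) ⟨ζ, Set.mem_univ _⟩
  obtain ⟨α, hα⟩ := Om1.bdd (M := S) e he
  obtain ⟨n, hn⟩ := h2 α (Set.mem_univ _)
  have := hα n
  rw [hn] at this
  exact lt_irrefl _ this

/-- an unbounded internal family has a strictly increasing internal enumeration by `W` -/
theorem Om_enum (F : ISet S (W × P)) (hF : ∀ ζ : W, ∃ z : W × P, z ∈ F ∧ ζ ≤ z.1) :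
    ∃ H : W → W × P, IF S H ∧ ∀ α, H α ∈ F ∧ ∀ β < α, (H β).1 < (H α).1 := by
  have hR1 : In S (fun y : ISet S (W × (W × P)) × (W × P) => y.2 ∈ F ∧
      ∀ x : W × (W × P), x ∈ y.1 → x.2.1 < y.2.1) := by
    refine In.and (In.mem IF.snd (IF.const F)) ?_
    refine In.all (P := fun (y : ISet S (W × (W × P)) × (W × P)) (x : W × (W × P)) =>
      x ∈ y.1 → x.2.1 < y.2.1) (In.imp ?_ ?_)
    · exact In.mem IF.snd (IF.comp IF.fst IF.fst)
    · exact In.ltW (IF.comp IF.fst (IF.comp IF.snd IF.snd))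
        (IF.comp IF.fst (IF.comp IF.snd IF.fst))
  have hR2 : In S (fun y : ISet S (W × (W × P)) => ∃ z : W × P, z ∈ F ∧
      ∀ x : W × (W × P), x ∈ y → x.2.1 < z.1) :=
    In.ex (P := fun (y : ISet S (W × (W × P))) (z : W × P) => z ∈ F ∧
      ∀ x : W × (W × P), x ∈ y → x.2.1 < z.1) hR1
  obtain ⟨ζ⟩ := Om1.ne (M := S) (W := W)
  obtain ⟨z₀, hz₀, -⟩ := hF ζ
  obtain ⟨Ψ, hΨ, hΨR⟩ := In.choice (R := fun (y : ISet S (W × (W × P))) (z : W × P) =>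
    (∃ z : W × P, z ∈ F ∧ ∀ x : W × (W × P), x ∈ y → x.2.1 < z.1) →
      z ∈ F ∧ ∀ x : W × (W × P), x ∈ y → x.2.1 < z.1)
    (In.imp (hR2.comp IF.fst) hR1) (fun y => by
      by_cases h : ∃ z : W × P, z ∈ F ∧ ∀ x : W × (W × P), x ∈ y → x.2.1 < z.1
      · obtain ⟨z, hz⟩ := h
        exact ⟨z, fun _ => hz⟩
      · exact ⟨z₀, fun h' => absurd h' h⟩)
  obtain ⟨H, hH, hrec⟩ := exists_rec (M := S) (T := W × P) (Om1.lt_in (M := S) (W := W))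
    (Om1.wf (M := S)) (fun a b c h h' => lt_trans h h') (Φ := fun y => Ψ y.2)
    (IF.comp hΨ IF.snd)
  refine ⟨H, hH, fun α => ?_⟩
  induction α using (Om1.wf (M := S) (W := W)).induction with
  | _ α ih =>
    obtain ⟨h, hα⟩ := hrec α
    have hmem : ∀ x : W × (W × P), x ∈ ISet.mk h ↔ x.1 < α ∧ H x.1 = x.2 := fun x => Iff.rfl
    have hex : ∃ z : W × P, z ∈ F ∧ ∀ x : W × (W × P), x ∈ ISet.mk h → x.2.1 < z.1 := by
      obtain ⟨ζ, hζ⟩ := ICt.bdd (M := S) (ICt.below α) (In.ltW IF.id (IF.const α))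
        (IF.comp IF.fst hH)
      obtain ⟨z, hz, hz'⟩ := hF ζ
      refine ⟨z, hz, fun x hx => ?_⟩
      obtain ⟨h1, h2⟩ := (hmem x).1 hx
      rw [← h2]
      exact (hζ _ h1).trans_le hz'
    have h1 := hΨR (ISet.mk h) hex
    rw [hα]
    refine ⟨h1.1, fun β hβ => h1.2 (β, H β) ((hmem _).2 ⟨hβ, rfl⟩)⟩

/-- a consistent internal family of values in `W` is bounded -/
theorem wcc_bdd (_ : Po S V le) (hc : Wcc S W V le) (F : ISet S (W × P))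
    (hF : ∀ α p, (α, p) ∈ F → p ∈ V)
    (hcons : ∀ α p β q, (α, p) ∈ F → (β, q) ∈ F → ∀ r ∈ V, le r p → le r q → α = β) :
    ∃ ζ : W, ∀ α p, (α, p) ∈ F → α < ζ := by
  by_contra hno
  push Not at hno
  obtain ⟨H, hH, h1⟩ := Om_enum F fun ζ => by
    obtain ⟨α, p, h2, h3⟩ := hno ζ
    exact ⟨(α, p), h2, h3⟩
  obtain ⟨α, β, hαβ, r, hr, h2, h3⟩ := hc (fun α => (H α).2) (IF.comp IF.snd hH)
    (fun α => hF (H α).1 (H α).2 (h1 α).1)
  have h4 := hcons (H α).1 (H α).2 (H β).1 (H β).2 (h1 α).1 (h1 β).1 r hr h2 h3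
  have h5 := (h1 β).2 α hαβ
  rw [h4] at h5
  exact lt_irrefl _ h5

/-- boundedness of the functions of the extension -/
theorem Om_bdd (hP : Po S V le) (hc : Wcc S W V le) (hG : Gt S V le G) {f : ℕ → W}
    {R : ISet S ((ℕ × W) × P)} (hR : ∀ t : ℕ × W, f t.1 = t.2 ↔ ∃ p ∈ G, (t, p) ∈ R) :
    ∃ α, ∀ n, f n < α := by
  have hbad : In S (fun r : P => ∃ z : (ℕ × W) × (W × (P × P)), ¬ z.1.2 = z.2.1 ∧
      (z.1, z.2.2.1) ∈ R ∧ ((z.1.1, z.2.1), z.2.2.2) ∈ R ∧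
      (r ∈ V ∧ z.2.2.1 ∈ V ∧ le r z.2.2.1) ∧ (r ∈ V ∧ z.2.2.2 ∈ V ∧ le r z.2.2.2)) := by
    refine In.ex (P := fun (r : P) (z : (ℕ × W) × (W × (P × P))) => ¬ z.1.2 = z.2.1 ∧
      (z.1, z.2.2.1) ∈ R ∧ ((z.1.1, z.2.1), z.2.2.2) ∈ R ∧
      (r ∈ V ∧ z.2.2.1 ∈ V ∧ le r z.2.2.1) ∧ (r ∈ V ∧ z.2.2.2 ∈ V ∧ le r z.2.2.2)) ?_
    have h1 : IF S (fun y : P × ((ℕ × W) × (W × (P × P))) => y.2.2.2.1) :=
      IF.comp IF.fst (IF.comp IF.snd (IF.comp IF.snd IF.snd))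
    have h2 : IF S (fun y : P × ((ℕ × W) × (W × (P × P))) => y.2.2.2.2) :=
      IF.comp IF.snd (IF.comp IF.snd (IF.comp IF.snd IF.snd))
    have h3 : IF S (fun y : P × ((ℕ × W) × (W × (P × P))) => y.2.2.1) :=
      IF.comp IF.fst (IF.comp IF.snd IF.snd)
    have h4 : IF S (fun y : P × ((ℕ × W) × (W × (P × P))) => y.2.1) := IF.comp IF.fst IF.snd
    refine In.and (In.not (In.eq (IF.comp IF.snd h4) h3)) (In.and
      (In.mem (h4.pair h1) (IF.const R)) (In.and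
      (In.mem (((IF.comp IF.fst h4).pair h3).pair h2) (IF.const R)) (In.and ?_ ?_)))
    · exact hP.inle.comp (IF.fst.pair h1)
    · exact hP.inle.comp (IF.fst.pair h2)
  obtain ⟨bad, hbd⟩ : ∃ B : P → Prop, B = fun r : P => ∃ z : (ℕ × W) × (W × (P × P)),
      ¬ z.1.2 = z.2.1 ∧ (z.1, z.2.2.1) ∈ R ∧ ((z.1.1, z.2.1), z.2.2.2) ∈ R ∧
      (r ∈ V ∧ z.2.2.1 ∈ V ∧ le r z.2.2.1) ∧ (r ∈ V ∧ z.2.2.2 ∈ V ∧ le r z.2.2.2) := ⟨_, rfl⟩
  rw [← hbd] at hbad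
  have hD : In S (fun r : P => bad r ∨ ∀ r' : P, (r' ∈ V ∧ r ∈ V ∧ le r' r) → ¬ bad r') := by
    refine In.or hbad ?_
    exact In.all (P := fun (r r' : P) => (r' ∈ V ∧ r ∈ V ∧ le r' r) → ¬ bad r')
      (In.imp (hP.inle.comp (IF.snd.pair IF.fst)) (In.not (hbad.comp IF.snd)))
  obtain ⟨p₀, hp₀, hp₀D⟩ := hG.meets (ISet.mk hD) (by
    intro p hp
    by_cases h : ∃ r' : P, (r' ∈ V ∧ p ∈ V ∧ le r' p) ∧ bad r'
    · obtain ⟨r', ⟨h1, -, h2⟩, h3⟩ := h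
      exact ⟨r', h1, h2, Or.inl h3⟩
    · push Not at h
      exact ⟨p, hp, hP.refl p hp, Or.inr h⟩)
  have hp₀V := hG.sub p₀ hp₀
  have hgood : ∀ r' : P, (r' ∈ V ∧ p₀ ∈ V ∧ le r' p₀) → ¬ bad r' := by
    rcases hp₀D with h | h
    · exfalso
      rw [hbd] at h
      obtain ⟨z, h1, h2, h3, ⟨-, h4, h5⟩, -, h6, h7⟩ := h
      have e1 := (hR z.1).2 ⟨_, hG.up p₀ hp₀ _ h4 h5, h2⟩
      have e2 := (hR (z.1.1, z.2.1)).2 ⟨_, hG.up p₀ hp₀ _ h6 h7, h3⟩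
      exact h1 (e1.symm.trans e2)
    · exact h
  -- the possible values
  have hK : In S (fun y : ℕ × (W × P) => (y.2.2 ∈ V ∧ p₀ ∈ V ∧ le y.2.2 p₀) ∧
      ∃ p : P, ((y.1, y.2.1), p) ∈ R ∧ (y.2.2 ∈ V ∧ p ∈ V ∧ le y.2.2 p)) := by
    refine In.and (hP.inle.comp ((IF.comp IF.snd IF.snd).pair (IF.const p₀))) ?_
    refine In.ex (P := fun (y : ℕ × (W × P)) (p : P) => ((y.1, y.2.1), p) ∈ R ∧
      (y.2.2 ∈ V ∧ p ∈ V ∧ le y.2.2 p)) (In.and ?_ ?_)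
    · exact In.mem (((IF.comp IF.fst IF.fst).pair (IF.comp IF.fst (IF.comp IF.snd
        IF.fst))).pair IF.snd) (IF.const R)
    · exact hP.inle.comp ((IF.comp IF.snd (IF.comp IF.snd IF.fst)).pair IF.snd)
  have hZ : ∀ n : ℕ, ∃ ζ : W, ∀ y : W × P, ((y.2 ∈ V ∧ p₀ ∈ V ∧ le y.2 p₀) ∧
      ∃ p : P, ((n, y.1), p) ∈ R ∧ (y.2 ∈ V ∧ p ∈ V ∧ le y.2 p)) → y.1 < ζ := by
    intro n
    obtain ⟨ζ, hζ⟩ := wcc_bdd hP hc (ISet.sec (P := fun (n : ℕ) (y : W × P) =>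
      (y.2 ∈ V ∧ p₀ ∈ V ∧ le y.2 p₀) ∧
      ∃ p : P, ((n, y.1), p) ∈ R ∧ (y.2 ∈ V ∧ p ∈ V ∧ le y.2 p)) hK n)
      (fun α p h => h.1.1) (by
        rintro α p β q ⟨⟨hp, -, hpp⟩, p', h1, -, h2, h3⟩ ⟨⟨hq, -, -⟩, q', h4, -, h5, h6⟩ r hr h7 h8
        by_contra hne
        refine hgood r ⟨hr, hp₀V, hP.trans r hr p hp p₀ hp₀V h7 hpp⟩ ?_
        rw [hbd]
        exact ⟨((n, α), (β, (p', q'))), hne, h1, h4, ⟨hr, h2, hP.trans r hr p hp p' h2 h7 h3⟩,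
          ⟨hr, h5, hP.trans r hr q hq q' h5 h8 h6⟩⟩)
    exact ⟨ζ, fun y hy => hζ y.1 y.2 hy⟩
  obtain ⟨Z, hZi, hZR⟩ := In.choice (M := S) (R := fun (n : ℕ) (ζ : W) => ∀ y : W × P,
    ((y.2 ∈ V ∧ p₀ ∈ V ∧ le y.2 p₀) ∧
      ∃ p : P, ((n, y.1), p) ∈ R ∧ (y.2 ∈ V ∧ p ∈ V ∧ le y.2 p)) → y.1 < ζ) (by
    refine In.all (P := fun (y : ℕ × W) (x : W × P) => ((x.2 ∈ V ∧ p₀ ∈ V ∧ le x.2 p₀) ∧
      ∃ p : P, ((y.1, x.1), p) ∈ R ∧ (x.2 ∈ V ∧ p ∈ V ∧ le x.2 p)) → x.1 < y.2) (In.imp ?_ ?_)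
    · exact In.comp2 (P := fun (n : ℕ) (x : W × P) => (x.2 ∈ V ∧ p₀ ∈ V ∧ le x.2 p₀) ∧
        ∃ p : P, ((n, x.1), p) ∈ R ∧ (x.2 ∈ V ∧ p ∈ V ∧ le x.2 p)) hK (IF.comp IF.fst IF.fst)
        IF.snd
    · exact In.ltW (IF.comp IF.fst IF.snd) (IF.comp IF.snd IF.fst)) hZ
  obtain ⟨ξ, hξ⟩ := Om1.bdd (M := S) Z hZi
  refine ⟨ξ, fun n => ?_⟩
  obtain ⟨p, hp, h1⟩ := (hR (n, f n)).1 rfl
  obtain ⟨r, hr, h2, h3⟩ := hG.dir p hp p₀ hp₀
  have hrV := hG.sub r hr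
  exact (hZR n (f n, r) ⟨⟨hrV, hp₀V, h3⟩, p, h1, hrV, hG.sub p hp, h2⟩).trans (hξ n)

/-- `W` is the first uncountable ordinal of the extension -/
theorem om1_ext (hP : Po S V le) (hc : Wcc S W V le) (hG : Gt S V le G) [Mdl (ext S G)]
    [Cd (ext S G) W] [Cx S (ext S G) W] : Om1 (ext S G) W where
  ne := Om1.ne (M := S)
  wf := Om1.wf (M := S)
  lt_in := In.lift (sub_ext hP hG) (Om1.lt_in (M := S) (W := W))
  below := fun α => by
    obtain ⟨f, hf, hi⟩ := Om1.below (M := S) α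
    exact ⟨f, IF.lift (sub_ext hP hG) hf, hi⟩
  bdd := fun f hf => by
    obtain ⟨R, hR⟩ := (in_ext_iff hP hG).1 hf
    exact Om_bdd hP hc hG hR

theorem wcc_of_countable (hP : Po S V le) (h : ICt S V) : Wcc S W V le := by
  intro p hp hpV
  obtain ⟨g, hg, hi⟩ := h
  have h2 := Om_noinj (IF.comp hg hp)
  unfold Function.Injective at h2
  push Not at h2
  obtain ⟨a, b, hab, hne⟩ := h2
  have e : p a = p b := hi (hpV a) (hpV b) hab
  rcases lt_or_gt_of_ne hne with h | h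
  · exact ⟨a, b, h, p a, hpV a, hP.refl _ (hpV a), e ▸ hP.refl _ (hpV a)⟩
  · exact ⟨b, a, h, p a, hpV a, e ▸ hP.refl _ (hpV a), hP.refl _ (hpV a)⟩

/-- submodels -/
theorem om1_sub {N : Set ZFSet.{0}} [Mdl N] (_ : S ⊆ N) [Cd N W] [Cx S N W] [Om1 N W]
    {A : Set ZFSet.{0}} [Mdl A] (h1 : S ⊆ A) (h2 : A ⊆ N) [Cd A W] [Cx S A W] : Om1 A W where
  ne := Om1.ne (M := S)
  wf := Om1.wf (M := S)
  lt_in := In.lift h1 (Om1.lt_in (M := S) (W := W))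
  below := fun α => by
    obtain ⟨f, hf, hi⟩ := Om1.below (M := S) α
    exact ⟨f, IF.lift h1 hf, hi⟩
  bdd := fun f hf => by
    have : Cx A N W := cx_of (S := S) inferInstance inferInstance
    exact Om1.bdd (M := N) f (IF.lift h2 hf)

end

/-! ### The reals of a model -/

section reals

variable {N : Set ZFSet.{0}} [Mdl N] {W : Type w} [LinearOrder W] [Cd N W] [Om1 N W]

theorem Om_tr {a : ℕ → ℕ} (ha : IF N a) {T : Type v} [Cd N T] {u : T → Fs} (hu : IF N u) :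
    In N (fun t => Tr a (u t)) :=
  In.all (P := fun (t : T) (v : Fs) => v <+: u t → a (Encodable.encode v) = 0)
    (In.imp (In.ipre IF.snd (IF.comp hu IF.fst))
      (In.eq (IF.comp ha (IF.comp CdP.enc IF.snd)) (IF.const 0)))

/-- the ranks of the tree of `a` -/
theorem Om_rk {a : ℕ → ℕ} (ha : IF N a) : ∃ H : W → ISet N Fs, IF N H ∧ ∀ α u, u ∈ H α ↔
    ∀ m : ℕ, Tr a (u ++ [m]) → ∃ β < α, u ++ [m] ∈ H β := by
  have hP : In N (fun y : (W × ISet N (W × ISet N Fs)) × Fs => ∀ m : ℕ, Tr a (y.2 ++ [m]) →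
      ∃ x : W × ISet N Fs, x ∈ y.1.2 ∧ y.2 ++ [m] ∈ x.2) := by
    refine In.all (P := fun (y : (W × ISet N (W × ISet N Fs)) × Fs) (m : ℕ) =>
      Tr a (y.2 ++ [m]) → ∃ x : W × ISet N Fs, x ∈ y.1.2 ∧ y.2 ++ [m] ∈ x.2) ?_
    have hu : IF N (fun y : ((W × ISet N (W × ISet N Fs)) × Fs) × ℕ => y.1.2 ++ [y.2]) :=
      Re2_snoc (IF.comp IF.snd IF.fst) IF.snd
    refine In.imp (Om_tr ha hu) ?_
    refine In.ex (P := fun (y : ((W × ISet N (W × ISet N Fs)) × Fs) × ℕ) (x : W × ISet N Fs) =>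
      x ∈ y.1.1.2 ∧ y.1.2 ++ [y.2] ∈ x.2) (In.and ?_ ?_)
    · exact In.mem IF.snd (IF.comp IF.snd (IF.comp IF.fst (IF.comp IF.fst IF.fst)))
    · exact In.mem (IF.comp hu IF.fst) (IF.comp IF.snd IF.snd)
  obtain ⟨H, hH, hrec⟩ := exists_rec (M := N) (Om1.lt_in (M := N) (W := W))
    (Om1.wf (M := N) (W := W)) (fun _ _ _ h1 h2 => lt_trans h1 h2)
    (IF.sec (P := fun (y : W × ISet N (W × ISet N Fs)) (u : Fs) => ∀ m : ℕ, Tr a (u ++ [m]) →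
      ∃ x : W × ISet N Fs, x ∈ y.2 ∧ u ++ [m] ∈ x.2) hP)
  refine ⟨H, hH, fun α u => ?_⟩
  obtain ⟨h1, h2⟩ := hrec α
  rw [h2, ISet.mem_sec]
  refine forall_congr' fun m => forall_congr' fun _ => ?_
  constructor
  · rintro ⟨⟨β, A⟩, ⟨hβ, hA⟩, hr⟩
    have hA' : H β = A := hA
    exact ⟨β, hβ, by rw [hA']; exact hr⟩
  · rintro ⟨β, hβ, hr⟩
    exact ⟨(β, H β), ⟨hβ, rfl⟩, hr⟩

theorem Om_del {a : ℕ → ℕ} (ha : IF N a) : (∃ y : ℕ → ℕ, IF N y ∧ ∀ k, a (cd y k) = 0) ∨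
    ∃ (α : W) (ρ : Fs → W), (∀ u, ρ u < α) ∧ ∀ (u : Fs) (n : ℕ),
      (∀ v, v <+: u ++ [n] → a (Encodable.encode v) = 0) → ρ (u ++ [n]) < ρ u := by
  obtain ⟨H, hH, hHR⟩ := Om_rk (W := W) ha
  by_cases h0 : ∃ α, [] ∈ H α
  · right
    obtain ⟨α₀, h0⟩ := h0
    have hA : ∀ u : Fs, Tr a u → ∃ α ≤ α₀, u ∈ H α := by
      intro u
      induction u using List.reverseRecOn with
      | nil => exact fun _ => ⟨α₀, le_refl _, h0⟩
      | append_singleton u m ih =>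
        intro hu
        obtain ⟨α, h1, h2⟩ := ih fun v hv => hu v (hv.trans (List.prefix_append _ _))
        obtain ⟨β, h3, h4⟩ := (hHR α u).1 h2 m hu
        exact ⟨β, h3.le.trans h1, h4⟩
    have hB : ∀ u : Fs, ∃ α : W, α ≤ α₀ ∧ (Tr a u → u ∈ H α ∧ ∀ β, u ∈ H β → α ≤ β) := by
      intro u
      by_cases hu : Tr a u
      · obtain ⟨β, h1, h2⟩ := hA u hu
        obtain ⟨α, h3, h4⟩ := (Om1.wf (M := N) (W := W)).has_min {α | u ∈ H α} ⟨β, h2⟩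
        exact ⟨α, (not_lt.1 (h4 β h2)).trans h1, fun _ => ⟨h3, fun γ hγ => not_lt.1 (h4 γ hγ)⟩⟩
      · exact ⟨α₀, le_refl _, fun h => absurd h hu⟩
    choose ρ hρ1 hρ2 using hB
    obtain ⟨α, hα⟩ := Om1.bdd (M := N) (fun _ : ℕ => α₀) (IF.const _)
    refine ⟨α, ρ, fun u => (hρ1 u).trans_lt (hα 0), fun u m hm => ?_⟩
    have hu : Tr a u := fun v hv => hm v (hv.trans (List.prefix_append _ _))
    obtain ⟨β, h3, h4⟩ := (hHR _ u).1 (hρ2 u hu).1 m hm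
    exact ((hρ2 _ hm).2 β h4).trans_lt h3
  · left
    push Not at h0
    -- unranked nodes
    have hU : In N (fun u : Fs => ∀ α : W, ¬ u ∈ H α) :=
      In.all (P := fun (u : Fs) (α : W) => ¬ u ∈ H α)
        (In.not (In.mem IF.fst (IF.comp hH IF.snd)))
    have hstep : ∀ u : Fs, (∀ α : W, ¬ u ∈ H α) → ∃ m : ℕ, Tr a (u ++ [m]) ∧
        ∀ α : W, ¬ u ++ [m] ∈ H α := by
      intro u hu
      by_contra hno
      push Not at hno
      have hin : In N (fun y : ℕ × W => Tr a (u ++ [y.1]) → u ++ [y.1] ∈ H y.2) := by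
        have h1 : IF N (fun y : ℕ × W => u ++ [y.1]) := Re2_snoc (IF.const u) IF.fst
        exact In.imp (Om_tr ha h1) (In.mem h1 (IF.comp hH IF.snd))
      obtain ⟨ζ⟩ := Om1.ne (M := N) (W := W)
      obtain ⟨B, hB, hBR⟩ := In.choice (R := fun (m : ℕ) (α : W) => Tr a (u ++ [m]) →
        u ++ [m] ∈ H α) hin (fun m => by
          by_cases h : Tr a (u ++ [m])
          · obtain ⟨α, hα⟩ := hno m h
            exact ⟨α, fun _ => hα⟩
          · exact ⟨ζ, fun h' => absurd h' h⟩)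
      obtain ⟨α, hα⟩ := Om1.bdd (M := N) B hB
      exact hu α ((hHR α u).2 fun m hm => ⟨B m, hα m, hBR m hm⟩)
    obtain ⟨nx, hnx, hnxR⟩ := In.choice (R := fun (u : Fs) (m : ℕ) => (∀ α : W, ¬ u ∈ H α) →
      (Tr a (u ++ [m]) ∧ ∀ α : W, ¬ u ++ [m] ∈ H α)) (by
        have h1 : IF N (fun y : Fs × ℕ => y.1 ++ [y.2]) := Re2_snoc IF.fst IF.snd
        exact In.imp (hU.comp IF.fst) (In.and (Om_tr ha h1) (hU.comp h1))) (fun u => by
        by_cases h : ∀ α : W, ¬ u ∈ H α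
        · obtain ⟨m, hm⟩ := hstep u h
          exact ⟨m, fun _ => hm⟩
        · exact ⟨0, fun h' => absurd h' h⟩)
    have hlb : IF N (fun k : ℕ => Nat.rec (motive := fun _ => Fs) ([] : Fs)
        (fun _ l => l ++ [nx l]) k) := by
      have h1 : IF N (fun y : ℕ × (ℕ × Fs) => y.2.2 ++ [nx y.2.2]) :=
        Re2_snoc (IF.comp IF.snd IF.snd) (IF.comp hnx (IF.comp IF.snd IF.snd))
      exact IF.comp (g := fun y : ℕ × ℕ => Nat.rec (motive := fun _ => Fs) ([] : Fs)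
        (fun _ l => l ++ [nx l]) y.2) (IF.natRec (S := ℕ) (T := Fs) (a := fun _ => [])
          (IF.const []) (g := fun y : ℕ × (ℕ × Fs) => y.2.2 ++ [nx y.2.2]) h1)
        (IF.id.pair IF.id)
    obtain ⟨lb, hlbd⟩ : ∃ lb : ℕ → Fs, lb = fun k : ℕ => Nat.rec (motive := fun _ => Fs)
      ([] : Fs) (fun _ l => l ++ [nx l]) k := ⟨_, rfl⟩
    rw [← hlbd] at hlb
    have hlb0 : lb 0 = [] := (congrFun hlbd 0).trans rfl
    have hlbS : ∀ k, lb (k + 1) = lb k ++ [nx (lb k)] := fun k => by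
      rw [congrFun hlbd (k + 1), congrFun hlbd k]
    have hini : ∀ k, ini (fun k => nx (lb k)) k = lb k := by
      intro k
      induction k with
      | zero => rw [hlb0]; rfl
      | succ k ih => rw [P5_ini_succ, ih, hlbS]
    have hUr : ∀ k, ∀ α : W, ¬ lb k ∈ H α := by
      intro k
      induction k with
      | zero => rw [hlb0]; exact h0
      | succ k ih => rw [hlbS]; exact (hnxR _ ih).2
    refine ⟨fun k => nx (lb k), IF.comp hnx hlb, fun k => ?_⟩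
    rw [cd_eq, hini]
    have h1 := (hnxR _ (hUr k)).1
    exact h1 (lb k) (List.prefix_append _ _)

end reals

section

variable {S : Set ZFSet.{0}} [Mdl S] {W : Type w} [LinearOrder W] [Cd S W] [Om1 S W]

/-- The reals of a model form a set with the closure properties `RU`. -/
theorem ru_of_model {N : Set ZFSet.{0}} [Mdl N] (h : S ⊆ N) [Cd N W] [Om1 N W] :
    RU S W (Reals N) where
  ground _ hx := h (mem_reals.2 hx)
  comp _ hx _ hy := mem_reals.2 (IF.comp (mem_reals.1 hx) (mem_reals.1 hy))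
  pair _ hx _ hy := mem_reals.2 (IF.npair (mem_reals.1 hx) (mem_reals.1 hy))
  jump x hx := by
    classical
    refine mem_reals.2 ?_
    refine IF.ite (P := fun n => ∃ m, x (Nat.pair n m) = 0) ?_ (IF.const 1) (IF.const 0)
    exact In.ex (P := fun (n m : ℕ) => x (Nat.pair n m) = 0)
      (In.eq (IF.comp (mem_reals.1 hx) (IF.npair IF.fst IF.snd)) (IF.const 0))
  prec x hx a := by
    refine mem_reals.2 ?_
    exact IF.natRec' (a := fun _ : ℕ => a) (IF.const a) (n := fun n : ℕ => n) IF.id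
      (g := fun y : ℕ × ℕ × ℕ => x (Nat.pair y.2.1 y.2.2))
      (IF.comp (mem_reals.1 hx) (IF.npair (IF.comp IF.fst IF.snd) (IF.comp IF.snd IF.snd)))
  mu x hx y hy := by
    refine mem_reals.2 ?_
    have hx' := mem_reals.1 hx
    have h1 : In N (fun z : ℕ × ℕ => x (Nat.pair z.1 z.2) = 0 ∧
        ∀ m : ℕ, m < z.2 → ¬ x (Nat.pair z.1 m) = 0) := by
      refine In.and (In.eq (IF.comp hx' (IF.npair IF.fst IF.snd)) (IF.const 0)) ?_
      refine In.all (P := fun (z : ℕ × ℕ) (m : ℕ) => m < z.2 → ¬ x (Nat.pair z.1 m) = 0) ?_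
      exact In.imp (In.lt IF.snd (IF.comp IF.snd IF.fst))
        (In.not (In.eq (IF.comp hx' (IF.npair (IF.comp IF.fst IF.fst) IF.snd)) (IF.const 0)))
    refine h1.congr fun z => ?_
    obtain ⟨n, k⟩ := z
    obtain ⟨h2, h3⟩ := hy n
    constructor
    · intro h0
      obtain rfl : y n = k := h0
      exact ⟨h2, h3⟩
    · rintro ⟨h4, h5⟩
      rcases lt_trichotomy (y n) k with h6 | h6 | h6
      · exact absurd h2 (h5 _ h6)
      · exact h6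
      · exact absurd h4 (h3 _ h6)
  del a ha := by
    rcases Om_del (W := W) (mem_reals.1 ha) with ⟨y, hy, h1⟩ | h1
    · exact Or.inl ⟨y, mem_reals.2 hy, h1⟩
    · exact Or.inr h1

end

end Pool.Agent.H.MP_20495c_lc
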