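import Pool.Agent.H.MP_20495c_lc.El
import Pool.Agent.H.MP_20495c_lc.Co2
import Pool.Agent.H.MP_20495c_lc.Ex
import Pool.Agent.H.MP_20495c_lc.Def
import Pool.Agent.H.MP_20495c_lc.Cut

/-!
# The step of the layers: from `AI n` to `AI (n+1)`
-/

set_option autoImplicit false
set_option linter.unusedSectionVars false
set_option linter.style.haveILetI false

namespace Pool.Agent.H.MP_20495c_lc

open Pool.Agent.H.MP_07d118_lc Pool.Agent.H.MP_a163f2_lc

universe u v w x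

section

variable {S₀ : Set ZFSet.{0}} [Mdl S₀] {S : Set ZFSet.{0}} [Mdl S] {W : Type v} [LinearOrder W]
  [Cd S₀ W] [Cd S W] [Om1 S₀ W] [Om1 S W]
  {c : W × Hc → ℕ → ℕ} {N : Set ZFSet.{0}} [Mdl N] [Cd N W] [Om1 N W]
  {A : W → Set ZFSet.{0}} [∀ d, Mdl (A d)] [∀ d, Cd (A d) W] [∀ d, Om1 (A d) W]
  {c' : W × Hc → ℕ → ℕ} {f : W → Pl S W} {G : W → Set (Cond W)} {sp : W → ℕ → ℕ → ℕ}

/-- closure of a set of reals under Cohen extensions of the models `A d` -/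
structure Cl (A : W → Set ZFSet.{0}) [∀ d, Mdl (A d)] (R : Set (ℕ → ℕ)) : Prop where
  one : ∀ d, ∀ r ∈ R, Coh (A d) r → Reals (cex (A d) r) ⊆ R
  two : ∀ d, ∀ r ∈ R, ∀ e ∈ R, Coh2 (A d) r e → ∀ [Mdl (cex (A d) r)],
    Reals (cex (cex (A d) r) e) ⊆ R

/-- the worlds of the new layer -/
def WW' (N : Set ZFSet.{0}) (A : W → Set ZFSet.{0}) [∀ d, Mdl (A d)] (WW : Set (Set (ℕ → ℕ))) :
    Set (Set (ℕ → ℕ)) := {R | R ∈ WW ∧ Reals N ⊆ R ∧ WdA A R ∧ Cl A R}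

theorem A_mem {n : ℕ} {WW : Set (Set (ℕ → ℕ))} (h : SPk S c N A c' f G sp)
    (hAI : AI S₀ n S c WW) (d : W) {r : ℕ → ℕ} (hr : Coh (A d) r) : Reals (cex (A d) r) ∈ WW := by
  have key : ∀ (B : Set ZFSet.{0}) (hB : B = ext S (G d)) [Mdl B], Coh B r →
      Reals (cex B r) ∈ WW := by
    rintro B rfl _ hr
    exact hAI.pl1 (f d) (G d) (h.val d) (h.gen d) r hr
  exact key (A d) (h.extA d) hr

theorem A_exact {n : ℕ} {WW : Set (Set (ℕ → ℕ))} (h : SPk S c N A c' f G sp)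
    (hAI : AI S₀ n S c WW) (d : W) {r : ℕ → ℕ} (hr : Coh (A d) r) {y z : ℕ → ℕ}
    (hy : y ∈ Reals (cex (A d) r)) (hz : z ∈ Reals (cex (A d) r)) (hC : Cod c y z) :
    z 0 = 0 ∨ ∃ κ : W × Hc, z = lab κ.2 (c' κ) := by
  have key : ∀ (B : Set ZFSet.{0}) (hB : B = ext S (G d)) [Mdl B], Coh B r →
      y ∈ Reals (cex B r) → z ∈ Reals (cex B r) →
      ∃ ν ∈ (f d).dom, z = ev ((f d).nm ν) (G d) := by
    rintro B rfl _ hr hy hz
    exact exact_plan hAI.luz (h.val d) (h.gen d) hr hy hz hC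
  obtain ⟨ν, hν, h1⟩ := key (A d) (h.extA d) hr hy hz
  rcases h.cont d ν hν with h2 | ⟨κ, h2⟩
  · left
    rw [h1, h2]
    rfl
  · exact Or.inr ⟨κ, h1.trans h2⟩

/-- The main lemma on worlds. -/
theorem world_mem {n : ℕ} {WW : Set (Set (ℕ → ℕ))} (h : SPk S c N A c' f G sp)
    (hAI : AI S₀ n S c WW) {X : Set ZFSet.{0}} [Mdl X] (hX : N ⊆ X) {P : Type w}
    [∀ d, Cd (A d) P] (V : W → Set P) (le : P → P → Prop) (H : W → Set P) (d₀ : W)
    (hd : ∀ d, d₀ ≤ d → Po (A d) (V d) le ∧ ICt (A d) (V d) ∧ Gt (A d) (V d) le (H d) ∧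
      (∀ [Mdl (ext (A d) (H d))], Coh2 (ext (A d) (H d)) (sp d 0) (sp d 1)) ∧
      ext (A d) (H d) ⊆ X)
    (hreal : ∀ x ∈ Reals X, ∃ d₁, ∀ d, d₁ ≤ d → x ∈ Reals (ext (A d) (H d))) :
    Reals X ∈ WW' N A WW := by
  have hAX : ∀ d, A d ⊆ X := fun d => (h.subN d).trans hX
  -- absorption
  have habs : ∀ d, d₀ ≤ d → ∃ r ∈ Reals X, Coh2 (A d) r (sp d 1) ∧
      ext (A d) (H d) ⊆ cex (A d) r := by
    intro d hd0
    obtain ⟨hP, hct, hG, hsp, hsub⟩ := hd d hd0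
    haveI := mdl_ext hP hG
    have hc2 := hsp
    have hc2' : Coh2 (ext (A d) (H d)) (sp d 1) (sp d 0) := hc2.symm
    have h1 : Coh (ext (A d) (H d)) (sp d 1) := (coh2_iff.1 hc2').1
    haveI := mdl_cex h1
    have h0 : Coh (cex (ext (A d) (H d)) (sp d 1)) (sp d 0) := (coh2_iff.1 hc2').2
    have h1A : Coh (A d) (sp d 1) := h1.mono (sub_ext hP hG)
    haveI := mdl_cex h1A
    letI : Cd (cex (A d) (sp d 1)) P := CdUp (sub_cex h1A) P
    haveI : Cx (A d) (cex (A d) (sp d 1)) P := cx_up (sub_cex h1A) P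
    have hG' : Gt (cex (A d) (sp d 1)) (V d) le (H d) := gt_of_coh_ext hP hG h1
    have hP' : Po (cex (A d) (sp d 1)) (V d) le :=
      ⟨In.lift (sub_cex h1A) hP.inV, In.lift (sub_cex h1A) hP.inle, hP.refl, hP.trans⟩
    haveI := mdl_ext hP' hG'
    have hcomm := cex_ext_comm hP hG h1
    have h0' : Coh (ext (cex (A d) (sp d 1)) (H d)) (sp d 0) := by
      have key : ∀ B : Set ZFSet.{0}, ∀ hB : B = cex (ext (A d) (H d)) (sp d 1), ∀ [Mdl B],
          Coh B (sp d 0) := by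
        rintro B rfl _
        exact h0
      exact key _ hcomm.symm
    obtain ⟨r, hr1, hr2, hr3⟩ := absorb hP hct (sub_cex h1A) hG' h0'
    refine ⟨r, ?_, ?_, hr3⟩
    · have h2 : Coh (ext (A d) (H d)) (sp d 0) := (coh2_iff.1 hc2).1
      exact reals_mono_set (cex_min h2 hsub (hX (h.spN d 0))) hr2
    · refine Coh2.symm (coh2_iff.2 ⟨h1A, ?_⟩)
      exact hr1
  choose! r hr using habs
  have hsub : ∀ d, d₀ ≤ d → cex (A d) (r d) ⊆ X := fun d hd0 =>
    cex_min (coh2_iff.1 (hr d hd0).2.1).1 (hAX d) (hr d hd0).1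
  have hcx : ∀ x ∈ Reals X, ∃ d₁, ∀ d, d₁ ≤ d → d₀ ≤ d → x ∈ Reals (cex (A d) (r d)) := by
    intro x hx
    obtain ⟨d₁, h1⟩ := hreal x hx
    exact ⟨d₁, fun d hd1 hd0 => (hr d hd0).2.2 (h1 d hd1)⟩
  have hcl : Cl A (Reals X) := by
    constructor
    · intro d r hr hc
      exact reals_mono_set (cex_min hc (hAX d) hr)
    · intro d r hr e he hc _
      exact reals_mono_set (cex_min (coh2_iff.1 hc).2 (cex_min (coh2_iff.1 hc).1 (hAX d) hr) he)
  refine ⟨?_, reals_mono_set hX, ?_, hcl⟩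
  · -- the reals of `X` are a directed union of worlds of the old layer
    have hun : Reals X = ⋃₀ {R | ∃ d, d₀ ≤ d ∧ R = Reals (cex (A d) (r d))} := by
      ext x
      constructor
      · intro hx
        obtain ⟨d₁, h1⟩ := hcx x hx
        exact ⟨_, ⟨max d₀ d₁, le_max_left _ _, rfl⟩,
          h1 _ (le_max_right _ _) (le_max_left _ _)⟩
      · rintro ⟨R, ⟨d, hd0, rfl⟩, hx⟩
        exact hsub d hd0 hx
    rw [hun]
    refine hAI.dir _ ?_ ?_ ?_
    · rintro R ⟨d, hd0, rfl⟩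
      exact A_mem h hAI d (coh2_iff.1 (hr d hd0).2.1).1
    · exact ⟨_, d₀, le_rfl, rfl⟩
    · rintro R ⟨d, hd0, rfl⟩ R' ⟨d', hd0', rfl⟩
      obtain ⟨a, ha⟩ := hcx _ (hr d hd0).1
      obtain ⟨b, hb⟩ := hcx _ (hr d' hd0').1
      set e := max (max a b) (max d d') with he
      have he0 : d₀ ≤ e := hd0.trans ((le_max_left d d').trans (le_max_right _ _))
      have hce := (coh2_iff.1 (hr e he0).2.1).1
      haveI := mdl_cex hce
      refine ⟨_, ⟨e, he0, rfl⟩, ?_, ?_⟩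
      · exact reals_mono_set (cex_min (coh2_iff.1 (hr d hd0).2.1).1
          ((h.mono d e ((le_max_left d d').trans (le_max_right _ _))).trans (sub_cex hce))
          (ha e ((le_max_left a b).trans (le_max_left _ _)) he0))
      · exact reals_mono_set (cex_min (coh2_iff.1 (hr d' hd0').2.1).1
          ((h.mono d' e ((le_max_right d d').trans (le_max_right _ _))).trans (sub_cex hce))
          (hb e ((le_max_right a b).trans (le_max_left _ _)) he0))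
  · intro x hx
    obtain ⟨d₁, h1⟩ := hcx x hx
    refine ⟨max d₀ d₁, fun d hdd => ?_⟩
    have hd0 : d₀ ≤ d := (le_max_left _ _).trans hdd
    exact ⟨r d, (hr d hd0).1, sp d 1, hX (h.spN d 1), (hr d hd0).2.1,
      h1 d ((le_max_right _ _).trans hdd) hd0⟩

end

end Pool.Agent.H.MP_20495c_lc
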