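import Pool.Agent.H.MP_20495c_lc.Step
import Pool.Agent.H.MP_20495c_lc.Co5

/-!
# The step of the layers, part 2
-/

set_option autoImplicit false
set_option linter.unusedSectionVars false
set_option linter.style.haveILetI false

namespace Pool.Agent.H.MP_20495c_lc

open Pool.Agent.H.MP_07d118_lc Pool.Agent.H.MP_a163f2_lc

universe u v w x

section

variable {S₀ : Set ZFSet.{0}} [Mdl S₀] {S : Set ZFSet.{0}} [Mdl S] {W : Type v} [LinearOrder W]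
  [Cd S₀ W] [Cd S W] [Om1 S₀ W] [Om1 S W]
  {c : W × Hc → ℕ → ℕ} {N : Set ZFSet.{0}} [Mdl N] [Cd N W] [Om1 N W]
  {A : W → Set ZFSet.{0}} [∀ d, Mdl (A d)] [∀ d, Cd (A d) W] [∀ d, Om1 (A d) W]
  {c' : W × Hc → ℕ → ℕ} {f : W → Pl S W} {G : W → Set (Cond W)} {sp : W → ℕ → ℕ → ℕ}

theorem RU.jn {R : Set (ℕ → ℕ)} (h : RU S₀ W R) : ∀ x ∈ R, ∀ y ∈ R, jn x y ∈ R :=
  fun _ hx _ hy => P5_jn_mem h.rc hx hy

theorem ww_dir {n : ℕ} {WW : Set (Set (ℕ → ℕ))} (hAI : AI S₀ n S c WW)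
    {DD : Set (Set (ℕ → ℕ))} (hDD : DD ⊆ WW' N A WW) (hne : DD.Nonempty)
    (hd : DirectedOn (· ⊆ ·) DD) : ⋃₀ DD ∈ WW' N A WW := by
  obtain ⟨R₀, hR₀⟩ := hne
  refine ⟨hAI.dir DD (fun R hR => (hDD hR).1) ⟨R₀, hR₀⟩ hd,
    (hDD hR₀).2.1.trans (Set.subset_sUnion_of_mem hR₀), ?_, ?_, ?_⟩
  · rintro x ⟨R, hR, hx⟩
    obtain ⟨d₀, h1⟩ := (hDD hR).2.2.1 x hx
    refine ⟨d₀, fun d hd => ?_⟩
    obtain ⟨r, hr, e, he, h2, h3⟩ := h1 d hd
    exact ⟨r, ⟨R, hR, hr⟩, e, ⟨R, hR, he⟩, h2, h3⟩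
  · rintro d r ⟨R, hR, hr⟩ hc
    exact ((hDD hR).2.2.2.one d r hr hc).trans (Set.subset_sUnion_of_mem hR)
  · rintro d r ⟨R, hR, hr⟩ e ⟨R', hR', he⟩ hc _
    obtain ⟨R'', hR'', h1, h2⟩ := hd R hR R' hR'
    exact ((hDD hR'').2.2.2.two d r (h1 hr) e (h2 he) hc).trans (Set.subset_sUnion_of_mem hR'')

theorem ww_el {n : ℕ} {WW : Set (Set (ℕ → ℕ))} (h : SPk S c N A c' f G sp)
    (hAI : AI S₀ n S c WW) {R R' : Set (ℕ → ℕ)} (hR : R ∈ WW' N A WW) (hR' : R' ∈ WW' N A WW)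
    (hs : R ⊆ R') : El (n + 1) R R' := by
  refine el_step hs hR.2.2.1 hR'.2.2.1 (RU.jn (hAI.ru R hR.1)) (RU.jn (hAI.ru R' hR'.1))
    ?_ ?_ hR.2.2.2.two (hAI.el R hR.1 R' hR'.1 hs)
  · intro d r hr hc
    exact hAI.el _ (A_mem h hAI d hc) _ hR.1 (hR.2.2.2.one d r hr hc)
  · intro d r hr hc
    exact hAI.el _ (A_mem h hAI d hc) _ hR'.1 (hR'.2.2.2.one d r hr hc)

theorem ww_fam {n : ℕ} (hn : 1 ≤ n) {WW : Set (Set (ℕ → ℕ))} (h : SPk S c N A c' f G sp)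
    (hSN : S ⊆ N) (hAI : AI S₀ n S c WW) {R : Set (ℕ → ℕ)} (hR : R ∈ WW' N A WW) :
    Sig R (n + 1) {z | z ∈ R ∧ z ∈ Fam c'} := by
  have hru := hAI.ru R hR.1
  refine sig_fam hru.rc (by omega) ?_ (sig_cod hru.rc hn ?_ (hAI.fam R hR.1)) ?_ ?_
  · intro κ
    have h1 : c' κ ∈ Reals N := by
      rw [mem_reals]
      exact IF.comp h.luz.int ((IF.const κ).pair IF.id)
    exact hR.2.1 h1
  · intro κ
    have h1 : c κ ∈ Reals S := by
      rw [mem_reals]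
      exact IF.comp hAI.luz.int ((IF.const κ).pair IF.id)
    exact hAI.sub R hR.1 h1
  · intro κ
    obtain ⟨y, hy, h1⟩ := h.code κ
    exact ⟨y, hR.2.1 hy, h1⟩
  · intro y hy z hz hC
    obtain ⟨d₀, h1⟩ := hR.2.2.1 _ (RU.jn hru y hy z hz)
    obtain ⟨r, hr, e, he, h2, h3⟩ := h1 d₀ le_rfl
    have hc := (coh2_iff.1 h2).1
    haveI := mdl_cex hc
    have hy' := lf_mem_reals h3
    have hz' := rg_mem_reals h3
    rw [P3_lf_jn] at hy'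
    rw [P3_rg_jn] at hz'
    exact A_exact h hAI d₀ hc hy' hz' hC

theorem ww_pl0 {n : ℕ} {WW : Set (Set (ℕ → ℕ))} (h : SPk S c N A c' f G sp)
    (hAI : AI S₀ n S c WW) {g : Pl N W} {K : Set (Cond W)} (hg : Valid c' g)
    (hK : Gen c' g K) : Reals (ext N K) ∈ WW' N A WW := by
  haveI : Fact (Luz N W c') := ⟨h.luz⟩
  haveI := mdl_ext (po_pp (c := c') g) (gt_iff_gen.2 hK)
  obtain ⟨d₀, h0⟩ := cut_main hAI.luz h hg hK
  obtain ⟨d₁, h1⟩ := cut_sub hAI.luz h hg hK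
  refine world_mem h hAI (sub_ext (po_pp (c := c') g) (gt_iff_gen.2 hK)) (Vc c' g) (CLe c')
    (fun d => K ∩ Vc c' g d) (max d₀ d₁) ?_ fun x hx => cut_real hAI.luz h hg hK hx
  intro d hd
  obtain ⟨h2, h3, h4, h5⟩ := h0 d ((le_max_left _ _).trans hd)
  exact ⟨h2, h3, h4, h5, h1 d ((le_max_right _ _).trans hd)⟩

theorem ww_pl1 {n : ℕ} {WW : Set (Set (ℕ → ℕ))} (h : SPk S c N A c' f G sp)
    (hAI : AI S₀ n S c WW) {g : Pl N W} {K : Set (Cond W)} (hg : Valid c' g)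
    (hK : Gen c' g K) [Mdl (ext N K)] {r : ℕ → ℕ} (hr : Coh (ext N K) r) :
    Reals (cex (ext N K) r) ∈ WW' N A WW := by
  haveI : Fact (Luz N W c') := ⟨h.luz⟩
  have hNK : N ⊆ ext N K := sub_ext (po_pp (c := c') g) (gt_iff_gen.2 hK)
  haveI := mdl_cex hr
  obtain ⟨d₀, h0⟩ := cut_main hAI.luz h hg hK
  obtain ⟨d₁, h1⟩ := cut_sub hAI.luz h hg hK
  have key : ∀ d, max d₀ d₁ ≤ d → ∀ [Mdl (ext (A d) (K ∩ Vc c' g d))],
      Coh (ext (A d) (K ∩ Vc c' g d)) r := fun d hd _ =>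
    hr.mono (h1 d ((le_max_right _ _).trans hd))
  refine world_mem h hAI (hNK.trans (sub_cex hr)) (P := Cond W × Fs)
    (fun d => Vc c' g d ×ˢ (Set.univ : Set Fs)) (leC (CLe c'))
    (fun d => (K ∩ Vc c' g d) ×ˢ CF r) (max d₀ d₁) ?_ ?_
  · intro d hd
    obtain ⟨h2, h3, h4, h5⟩ := h0 d ((le_max_left _ _).trans hd)
    have h6 := h1 d ((le_max_right _ _).trans hd)
    haveI := mdl_ext h2 h4
    have hrE := key d hd
    haveI := mdl_cex hrE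
    have hE := ext_prod h2 h4 hrE
    refine ⟨po_prod h2, ict_prod h3, gt_prod h2 h4 hrE, ?_, ?_⟩
    · intro hm
      have h7 : Coh2 (cex (ext (A d) (K ∩ Vc c' g d)) r) (sp d 0) (sp d 1) := by
        refine coh2_perm h5 ?_
        intro hm1 hm2
        refine hr.mono (cex_min (coh2_iff.1 h5).2 (cex_min (coh2_iff.1 h5).1 h6 ?_) ?_)
        · exact hNK (h.spN d 0)
        · exact hNK (h.spN d 1)
      have key2 : ∀ B : Set ZFSet.{0}, ∀ hB : B = cex (ext (A d) (K ∩ Vc c' g d)) r, ∀ [Mdl B],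
          Coh2 B (sp d 0) (sp d 1) := by
        rintro B rfl _
        exact h7
      exact key2 _ hE
    · rw [hE]
      exact cex_min hrE (h6.trans (sub_cex hr)) (mem_cex hr)
  · intro x hx
    obtain ⟨F, hF⟩ := (reals_cex hr).1 hx
    obtain ⟨d₂, h2⟩ := cut_real hAI.luz h hg hK (in_iff_indr.1 F.2)
    refine ⟨max (max d₀ d₁) d₂, fun d hd => ?_⟩
    have hd' : max d₀ d₁ ≤ d := (le_max_left _ _).trans hd
    obtain ⟨h3, h4, h5, h6⟩ := h0 d ((le_max_left _ _).trans hd')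
    haveI := mdl_ext h3 h5
    have hrE := key d hd'
    have hE := ext_prod h3 h5 hrE
    have h7 : In (ext (A d) (K ∩ Vc c' g d)) (fun t => t ∈ F) :=
      in_iff_indr.2 (h2 d ((le_max_right _ _).trans hd))
    rw [hE]
    exact (reals_cex hrE).2 ⟨ISet.mk h7, hF⟩

/-- **The step.** -/
theorem ai_step {n : ℕ} (hn : 1 ≤ n) {WW : Set (Set (ℕ → ℕ))} (h : SPk S c N A c' f G sp)
    (hSN : S ⊆ N) (hAI : AI S₀ n S c WW) : AI S₀ (n + 1) N c' (WW' N A WW) where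
  luz := h.luz
  dir := fun _ h1 h2 h3 => ww_dir hAI h1 h2 h3
  ru := fun R hR => hAI.ru R hR.1
  sub := fun _ hR => hR.2.1
  el := fun _ hR _ hR' hs => ww_el h hAI hR hR' hs
  fam := fun _ hR => ww_fam hn h hSN hAI hR
  pl0 := fun _ _ hg hK => ww_pl0 h hAI hg hK
  pl1 := fun _ _ hg hK _ _ hr => ww_pl1 h hAI hg hK hr

end

end Pool.Agent.H.MP_20495c_lc
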