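import Pool.Agent.H.MP_20495c_lc.Def
import Pool.Agent.H.MP_20495c_lc.Un0
import Pool.Agent.H.MP_a163f2_lc.E.Pw

/-!
# From the dichotomy to uniformization
-/

set_option autoImplicit false
set_option linter.unusedSectionVars false
set_option linter.unusedVariables false

namespace Pool.Agent.H.MP_20495c_lc

open Pool.Agent.H.MP_07d118_lc Pool.Agent.H.MP_a163f2_lc

universe u v w x

section

variable {R : Set (ℕ → ℕ)} {W : Type v} {c : W × Hc → ℕ → ℕ}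

/-- the real `z` is coded by a real in `R` -/
def CodR (R : Set (ℕ → ℕ)) (c : W × Hc → ℕ → ℕ) (z : ℕ → ℕ) : Prop := ∃ y ∈ R, Cod c y z

/-- The dichotomy, on the level `n`: for every real `x` and every code `a` of a Sigma-1-(n+1) set,
either there is exactly one real `z` such that the pair of the key `jn x a` and `z` is not coded,
and this `z` is not in the section at `x` of the set with the code `a`, or all reals are in this
section. -/
def Dich (R : Set (ℕ → ℕ)) (n : ℕ) (c : W × Hc → ℕ → ℕ) : Prop :=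
  ∀ x ∈ R, ∀ a ∈ R,
    (∃ z ∈ R, ¬ TS R (n + 1) a (jn x z) ∧
      ∀ z' ∈ R, ¬ CodR R c (T3 (jn x a) z' 0) ↔ z' = z) ∨
    ∀ z ∈ R, TS R (n + 1) a (jn x z)

theorem U_jn_eta (t : ℕ → ℕ) : jn (lf t) (rg t) = t := by
  funext n
  unfold jn lf rg
  by_cases h : n % 2 = 0
  · simp only [h, if_true]
    congr 1
    omega
  · simp only [h, if_false]
    congr 1
    omega

/-- Uniformization for relations on `R`. -/
theorem unif_core (hR : RC R) {n : ℕ} (hn : 1 ≤ n) (hc : ∀ κ, c κ ∈ R)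
    (hF : Sig R n {z | z ∈ R ∧ z ∈ Fam c}) (hd : Dich R n c) {A : (ℕ → ℕ) → (ℕ → ℕ) → Prop}
    (hA : PiP R (n + 1) (fun t => A (lf t) (rg t))) :
    ∃ B : (ℕ → ℕ) → (ℕ → ℕ) → Prop, PiP R (n + 1) (fun t => B (lf t) (rg t)) ∧
      (∀ x ∈ R, ∀ z ∈ R, B x z → A x z) ∧
      ∀ x ∈ R, (∃ z ∈ R, A x z) → ∃ z ∈ R, B x z ∧ ∀ z' ∈ R, B x z' → z' = z := by
  obtain ⟨a, ha, h1⟩ := (sig_iff_TS hR (n + 1)).1 hA
  have h2 : ∀ x ∈ R, ∀ z ∈ R, ¬ A x z ↔ TS R (n + 1) a (jn x z) := by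
    intro x hx z hz
    have hj : jn x z ∈ R := P3_jn_mem hR hx hz
    have h3 := congrArg (fun X : Set (ℕ → ℕ) => jn x z ∈ X) h1
    have h4 : (jn x z ∈ R ∧ ¬ A (lf (jn x z)) (rg (jn x z))) =
      (jn x z ∈ R ∧ TS R (n + 1) a (jn x z)) := h3
    rw [P3_lf_jn, P3_rg_jn] at h4
    have h5 := h4.to_iff
    exact ⟨fun h => (h5.1 ⟨hj, h⟩).2, fun h => (h5.2 ⟨hj, h⟩).2⟩
  refine ⟨fun x z => A x z ∧ ¬ CodR R c (T3 (jn x a) z 0), ?_, fun x _ z _ h => h.1, ?_⟩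
  · refine PiP.and hR hA ?_
    have h3 : SigP R (n + 1) (fun z => ∃ y ∈ R, Cod c y z) := sig_cod hR hn hc hF
    have hid := CF.id' hR
    have h4 := SigP.subst hR h3 (CF.T3 hR (CF.num hR (RF.const hR (0 : ℕ)))
      (CF.jn hR (CF.lf hR hid) (CF.cst hR ha)) (CF.rg hR hid))
    exact PiP.of_not h4
  · intro x hx hex
    rcases hd x hx a ha with ⟨z, hz, h3, h4⟩ | h3
    · refine ⟨z, hz, ⟨?_, (h4 z hz).2 rfl⟩, fun z' hz' h => (h4 z' hz').1 h.2⟩
      by_contra h5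
      exact h3 ((h2 x hx z hz).1 h5)
    · obtain ⟨z, hz, h4⟩ := hex
      exact absurd h4 ((h2 x hx z hz).2 (h3 z hz))

/-- **The coded form of uniformization from the dichotomy.** -/
theorem unC_of_dich (hR : RC R) {n : ℕ} (hn : 1 ≤ n) (hc : ∀ κ, c κ ∈ R)
    (hF : Sig R n {z | z ∈ R ∧ z ∈ Fam c}) (hd : Dich R n c) : UnC R (n + 1) := by
  intro b hb
  have hA : PiP R (n + 1) (fun t => (fun x z => ¬ TS R (n + 1) b (jn x z)) (lf t) (rg t)) := by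
    have h1 : Sig R (n + 1) {x | x ∈ R ∧ TS R (n + 1) b x} :=
      (sig_iff_TS hR (n + 1)).2 ⟨b, hb, rfl⟩
    refine SigP.congr (P := fun t => TS R (n + 1) b t) h1 fun t _ => ?_
    simp only [not_not, U_jn_eta]
  obtain ⟨B, hB, h1, h2⟩ := unif_core (A := fun x z => ¬ TS R (n + 1) b (jn x z)) hR hn hc hF hd hA
  obtain ⟨b', hb', h3⟩ := (sig_iff_TS hR (n + 1)).1 hB
  have h4 : ∀ x ∈ R, ∀ z ∈ R, ¬ TS R (n + 1) b' (jn x z) ↔ B x z := by
    intro x hx z hz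
    have hj : jn x z ∈ R := P3_jn_mem hR hx hz
    have h5 := congrArg (fun X : Set (ℕ → ℕ) => jn x z ∈ X) h3
    have h6 : (jn x z ∈ R ∧ ¬ B (lf (jn x z)) (rg (jn x z))) =
      (jn x z ∈ R ∧ TS R (n + 1) b' (jn x z)) := h5
    rw [P3_lf_jn, P3_rg_jn] at h6
    have h7 := h6.to_iff
    constructor
    · intro h8
      by_contra h9
      exact h8 (h7.1 ⟨hj, h9⟩).2
    · intro h8 h9
      exact (h7.2 ⟨hj, h9⟩).2 h8
  refine ⟨b', hb', fun x hx y hy h => h1 x hx y hy ((h4 x hx y hy).1 h), fun x hx y hy h => ?_⟩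
  obtain ⟨z, hz, h5, h6⟩ := h2 x hx ⟨y, hy, h⟩
  exact ⟨z, hz, (h4 x hx z hz).2 h5, fun z' hz' h7 => h6 z' hz' ((h4 x hx z' hz').1 h7)⟩

end

end Pool.Agent.H.MP_20495c_lc
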